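import Pool.Agent.Lib.MP_5c318e_ag.Z.DDefs
import Pool.Agent.Lib.MP_5c318e_ag.Fp.Pw
import Pool.Agent.Lib.MP_5c318e_ag.C.Psi
import Pool.Agent.Lib.MP_5c318e_ag.S.AFrm
/-! Basic facts on the norm of the determinant line and on regular forms on a chart. -/
set_option autoImplicit false
namespace Pool.Agent.Lib.MP_5c318e_ag
open MeasureTheory Set Filter Topology Matrix
open scoped ENNReal
noncomputable section

variable {δ ν K M : Type} [Fintype δ] [DecidableEq δ] [Fintype ν] [DecidableEq ν]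
  [Field K] [Algebra ℂ K] [Field M] [Algebra ℂ M] [Algebra K M]

theorem Dat.bas_sf (d : Dat δ K ν M) (b : Pt d.B.O) : SigmaFinite (d.μ b) := by
  have := (d.T.fib b).secondCountable
  obtain ⟨-, -, -, h, -⟩ := (d.T.fib b).exists_pi Unit
  exact h

theorem Dat.bas_mf (d : Dat δ K ν M) (b : Pt d.B.O) : Measurable (d.f b) :=
  (continuous_pi fun i => (Pt.continuous_apply (d.τ i)).comp continuous_subtype_val).measurable

theorem Dat.bas_p (d : Dat δ K ν M) : (0 : ℝ) < 2 / d.m := by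
  have : (0 : ℝ) < d.m := Nat.cast_pos.2 (by have := d.hm; omega)
  positivity

theorem Cht.bas_siz (c : Cht δ K) (p : Pt c.O) : 0 ≤ c.siz p :=
  Real.log_nonneg (le_add_of_nonneg_left (Finset.sum_nonneg fun _ _ => sq_nonneg _))

/-- a positive moderate upper bound for `nD` -/
theorem Dat.nD_up (d : Dat δ K ν M) : ∃ u : Pt d.B.O → ℝ, Md d.B.siz u ∧ (∀ b, 0 ≤ u b) ∧
    ∀ b, N.nD (d.μ b) (d.f b) (2 / d.m) ≤ ENNReal.ofReal (u b) := by
  obtain ⟨u, ⟨L, hL, h1⟩, h2⟩ := d.up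
  have hE : Md d.B.siz fun b => Real.exp (L * d.B.siz b + L) := ⟨L, hL, fun _ => le_rfl⟩
  refine ⟨fun b => (d.r.factorial : ℝ) ^ (2 / d.m : ℝ) * Real.exp (L * d.B.siz b + L) ^ d.r,
    (Md.const d.B.bas_siz _).mul (hE.pow d.B.bas_siz (fun _ => (Real.exp_pos _).le) _)
      fun _ => by positivity, fun _ => by positivity, fun b => ?_⟩
  have := d.bas_sf b
  refine (N.nD_le (d.bas_mf b) d.bas_p.le).trans ?_
  rw [ENNReal.ofReal_mul (by positivity), ENNReal.ofReal_pow (Real.exp_pos _).le,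
    ← ENNReal.ofReal_rpow_of_nonneg (by positivity) d.bas_p.le, ENNReal.ofReal_natCast]
  exact mul_le_mul_right (pow_le_pow_left' ((h2 b).trans (ENNReal.ofReal_le_ofReal (h1 b))) _) _

/-- a moderate lower bound for `nD` -/
theorem Dat.nD_low (d : Dat δ K ν M) : ∃ u : Pt d.B.O → ℝ, Md d.B.siz u ∧ (∀ b, 0 < u b) ∧
    ∀ b, ENNReal.ofReal (u b)⁻¹ ≤ N.nD (d.μ b) (d.f b) (2 / d.m) := by
  obtain ⟨u, ⟨L, hL, h1⟩, h2⟩ := d.low
  have hE : Md d.B.siz fun b => Real.exp (L * d.B.siz b + L) := ⟨L, hL, fun _ => le_rfl⟩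
  refine ⟨fun b => Real.exp (L * d.B.siz b + L) ^ d.r,
    hE.pow d.B.bas_siz (fun _ => (Real.exp_pos _).le) _, fun _ => by positivity, fun b => ?_⟩
  have := d.bas_sf b
  have h0 := Real.exp_pos (L * d.B.siz b + L)
  rw [← inv_pow, ENNReal.ofReal_pow (inv_pos.2 h0).le]
  refine N.le_nD (d.bas_mf b) d.bas_p.le fun a => ?_
  refine (mul_le_mul_right ((h2 b a).trans
    (mul_le_mul_left (ENNReal.ofReal_le_ofReal (h1 b)) _)) _).trans (le_of_eq ?_)
  rw [← mul_assoc, ← ENNReal.ofReal_mul (inv_pos.2 h0).le, inv_mul_cancel₀ h0.ne',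
    ENNReal.ofReal_one, one_mul]

theorem Dat.nD_ne_top (d : Dat δ K ν M) (b : Pt d.B.O) : N.nD (d.μ b) (d.f b) (2 / d.m) ≠ ⊤ :=
  let ⟨_, _, _, h⟩ := d.nD_up; ne_top_of_le_ne_top ENNReal.ofReal_ne_top (h b)

section
variable [IsScalarTower ℂ K M]
set_option linter.unusedSectionVars false

theorem Dat.nD_eq (d : Dat δ K ν M) (b : Pt d.B.O) :
    N.nD (d.μ b) (d.f b) (2 / d.m) = ENNReal.ofReal (d.Dd b) :=
  (ENNReal.ofReal_toReal (d.nD_ne_top b)).symm

theorem Dat.Dd_pos (d : Dat δ K ν M) (b : Pt d.B.O) : 0 < d.Dd b := by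
  obtain ⟨u, -, h0, h⟩ := d.nD_low
  exact ENNReal.toReal_pos ((ENNReal.ofReal_pos.2 (inv_pos.2 (h0 b))).trans_le (h b)).ne'
    (d.nD_ne_top b)

theorem Dat.md_Dd (d : Dat δ K ν M) : Md d.B.siz d.Dd ∧ Md d.B.siz fun b => (d.Dd b)⁻¹ := by
  obtain ⟨u, hu, u0, h⟩ := d.nD_up
  obtain ⟨v, hv, v0, h'⟩ := d.nD_low
  refine ⟨hu.mono fun b => ENNReal.toReal_le_of_le_ofReal (u0 b) (h b), hv.mono fun b => ?_⟩
  refine inv_le_of_inv_le₀ (v0 b) ?_
  exact (ENNReal.ofReal_le_ofReal_iff (d.Dd_pos b).le).1 ((h' b).trans_eq (d.nD_eq b))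

theorem Dat.measurable_Dd (d : Dat δ K ν M) : Measurable d.Dd := by
  have hG : Measurable fun q : d.T.Pow (Fin d.r) =>
      ‖(Matrix.of fun j i => q.p j (d.τ i)).det‖ₑ ^ (2 / d.m : ℝ) :=
    (N.measurable_det (A := fun (q : d.T.Pow (Fin d.r)) j i => q.p j (d.τ i)) fun j i =>
      ((Pt.continuous_apply (d.τ i)).comp (Rel.Pow.cont_p j)).measurable).enorm.pow_const _
  exact (d.T.pow_fubini hG).1.ennreal_toReal

end

theorem Cht.bas_frac (c : Cht δ K) : IsFractionRing c.O K :=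
  IsFractionRing.of_field c.O K fun φ => by
    obtain ⟨a, b, hb, h⟩ := c.frac φ
    exact ⟨a, b, (eq_div_iff fun e => hb (Subtype.ext e)).2 h⟩

theorem Cht.jac_mem (c : Cht δ K) {f : δ → K} (hf : ∀ j, f j ∈ c.O) : Jac c.der f ∈ c.O := by
  unfold Jac
  rw [det_apply']
  exact sum_mem fun σ _ => mul_mem (intCast_mem _ _) (prod_mem fun i _ => c.der_mem _ _ (hf _))

/-- regular forms have regular coefficients on every chart -/
theorem Cht.plu_mem (c : Cht δ K) {q : ℕ} {φ : K} (h : Plu c.der q φ) : φ ∈ c.O := by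
  have := c.bas_frac
  obtain ⟨f, h0, Pr, h1, -, h2⟩ :=
    chart_of_etale (d := c.der) ⟨c.basis, c.der_z⟩ (A := c.O) (MvPolynomial.aeval c.z) c.et
  obtain ⟨a, ha⟩ := h2 q φ fun O hO => h O (h1 O hO)
  rw [← (eq_div_iff (pow_ne_zero q h0)).1 ha]
  exact mul_mem a.2 (pow_mem (c.jac_mem fun j => (f j).2) q)

end
end Pool.Agent.Lib.MP_5c318e_ag
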