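import Pool.Agent.Lib.MP_5c318e_ag.D.ExA
import Pool.Agent.Lib.MP_5c318e_ag.Z.DDefs

/-! The norms of a set-up do not change when the base chart is changed. -/

set_option autoImplicit false
set_option linter.unusedSectionVars false

namespace Pool.Agent.Lib.MP_5c318e_ag

open MeasureTheory Set Filter Topology Matrix
open scoped ENNReal

variable {δ δ' ν K M : Type} [Fintype δ] [DecidableEq δ] [Fintype δ'] [DecidableEq δ']
  [Fintype ν] [DecidableEq ν]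
  [Field K] [Algebra ℂ K] [Field M] [Algebra ℂ M] [Algebra K M] [IsScalarTower ℂ K M]

theorem Rel.fr_ev {B : Cht δ K} (T : Rel B ν M) {r : ℕ} (τ : Fin r → T.X.O) (b : Pt B.O)
    (p : T.Fib b) : T.fr τ b p = fun i => p.1.ev (τ i) := funext fun i => (p.1.ev_coe (τ i)).symm

namespace Dat.Re

variable {d' : Dat δ' K ν M} {d : Dat δ K ν M} (h : d.Re d')

include h

theorem f_ev (b : Pt d'.B.O) (p : d'.T.Fib b) :
    d'.f b p = fun i => p.1.ev (d.τ (i.cast h.r)) := by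
  rw [Dat.f, Rel.fr_ev]
  simp only [h.τ]

/-- integrals of functions of the frame -/
theorem int (b : Pt d'.B.O) {G : (Fin d'.r → ℂ) → ℝ≥0∞} (hG : Measurable G) :
    ∫⁻ p, G (d'.f b p) ∂d'.μ b = ∫⁻ p, G (fun i => d.f (h.ρ b) p (i.cast h.r)) ∂d.μ (h.ρ b) := by
  simp only [h.f_ev, Dat.f, Rel.fr_ev]
  exact h.sub.int b (fun g => G fun i => g (d.τ (i.cast h.r)))
    (hG.comp (measurable_pi_lambda _ fun i => measurable_pi_apply _))

/-- integrals of functions of the frame over fibre powers -/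
theorem int_pi (b : Pt d'.B.O) {κ : Type} [Fintype κ] {G : (κ → Fin d'.r → ℂ) → ℝ≥0∞}
    (hG : Measurable G) :
    ∫⁻ p, G (fun j => d'.f b (p j)) ∂(Measure.pi fun _ : κ => d'.μ b) =
      ∫⁻ p, G (fun j i => d.f (h.ρ b) (p j) (i.cast h.r))
        ∂(Measure.pi fun _ : κ => d.μ (h.ρ b)) := by
  simp only [h.f_ev, Dat.f, Rel.fr_ev]
  exact h.sub.int_pi b (G := fun g => G fun j i => g j (d.τ (i.cast h.r)))
    (hG.comp (measurable_pi_lambda _ fun j => measurable_pi_lambda _ fun i =>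
      (measurable_pi_apply _).comp (measurable_pi_apply j)))

end Dat.Re

theorem nD_cast {Ω : Type} [MeasurableSpace Ω] (μ : Measure Ω) {r r' : ℕ} (e : r' = r)
    (τ : Ω → Fin r → ℂ) (s : ℝ) : N.nD μ (fun p i => τ p (Fin.cast e i)) s = N.nD μ τ s := by
  subst e
  rfl

theorem nN_cast {Ω : Type} [MeasurableSpace Ω] (μ : Measure Ω) {r r' : ℕ} (e : r' = r)
    (τ : Ω → Fin r → ℂ) (s : ℝ) (a : Fin r' → ℂ) :
    N.nN μ (fun p i => τ p (Fin.cast e i)) s a = N.nN μ τ s fun i => a (i.cast e.symm) := by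
  subst e
  rfl

theorem Dat.Re.nD {d' : Dat δ' K ν M} {d : Dat δ K ν M} (h : d.Re d') (b : Pt d'.B.O) (s : ℝ) :
    N.nD (d'.μ b) (d'.f b) s = N.nD (d.μ (h.ρ b)) (d.f (h.ρ b)) s :=
  (h.int_pi b (G := fun g => ‖N.dt id g‖ₑ ^ s)
    ((N.measurable_dt measurable_id).enorm.pow_const s)).trans (nD_cast _ h.r _ s)

theorem Dat.Re.nN {d' : Dat δ' K ν M} {d : Dat δ K ν M} (h : d.Re d') (b : Pt d'.B.O) (s : ℝ)
    (a : Fin d'.r → ℂ) : N.nN (d'.μ b) (d'.f b) s a =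
      N.nN (d.μ (h.ρ b)) (d.f (h.ρ b)) s fun i => a (i.cast h.r.symm) :=
  (h.int b (G := fun g => ‖a ⬝ᵥ g‖ₑ ^ s)
    ((continuous_const.dotProduct continuous_id).measurable.enorm.pow_const s)).trans
      (nN_cast _ h.r _ s a)

theorem Dat.Re.Dd {δ' : Type} [Fintype δ'] [DecidableEq δ'] {d' : Dat δ' K ν M} {d : Dat δ K ν M}
    (h : d.Re d') (b : Pt d'.B.O) : d'.Dd b = d.Dd (h.ρ b) ∧
      ∀ a, d'.Nn b a = d.Nn (h.ρ b) fun i => a (i.cast h.r.symm) :=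
  ⟨by rw [Dat.Dd, Dat.Dd, h.nD, h.m], fun a => by rw [Dat.Nn, Dat.Nn, h.nN, h.m]⟩

end Pool.Agent.Lib.MP_5c318e_ag
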