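import Pool.Agent.Lib.MP_5c318e_ag.D.Ex
import Pool.Agent.Lib.MP_5c318e_ag.D.ReD

/-! Change of the base chart of a set-up. -/

set_option autoImplicit false

namespace Pool.Agent.Lib.MP_5c318e_ag

open MeasureTheory Set Filter Topology Matrix

variable {δ ν K M : Type} [Fintype δ] [DecidableEq δ] [Fintype ν] [DecidableEq ν]
  [Field K] [Algebra ℂ K] [Field M] [Algebra ℂ M] [Algebra K M] [IsScalarTower ℂ K M]

theorem Dat.shrink {δ' : Type} [Fintype δ'] [DecidableEq δ'] (d : Dat δ K ν M) {y : δ' → K}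
    (hy : IsTranscendenceBasis ℂ y) (s : Finset K) :
    ∃ d' : Dat δ' K ν M, d.Re d' ∧ (∀ i, (d'.B.z i : K) = y i) ∧
      ∀ a ∈ s, a ∈ d'.B.O ∧ a⁻¹ ∈ d'.B.O := by
  obtain ⟨B, T, hz, -, -, S⟩ := d.T.shrink hy ∅ ∅
  obtain ⟨e⟩ := exists_equiv_of_basis d.B.basis B.basis
  obtain ⟨hJ, hη⟩ := Plu.change d.B.dual B.dual e d.plu
  have h0 : (d.η : K) ≠ 0 := fun h => d.unit.ne_zero (Subtype.ext h)
  obtain ⟨d', h, L, h1, h2, h3, ⟨h4, h5⟩, h6⟩ := Dat.of_fam d.hK d.hM d.ac T d.hm d.hk d.hr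
    (τ := fun i => Subalgebra.inclusion S.leX (d.τ i)) (Rel.dx_eq_of_x S.x_eq ▸ d.span) d.ind
    (div_ne_zero h0 (pow_ne_zero _ hJ)) hη s
  refine ⟨d', ⟨L.sub.trans S, h1, h2, h4, h5, e, ?_⟩, fun i => (L.z i).trans (hz i), h6⟩
  simp only [L.z, h3, div_mul_cancel₀ _ (pow_ne_zero _ hJ)]

end Pool.Agent.Lib.MP_5c318e_ag
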