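import Mathlib
/-! Two facts on iterated integer orders. -/
set_option autoImplicit false
namespace Pool.Agent.Lib.MP_5c318e_ag
open Filter Topology

theorem iter_nonneg {t b : ℝ} (ht : 0 ≤ t) (hb : 0 ≤ b) {P : ℕ → ℤ → Prop} (h0 : P 0 0)
    (hs : ∀ n (a a' : ℤ), P n a → (a' : ℝ) ≤ t * a + b → P (n + 1) a') (n : ℕ) : P n 0 := by
  have _ := ht
  induction n with
  | zero => exact h0
  | succ n ih => exact hs n 0 0 ih (by simpa using hb)

theorem iter_lim {t b : ℝ} (ht : 0 ≤ t) (ht1 : t < 1) {P : ℕ → ℤ → Prop} {a0 : ℤ} (h0 : P 0 a0)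
    (hs : ∀ n (a a' : ℤ), P n a → (a' : ℝ) ≤ t * a + b → P (n + 1) a') {a : ℤ}
    (ha : (a : ℝ) ≤ (b - 1) / (1 - t) - 1) : ∀ᶠ n in atTop, P n a := by
  set L : ℝ := (b - 1) / (1 - t) with hL
  have h1 : 0 < 1 - t := by linarith
  have hL' : L * (1 - t) = b - 1 := by rw [hL]; field_simp
  have key : ∀ n : ℕ, ∃ s : ℤ, P n s ∧ L + t ^ n * (a0 - L) ≤ s := by
    intro n
    induction n with
    | zero => exact ⟨a0, h0, by simp⟩
    | succ n ih =>
      obtain ⟨s, hP, hs'⟩ := ih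
      refine ⟨⌊t * s + b⌋, hs n s _ hP (Int.floor_le _), ?_⟩
      have h2 := Int.sub_one_lt_floor (t * s + b)
      have h3 : t * (L + t ^ n * (a0 - L)) ≤ t * s := mul_le_mul_of_nonneg_left hs' ht
      have h4 : L + t ^ (n + 1) * (a0 - L) = t * (L + t ^ n * (a0 - L)) + (b - 1) := by
        rw [← hL']; ring
      linarith
  have hlim : Tendsto (fun n : ℕ => t * (t ^ n * (a0 - L))) atTop (𝓝 0) := by
    have := ((tendsto_pow_atTop_nhds_zero_of_lt_one ht ht1).mul_const ((a0 : ℝ) - L)).const_mul t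
    simpa using this
  have hev : ∀ᶠ n : ℕ in atTop, -2 < t * (t ^ n * (a0 - L)) :=
    hlim.eventually (lt_mem_nhds (by norm_num))
  obtain ⟨N, hN⟩ := eventually_atTop.1 hev
  refine eventually_atTop.2 ⟨N + 1, fun n hn => ?_⟩
  obtain ⟨k, rfl⟩ : ∃ k, n = k + 1 := ⟨n - 1, by omega⟩
  obtain ⟨s, hP, hs'⟩ := key k
  refine hs k s a hP ?_
  have h3 : t * (L + t ^ k * (a0 - L)) ≤ t * s := mul_le_mul_of_nonneg_left hs' ht
  have h5 := hN k (by omega)
  have h6 : t * (L + t ^ k * (a0 - L)) = t * L + t * (t ^ k * (a0 - L)) := by ring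
  have h7 : t * L + b = L + 1 := by linarith
  linarith

end Pool.Agent.Lib.MP_5c318e_ag
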