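import Pool.Agent.Lib.MP_5c318e_ag.S.ODefs
import Pool.Agent.Lib.MP_5c318e_ag.S.OAt
import Pool.Agent.Lib.MP_5c318e_ag.W.Spread

/-! From growth along transversal discs to orders at a vertical prime divisor. -/

set_option autoImplicit false

namespace Pool.Agent.Lib.MP_5c318e_ag

open MeasureTheory Set Filter Topology Metric

theorem exp_le_of_ev {c A α β : ℝ} (hc : 0 < c)
    (h : ∀ᶠ u in 𝓝[≠] (0 : ℂ), c * ‖u‖ ^ α ≤ A * ‖u‖ ^ β) : β ≤ α := by
  by_contra hn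
  have h1 : 0 < β - α := by linarith [not_le.1 hn]
  have h2 : Tendsto (fun u : ℂ => A * ‖u‖ ^ (β - α)) (𝓝[≠] 0) (𝓝 (A * ‖(0 : ℂ)‖ ^ (β - α))) :=
    ((continuous_const.mul (continuous_norm.rpow_const fun _ => Or.inr h1.le)).tendsto 0).mono_left
      nhdsWithin_le_nhds
  rw [norm_zero, Real.zero_rpow h1.ne', mul_zero] at h2
  obtain ⟨u, ⟨a, b⟩, h0⟩ :=
    ((h.and (h2.eventually (gt_mem_nhds hc))).and self_mem_nhdsWithin).exists
  have hu : 0 < ‖u‖ := norm_pos_iff.2 h0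
  rw [Real.rpow_sub hu, ← mul_div_assoc, div_lt_iff₀ (Real.rpow_pos_of_pos hu _)] at b
  linarith

variable {δ ν K M : Type} [Fintype δ] [DecidableEq δ] [Fintype ν] [DecidableEq ν]
  [Field K] [Algebra ℂ K] [Field M] [Algebra ℂ M] [Algebra K M] [IsScalarTower ℂ K M] {B : Cht δ K}
  {C : Cht δ K} {v : ValuationSubring K} {i0 : δ}

/-- an element of order `a` is `z ^ a` times a unit of the chart off a hypersurface -/
theorem Cht.At.ev_ord (hC : C.At v i0) {g : K} {a : ℤ}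
    (hg : v.valuation g = v.valuation (C.z i0 : K) ^ a) : ∃ e : C.O, ¬ C.z i0 ∣ e ∧
      ∀ c : Pt C.O, c e ≠ 0 → ∃ κ : ℝ, 0 < κ ∧ ∀ᶠ q in 𝓝 c, q (C.z i0) ≠ 0 →
        κ * ‖q (C.z i0)‖ ^ a ≤ ‖q.ev g‖ := by
  have h0 : (C.z i0 : K) ^ a ≠ 0 := zpow_ne_zero a hC.ad.ne
  have h1 : v.valuation (g / (C.z i0 : K) ^ a) = 1 := by
    rw [map_div₀, map_zpow₀, hg, div_self (zpow_ne_zero a ((Valuation.ne_zero_iff _).2 hC.ad.ne))]
  obtain ⟨p, q, hq, e⟩ := hC.loc _ ((v.valuation_le_one_iff _).1 h1.le)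
  have hp : v.valuation (p : K) = 1 := by rw [← e, map_mul, h1, hq, one_mul]
  refine ⟨p * q, hC.not_dvd_mul (hC.not_dvd_iff.2 hp) (hC.not_dvd_iff.2 hq), fun c hc => ?_⟩
  rw [map_mul] at hc
  have hr : c.Reg (g / (C.z i0 : K) ^ a) := ⟨p, q, right_ne_zero_of_mul hc, e⟩
  have hv : 0 < ‖c.ev (g / (C.z i0 : K) ^ a)‖ := by
    rw [c.ev_eq (right_ne_zero_of_mul hc) e]
    exact norm_pos_iff.2 (div_ne_zero (left_ne_zero_of_mul hc) (right_ne_zero_of_mul hc))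
  refine ⟨_, half_pos hv, ?_⟩
  filter_upwards [hr.eventually, hr.continuousAt.norm.eventually (lt_mem_nhds (half_lt_self hv))]
    with x x1 x2 x3
  obtain ⟨y1, y2⟩ := x.ev_zpow (x.reg_coe (C.z i0)) (by rwa [x.ev_coe]) a
  have y3 := (x.ev_mul x1 y1).2
  rw [div_mul_cancel₀ _ h0, y2, x.ev_coe] at y3
  rw [y3, norm_mul, norm_zpow]
  exact mul_le_mul_of_nonneg_right x2.le (zpow_nonneg (norm_nonneg _) _)

variable {T : Rel B ν M} {O : ValuationSubring M} {τ : Tr C.O B.O} {c0 : Pt C.O}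

omit [IsScalarTower ℂ K M] in
/-- comparison of exponents in an `O`-chart -/
theorem OCh.ord_le (Ω : OCh T O C i0 τ c0) (hC : C.At v i0) {Dn : Pt B.O → ℝ} {κ c : ℝ}
    {y1 : δ → ℂ} (hy : y1 ∈ ball (C.D.π c0) Ω.r) (hy0 : y1 i0 = 0) (hc : 0 < c)
    (hl : ∀ᶠ y in 𝓝 y1, y i0 ≠ 0 → c * ‖y i0‖ ^ κ ≤ Dn (Ω.β y)) {g : K} {a : ℤ}
    (hg : v.valuation g = v.valuation (C.z i0 : K) ^ a) {e : C.O} (he : ¬ C.z i0 ∣ e) {t n : ℝ}
    (ht : 0 ≤ t) (H : ∀ c : Pt C.O, c (C.z i0) = 0 → c e ≠ 0 → ∀ ε : ℝ, 0 < ε → ∃ A : ℝ,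
      ∀ᶠ s in 𝓝[≠] (0 : ℂ), ‖(C.D.sec c (C.D.π c + Pi.single i0 s)).ev g‖ ^ 2 *
        Dn (τ.map (C.D.sec c (C.D.π c + Pi.single i0 s))) ^ t ≤ A * ‖s‖ ^ (2 * n - ε)) :
    2 * Ω.μ * n ≤ 2 * Ω.μ * a + κ * t := by
  obtain ⟨e', he', h1⟩ := hC.ev_ord hg
  obtain ⟨G, hG, h2⟩ := hC.exists_poly (hC.not_dvd_mul he he')
  let j : ({i // i ≠ i0} → ℂ) → δ → ℂ := fun w i => if h : i = i0 then 0 else w ⟨i, h⟩
  have j1 : Continuous j := continuous_pi fun i => by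
    by_cases h : i = i0
    · simp only [j, dif_pos h]; exact continuous_const
    · simp only [j, dif_neg h]; exact continuous_apply _
  have j2 : j (fun i => y1 i.1) = y1 := funext fun i => by
    by_cases h : i = i0
    · simp only [j, dif_pos h]; rw [h, hy0]
    · simp only [j, dif_neg h]
  have j3 : Tendsto j (𝓝 fun i => y1 i.1) (𝓝 y1) := j1.tendsto' _ _ j2
  obtain ⟨w, w1, w2, w3⟩ := ((mem_closure_iff_frequently.1
    (Measure.dense_of_ae (W.ae_eval_ne_zero hG) fun i => y1 i.1)).and_eventually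
    ((j3.eventually hl.eventually_nhds).and (j3.eventually (isOpen_ball.mem_nhds hy)))).exists
  have w4 := Ω.tgt w3
  have w5 : j w i0 = 0 := dif_pos rfl
  have p1 : C.D.π (C.D.sec c0 (j w)) = j w := RD.π_sec w4
  have p2 : (C.D.sec c0 (j w)) (C.z i0) = 0 := by rw [← C.π_eq, p1, w5]
  have p3 := h2 _ p2 (by
    rw [p1, show (fun i : {i // i ≠ i0} => j w i.1) = w from funext fun i => dif_neg i.2]
    exact w1)
  rw [map_mul] at p3
  obtain ⟨k, hk, p4⟩ := h1 _ (right_ne_zero_of_mul p3)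
  have hμ : (0 : ℝ) < Ω.μ := Nat.cast_pos.2 Ω.pos
  have l1 : ∀ f : ℂ → ℂ, Continuous f → f 0 = 0 →
      Tendsto (fun u => j w + Pi.single i0 (f u)) (𝓝[≠] 0) (𝓝 (j w)) := fun f hf h0 =>
    ((continuous_const.add ((continuous_single (A := fun _ : δ => ℂ) i0).comp hf)).tendsto' 0 _
      (show j w + Pi.single i0 (f 0) = j w by rw [h0, Pi.single_zero, add_zero])).mono_left
      nhdsWithin_le_nhds
  have l2 := l1 (fun u => u ^ Ω.μ) (continuous_pow _) (zero_pow Ω.pos.ne')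
  have l3 : Tendsto (fun u : ℂ => u ^ Ω.μ) (𝓝[≠] 0) (𝓝[≠] 0) :=
    tendsto_nhdsWithin_iff.2 ⟨((continuous_pow _).tendsto' 0 0 (zero_pow Ω.pos.ne')).mono_left
      nhdsWithin_le_nhds, eventually_mem_nhdsWithin.mono fun u hu => pow_ne_zero _ hu⟩
  refine le_of_forall_pos_le_add fun ε hε => ?_
  obtain ⟨A, hA⟩ := H _ p2 (left_ne_zero_of_mul p3) (ε / Ω.μ) (div_pos hε hμ)
  rw [p1] at hA
  have key : ∀ᶠ u in 𝓝[≠] (0 : ℂ), k ^ 2 * c ^ t * ‖u‖ ^ (2 * Ω.μ * a + κ * t : ℝ) ≤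
      A * ‖u‖ ^ (2 * Ω.μ * n - ε) := by
    filter_upwards [l3.eventually hA, l2.eventually (RD.germ w4), l2.eventually (RD.tgt_nhds w4),
      ((RD.sec_contAt w4).tendsto.comp l2).eventually p4, (l1 id continuous_id rfl).eventually w2,
      self_mem_nhdsWithin] with u u1 u2 u3 u4 u5 u6
    have u7 : 0 < ‖u‖ := norm_pos_iff.2 u6
    have e1 : ∀ s : ℂ, (j w + Pi.single i0 s : δ → ℂ) i0 = s := fun s => by simp [w5]
    have e2 : pw i0 Ω.μ (j w + Pi.single i0 u) = j w + Pi.single i0 (u ^ Ω.μ) := by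
      ext i
      by_cases h : i = i0
      · rw [h, pw, Function.update_self, e1, e1]
      · simp [pw, h]
    rw [← u2] at u1
    rw [Function.comp_apply, ← C.π_eq, RD.π_sec u3, e1] at u4
    rw [id, e1, OCh.β, e2] at u5
    have f1 := u4 (pow_ne_zero _ u6)
    have f2 := Real.rpow_le_rpow (by positivity) (u5 u6) ht
    have f3 := (mul_le_mul (pow_le_pow_left₀ (by positivity) f1 2) f2 (by positivity)
      (by positivity)).trans u1
    refine (le_of_eq ?_).trans (f3.trans (le_of_eq ?_))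
    · rw [Real.mul_rpow hc.le (by positivity), ← Real.rpow_mul u7.le, Real.rpow_add u7, mul_pow,
        norm_pow, ← Real.rpow_natCast ‖u‖, ← Real.rpow_intCast, ← Real.rpow_mul u7.le,
        ← Real.rpow_natCast (‖u‖ ^ _), ← Real.rpow_mul u7.le]
      push_cast
      rw [show (2 * Ω.μ * a : ℝ) = Ω.μ * a * 2 by ring]
      ring
    · rw [norm_pow, ← Real.rpow_natCast ‖u‖, ← Real.rpow_mul u7.le]
      congr 2
      field_simp
  linarith [exp_le_of_ev (by positivity) key]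

end Pool.Agent.Lib.MP_5c318e_ag
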