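import Pool.Agent.Lib.MP_5c318e_ag.D.ExA
import Pool.Agent.Lib.MP_5c318e_ag.Z.DDefs
import Pool.Agent.Lib.MP_5c318e_ag.S.Up
import Pool.Agent.Lib.MP_5c318e_ag.S.Wr
import Pool.Agent.Lib.MP_5c318e_ag.S.AFrm
import Pool.Agent.Lib.MP_5c318e_ag.S.AFin
import Pool.Agent.Lib.MP_5c318e_ag.F2.Main

/-! Existence of the set-up. -/

set_option autoImplicit false

namespace Pool.Agent.Lib.MP_5c318e_ag

open MeasureTheory Set Filter Topology Matrix
open scoped ENNReal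

variable {δ ν K M : Type} [Fintype δ] [DecidableEq δ] [Fintype ν] [DecidableEq ν]
  [Field K] [Algebra ℂ K] [Field M] [Algebra ℂ M] [Algebra K M] [IsScalarTower ℂ K M]

/-- a family becomes a set-up after one function on the base is inverted -/
theorem Dat.of_fam (hK : SmoothModel ℂ K) (hM : SmoothModel K M)
    (hc : ∀ x : M, IsAlgebraic K x → x ∈ range (algebraMap K M)) {B : Cht δ K} (T : Fam B ν M)
    {m k r : ℕ} (hm : 3 ≤ m) (hk : 0 < k) (hr : 0 < r) {τ : Fin r → T.X.O}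
    (hs : ∀ φ, Plu T.dx m φ ↔ φ ∈ Submodule.span K (range fun i => (τ i : M)))
    (hi : LinearIndependent K fun i => (τ i : M)) {η : K} (h0 : η ≠ 0) (hη : Plu B.der k η)
    (s : Finset K) :
    ∃ (d : Dat δ K ν M) (h : B.O), d.T.toRel.Loc T.toRel h ∧ d.m = m ∧ d.k = k ∧ (d.η : K) = η ∧
      (∃ e : d.r = r, ∀ i, (d.τ i : M) = τ (i.cast e)) ∧ ∀ a ∈ s, a ∈ d.B.O ∧ a⁻¹ ∈ d.B.O := by
  classical
  have : CharZero K := charZero_of_injective_algebraMap (algebraMap ℂ K).injective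
  have hm0 : 0 < m := by omega
  obtain ⟨Fr⟩ := hM.frames T.dual
  obtain ⟨FK⟩ := hK.frames B.dual
  have hP : ∀ i, Plu T.dx m (τ i : M) := fun i => (hs _).2 (Submodule.subset_span ⟨i, rfl⟩)
  obtain ⟨E, hE⟩ := Plu.zero_add_smul (d := B.der) k hk
  have := FK.finite B.dual B.fg k E fun φ hφ => (hE φ).1 hφ
  obtain ⟨s1, hs1⟩ := (Submodule.fg_iff_finiteDimensional E).2 this
  obtain ⟨P1, g1, H1⟩ := (T.up_B Fr hm0 hP).md (ι' := δ)
  obtain ⟨c, hc1, g2'⟩ := T.low hc hi (s := 2 / m) (by positivity)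
  obtain ⟨P2, g2, H2⟩ := hc1.md (ι' := δ)
  obtain ⟨c0, hc0, C, hC, hL⟩ := T.lct Fr hc hm0 hi hP
  obtain ⟨P3, g3, H3⟩ := hC.md (ι' := δ)
  have g4 : ∀ᶠ b in B.D.gen, ∀ a ∈ insert η (s ∪ s1), b.Reg a ∧ b.Reg a⁻¹ :=
    (eventually_all_finset _).2 fun a _ => (B.gen_reg a).and (B.gen_reg a⁻¹)
  obtain ⟨g, B', T', L, hb, hΔ⟩ := T.exists_loc_gen
    (g1.and (g2.and (g2'.and (g3.and (g4.and (T.gen_Δ.and (T.indep hc hi)))))))
  have hmem : ∀ a ∈ insert η (s ∪ s1), a ∈ B'.O ∧ a⁻¹ ∈ B'.O := fun a ha =>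
    ⟨Pt.mem_of_reg fun b => (L.base.same b _).1.2 ((hb b).2.2.2.2.1 a ha).1,
      Pt.mem_of_reg fun b => (L.base.same b _).1.2 ((hb b).2.2.2.2.1 a ha).2⟩
  have hη' := hmem η (Finset.mem_insert_self _ _)
  have e1 : T'.dx = T.dx := Rel.dx_eq_of_x L.x
  have e2 : B'.der = B.der := B.der_eq B' L.z
  obtain ⟨v1, a1, b1⟩ := H1 B' L.base.j fun b => (hb b).1
  obtain ⟨v2, a2, b2⟩ := H2 B' L.base.j fun b => (hb b).2.1
  obtain ⟨v3, a3, b3⟩ := H3 B' L.base.j fun b => (hb b).2.2.2.1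
  refine ⟨{ hK := hK, hM := hM, B := B', T := T', m := m, hm := hm, r := r, hr := hr
            τ := fun i => L.top.j (τ i), span := e1 ▸ hs, ind := hi, k := k, hk := hk
            η := ⟨η, hη'.1⟩, unit := isUnit_of_inv_mem (fun e => h0 (congrArg Subtype.val e)) hη'.2
            plu := e2 ▸ hη, cov := fun b => ?_, indF := fun b U hU hne a ha => ?_
            up := ⟨v1, a1, fun b => le_trans (le_of_eq ?_) (b1 b)⟩
            low := ⟨v2, a2, fun b a => le_trans ((hb b).2.2.1 a) (mul_le_mul' (b2 b) (le_of_eq ?_))⟩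
            lct := ⟨c0, hc0, fun t t0 t1 Q hQ => ?_⟩, fin := ?_, ac := hc
            mem := fun η1 h1 => ?_ }, _, L, rfl, rfl, rfl, ⟨rfl, fun _ => rfl⟩,
    fun a ha => hmem a (Finset.mem_insert_of_mem (Finset.mem_union_left _ ha))⟩
  · rw [hΔ, MvPolynomial.map_map]
    exact (hb b).2.2.2.2.2.1
  · refine (hb b).2.2.2.2.2.2 (L.e b '' U) ((L.e b).isOpenMap U hU) (hne.image _) a ?_
    rintro _ ⟨q, hq, rfl⟩
    exact ha q hq
  · exact L.lint b fun p => ‖fun i => p.1 (τ i)‖ₑ ^ (2 / m : ℝ)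
  · exact (L.lint b fun p => ‖a ⬝ᵥ fun i => p.1 (τ i)‖ₑ ^ (2 / m : ℝ)).symm
  · obtain ⟨A, hA⟩ := a3.bdd hQ
    refine ⟨ENNReal.ofReal A, ENNReal.ofReal_ne_top, fun b hb' a ha => ?_⟩
    refine le_trans (le_of_eq (L.lint b fun p => ‖fun i => p.1 (τ i)‖ₑ ^ (2 / m + t : ℝ) *
      ‖a ⬝ᵥ fun i => p.1 (τ i)‖ₑ ^ (-t))) ((hL _ t t0 t1 a ha).trans ?_)
    exact mul_le_mul_left ((b3 b).trans (ENNReal.ofReal_le_ofReal (hA b hb'))) _
  · obtain ⟨F'⟩ := hK.frames B'.dual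
    refine lt_of_eq_of_lt (lintegral_congr fun b => ?_) (B'.front F' hk (e2 ▸ hη))
    rw [b.ev_of_mem hη'.1, ← ENNReal.ofReal_rpow_of_nonneg (norm_nonneg _) (by positivity),
      ofReal_norm]
  · have h2 : η1 ∈ Submodule.span ℂ (s1 : Set K) := hs1 ▸ (hE η1).2 (e2 ▸ h1)
    exact Submodule.span_le (p := B'.O.toSubmodule).2 (fun a ha =>
      (hmem a (Finset.mem_insert_of_mem (Finset.mem_union_right _ ha))).1) h2

theorem Dat.exists (hK : SmoothModel ℂ K) (hM : SmoothModel K M)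
    (hc : ∀ x : M, IsAlgebraic K x → x ∈ range (algebraMap K M))
    {y : δ → K} {dK : δ → Derivation ℂ K K} (hy : Dual ℂ y dK)
    {x : ν → M} {dx : ν → Derivation K M M} (hx : Dual K x dx) {m k r : ℕ} (hm : 3 ≤ m) (hk : 0 < k)
    (hr : 0 < r) {t : Fin r → M} (hs : ∀ φ, Plu dx m φ ↔ φ ∈ Submodule.span K (range t))
    (hi : LinearIndependent K t) {η : K} (h0 : η ≠ 0) (hη : Plu dK k η) (s : Finset K) :
    ∃ d : Dat δ K ν M, (∀ i, (d.B.z i : K) = y i) ∧ (∀ i, d.T.x i = x i) ∧ d.m = m ∧ d.k = k ∧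
      (d.η : K) = η ∧ (∃ e : d.r = r, ∀ i, (d.τ i : M) = t (i.cast e)) ∧
      ∀ a ∈ s, a ∈ d.B.O ∧ a⁻¹ ∈ d.B.O := by
  classical
  have : CharZero K := charZero_of_injective_algebraMap (algebraMap ℂ K).injective
  obtain ⟨B, hz, -, hF⟩ := exists_base hK.fg hy.basis ∅
  obtain ⟨T, hT, ht⟩ := exists_fam hM.fg B hF hx.basis (Finset.univ.image t)
  obtain rfl : T.dx = dx := Dual.uniq (funext hT ▸ T.dual) hx
  obtain rfl : B.der = dK := Dual.uniq (funext hz ▸ B.dual) hy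
  obtain ⟨d, h, L, H⟩ := Dat.of_fam hK hM hc T hm hk hr
    (τ := fun i => ⟨t i, ht _ (Finset.mem_image_of_mem _ (Finset.mem_univ i))⟩) hs hi h0 hη s
  exact ⟨d, fun i => (L.z i).trans (hz i), fun i => (congrFun L.x i).trans (hT i), H⟩

end Pool.Agent.Lib.MP_5c318e_ag
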