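import Pool.Agent.Lib.MP_5c318e_ag.S.Loc
import Pool.Agent.Lib.MP_5c318e_ag.S.Low
import Pool.Agent.Lib.MP_5c318e_ag.C.Siz

/-! Moderate bounds on smaller charts, integrals over fibre powers, change of frame. -/

set_option autoImplicit false
set_option linter.unusedSectionVars false

namespace Pool.Agent.Lib.MP_5c318e_ag

open MeasureTheory Set Filter Topology

noncomputable section

section cht

variable {ι ι' F : Type} [Fintype ι] [DecidableEq ι] [Fintype ι'] [DecidableEq ι'] [Field F]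
  [Algebra ℂ F]

theorem Pt.mem_of_reg {A : Subalgebra ℂ F} [Algebra.FiniteType ℂ A] {φ : F}
    (H : ∀ p : Pt A, p.Reg φ) : φ ∈ A := by
  obtain ⟨k, a, e⟩ := Pt.mem_locAway (h := (1 : A)) fun p _ => H p
  rw [one_pow, OneMemClass.coe_one, mul_one] at e
  exact e ▸ a.2

theorem Md.bdd {c : Cht ι F} {u : Pt c.O → ℝ} (h : Md c.siz u) {Q : Set (Pt c.O)}
    (hQ : IsCompact Q) : ∃ C : ℝ, ∀ p ∈ Q, u p ≤ C := by
  obtain ⟨K, hK, h⟩ := h
  obtain ⟨C, hC⟩ := hQ.bddAbove_image c.psh.1.cont.continuousOn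
  exact ⟨Real.exp (K * C + K), fun p hp => (h p).trans (Real.exp_le_exp.2 (by
    linarith [mul_le_mul_of_nonneg_left (hC ⟨p, hp, rfl⟩) hK]))⟩

/-- moderate functions stay moderate on smaller charts -/
theorem Md.res {c : Cht ι F} {c' : Cht ι' F} (j : c.O →ₐ[ℂ] c'.O) {u : Pt c.O → ℝ}
    (h : Md c.siz u) : Md c'.siz fun p => u (p.res j) := by
  obtain ⟨K, hK, h⟩ := h
  obtain ⟨L, hL, h'⟩ := (Md.add c'.siz_nonneg (Md.sum c'.siz_nonneg c.gens fun a _ =>
    (c'.md (j a)).pow c'.siz_nonneg (fun _ => norm_nonneg _) 2)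
    (Md.const c'.siz_nonneg 1)).log_le fun p => by positivity
  refine ⟨K * L + K, by positivity, fun p => (h _).trans (Real.exp_le_exp.2 ?_)⟩
  have h1 : c.siz (p.res j) ≤ L * c'.siz p + L := h' p
  nlinarith [mul_le_mul_of_nonneg_left h1 hK, mul_nonneg hK (c'.siz_nonneg p)]

/-- moderate growth off a hypersurface is moderate growth on a chart that avoids it -/
theorem RD.Mod.md {c : Cht ι F} {u : Pt c.O → ENNReal} (h : c.D.Mod u) :
    ∃ P : Pt c.O → Prop, (∀ᶠ p in c.D.gen, P p) ∧ ∀ (c' : Cht ι' F) (j : c.O →ₐ[ℂ] c'.O),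
      (∀ p : Pt c'.O, P (p.res j)) →
        ∃ v : Pt c'.O → ℝ, Md c'.siz v ∧ ∀ p, u (p.res j) ≤ ENNReal.ofReal (v p) := by
  obtain ⟨g, hg, A, N, H⟩ := h
  refine ⟨_, ⟨g, hg, fun _ hp => hp⟩, fun c' j hP => ⟨_, ?_, fun p => H _ (hP p)⟩⟩
  have s0 := c'.siz_nonneg
  have hu : IsUnit (j (MvPolynomial.aeval c.z g)) :=
    Pt.isUnit_of_ne fun p => (c.apply_aeval (p.res j) g).trans_ne (hP p)
  obtain ⟨w, hw⟩ := hu.exists_right_inv
  have h1 : Md c'.siz fun p => 1 + ‖c.D.π (p.res j)‖ :=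
    Md.add s0 (Md.const s0 1) ((Md.sum s0 Finset.univ fun i _ => c'.md (j (c.z i))).mono fun p =>
      (pi_norm_le_iff_of_nonneg (by positivity)).2 fun i => by
        rw [c.π_eq]
        exact Finset.single_le_sum (f := fun i => ‖p (j (c.z i))‖) (fun _ _ => norm_nonneg _)
          (Finset.mem_univ i))
  refine (Md.const s0 A).mul ((Md.add s0 ((h1.mul (c'.md w) fun _ => norm_nonneg _).mono
    fun p => le_of_eq ?_) h1).pow s0 (fun p => by positivity) N) fun p => by positivity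
  have e := congrArg p hw
  rw [map_mul, map_one] at e
  rw [← c.apply_aeval, div_eq_mul_inv, ← norm_inv, eq_inv_of_mul_eq_one_right e]
  rfl

theorem Dual.reindex {k : Type} [Field k] [Algebra k F] {z : ι → F} {d : ι → Derivation k F F}
    (h : Dual k z d) (e : ι' ≃ ι) : Dual k (fun i => z (e i)) fun i => d (e i) :=
  ⟨(isTranscendenceBasis_equiv e).2 h.basis, fun i j => by simp only [h.dual, e.apply_eq_iff_eq]⟩

/-- change of frame for regular forms -/
theorem Plu.change {k : Type} [Field k] [CharZero k] [Algebra k F] {z : ι → F}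
    {d : ι → Derivation k F F} {y : ι' → F} {d' : ι' → Derivation k F F} (h : Dual k z d)
    (h' : Dual k y d') (e : ι' ≃ ι) {m : ℕ} {φ : F} (hφ : Plu d m φ) :
    (Jac d fun i => y (e.symm i)) ≠ 0 ∧ Plu d' m (φ / (Jac d fun i => y (e.symm i)) ^ m) := by
  have h0 := h.isFr.jac_ne (h'.reindex e.symm).basis.1
  refine ⟨h0, fun O hO => ?_⟩
  obtain ⟨f, hf, u, hu, rfl⟩ := hφ O hO
  refine ⟨fun j => f (e j), fun j => hf _, u, hu, ?_⟩
  have h1 := jac_equiv d' (fun j => f (e j)) e.symm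
  simp only [Equiv.apply_symm_apply] at h1
  rw [(h'.reindex e.symm).jac_chain d f, h1, mul_pow, mul_left_comm,
    mul_div_cancel_left₀ _ (pow_ne_zero m h0)]

theorem exists_equiv_of_basis {k : Type} [Field k] [Algebra k F] {z : ι → F} {y : ι' → F}
    (hz : IsTranscendenceBasis k z) (hy : IsTranscendenceBasis k y) : Nonempty (ι' ≃ ι) :=
  Cardinal.eq.1 (hy.cardinalMk_eq_trdeg.trans hz.cardinalMk_eq_trdeg.symm)

end cht

variable {δ δ' ν K M : Type} [Fintype δ] [DecidableEq δ] [Fintype δ'] [DecidableEq δ']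
  [Fintype ν] [DecidableEq ν]
  [Field K] [Algebra ℂ K] [Field M] [Algebra ℂ M] [Algebra K M] [IsScalarTower ℂ K M]

theorem Rel.Loc.lint {B B' : Cht δ K} {T' : Rel B' ν M} {T : Rel B ν M} {h : B.O} (L : T'.Loc T h)
    (b : Pt B'.O) (G : T.Fib (b.res L.base.j) → ENNReal) :
    ∫⁻ q, G (L.e b q) ∂(T'.fib b).μ = ∫⁻ p, G p ∂(T.fib (b.res L.base.j)).μ :=
  (L.mp b).lintegral_comp_emb (L.e b).measurableEmbedding G

variable {B : Cht δ K} {B' : Cht δ' K}

theorem Rel.measurable_ev (T : Rel B ν M) (b : Pt B.O) : Measurable fun p : T.Fib b => p.1.ev :=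
  Pt.measurable_ev'.comp measurable_subtype_coe

theorem Fam.sigmaFinite_ev (T : Fam B ν M) (b : Pt B.O) :
    SigmaFinite ((T.fib b).μ.map fun p => p.1.ev) := by
  by_cases hb : MvPolynomial.map (b.hom : B.O →+* ℂ) T.finX.Δ = 0
  · have : IsEmpty (T.Fib b) := ⟨fun p => T.finX.Δ_ne p.1 (by rw [p.2, hb, map_zero])⟩
    rw [Measure.eq_zero_of_isEmpty (T.fib b).μ, Measure.map_zero]
    infer_instance
  obtain ⟨C, -⟩ := T.cov b hb
  obtain ⟨v, d, hv, hball⟩ := Front.ball_vol ν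
  refine ⟨⟨⟨fun n : ℕ => Front.disc T.x n, fun _ => trivial, fun n => ?_,
    eq_univ_of_forall fun g => ?_⟩⟩⟩
  · have hA : MeasurableSet {z : ν → ℂ | ∀ j, ‖z j‖ ≤ n} := Front.disc_meas id n
    rw [← lintegral_indicator_one (Front.disc_meas _ _),
      lintegral_map (measurable_one.indicator (Front.disc_meas _ _)) (T.measurable_ev b)]
    refine lt_of_le_of_lt (le_trans (le_of_eq (lintegral_congr fun q =>
      Front.ind_congr (by rw [T.fib_ev]; rfl))) (Front.cov_vol C hA)) ?_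
    rw [hball _ (Nat.cast_nonneg n)]
    exact ENNReal.mul_lt_top (ENNReal.natCast_lt_top _)
      (ENNReal.mul_lt_top (ENNReal.pow_lt_top ENNReal.ofReal_lt_top) hv.lt_top)
  · obtain ⟨n, hn⟩ := exists_nat_ge ‖fun j => g (T.x j)‖
    exact mem_iUnion.2 ⟨n, fun j => (norm_le_pi_norm (fun j => g (T.x j)) j).trans hn⟩

theorem Rel.Sub.map_ev {T' : Rel B' ν M} {T : Rel B ν M} (h : T'.Sub T) (b : Pt B'.O) :
    ((T'.fib b).μ.map fun p => p.1.ev) =
      (T.fib (b.res (Subalgebra.inclusion h.le))).μ.map fun p => p.1.ev :=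
  Measure.ext fun A hA => by
    rw [← lintegral_indicator_one hA, ← lintegral_indicator_one hA,
      lintegral_map (measurable_one.indicator hA) (T'.measurable_ev b),
      lintegral_map (measurable_one.indicator hA) (T.measurable_ev _)]
    exact h.int b _ (measurable_one.indicator hA)

/-- integrals over fibre powers agree -/
theorem Rel.Sub.int_pi {T' : Rel B' ν M} {T : Fam B ν M} (h : T'.Sub T.toRel) (b : Pt B'.O)
    {κ : Type} [Fintype κ] {G : (κ → M → ℂ) → ENNReal} (hG : Measurable G) :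
    ∫⁻ p, G (fun j => (p j).1.ev) ∂(Measure.pi fun _ : κ => (T'.fib b).μ) =
      ∫⁻ p, G (fun j => (p j).1.ev)
        ∂(Measure.pi fun _ : κ => (T.fib (b.res (Subalgebra.inclusion h.le))).μ) := by
  have h1 := T.sigmaFinite_ev (b.res (Subalgebra.inclusion h.le))
  have h2 : SigmaFinite ((T'.fib b).μ.map fun p => p.1.ev) := h.map_ev b ▸ h1
  have m1 : Measurable fun (p : κ → T'.Fib b) j => (p j).1.ev :=
    measurable_pi_lambda _ fun j => (T'.measurable_ev b).comp (measurable_pi_apply j)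
  have m2 : Measurable fun (p : κ → T.Fib (b.res (Subalgebra.inclusion h.le))) j => (p j).1.ev :=
    measurable_pi_lambda _ fun j => (T.measurable_ev _).comp (measurable_pi_apply j)
  rw [← lintegral_map hG m1, ← lintegral_map hG m2,
    Measure.pi_map_pi (f := fun (_ : κ) (p : T'.Fib b) => p.1.ev)
      fun _ => (T'.measurable_ev b).aemeasurable,
    Measure.pi_map_pi (f := fun (_ : κ) (p : T.Fib _) => p.1.ev)
      fun _ => (T.measurable_ev _).aemeasurable, h.map_ev b]

end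

end Pool.Agent.Lib.MP_5c318e_ag
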