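import Pool.Agent.Lib.MP_5c318e_ag.Z.DDefs
import Pool.Agent.Lib.MP_5c318e_ag.P.Flat
import Pool.Agent.Lib.MP_5c318e_ag.P.OfN
import Pool.Agent.Lib.MP_5c318e_ag.P.Reach
import Pool.Agent.Lib.MP_5c318e_ag.P.Slot
import Pool.Agent.Lib.MP_5c318e_ag.C.Siz
import Pool.Agent.Lib.MP_5c318e_ag.S.CCov
import Pool.Agent.Lib.MP_5c318e_ag.Z.NegMom
import Pool.Agent.Lib.MP_5c318e_ag.N.Auer
import Pool.Agent.Lib.MP_5c318e_ag.S.RSub

/-! From parallel frames to horizontal tensors with regular coefficients and uniform bounds on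
tubes. -/

set_option autoImplicit false
set_option linter.unusedSectionVars false

namespace Pool.Agent.Lib.MP_5c318e_ag

open MeasureTheory Set Filter Topology Matrix Fl
open scoped ENNReal

noncomputable section

section cht

variable {ι F : Type} [Fintype ι] [DecidableEq ι] [Field F] [Algebra ℂ F]

theorem mg_contAt (g : MvPolynomial ι ℂ) {z : ι → ℂ} (hz : MvPolynomial.eval z g ≠ 0) :
    ContinuousAt (mg g) z :=
  ((continuousAt_const.add continuous_norm.continuousAt).div (mv_cont g).norm.continuousAt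
    (norm_ne_zero_iff.2 hz)).add (continuousAt_const.add continuous_norm.continuousAt)

theorem Cht.md_mg (c : Cht ι F) (h : Fini (Algebra.ofId ℂ c.O) c.z) {u : Pt c.O → ℝ}
    (hu : Md c.siz u) : ∃ (A : ℝ) (L : ℕ), 0 ≤ A ∧ ∀ p, u p ≤ A * mg h.Δ (c.D.π p) ^ L := by
  obtain ⟨C, -, hΔ, hw⟩ := c.cov h
  obtain ⟨L, hL, h1⟩ := c.siz_ψ h C hΔ hw
  obtain ⟨K, hK, h2⟩ := hu
  set n := ⌈K * L⌉₊
  set a : ℝ := 2 * (Fintype.card ι + 1)
  refine ⟨Real.exp (K * L + K) * (a ^ C.A) ^ n, (2 * C.A + 2) * n, by positivity, fun p => ?_⟩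
  have m1 := one_le_mg h.Δ (c.D.π p)
  have m2 := mg_ge h.Δ (c.D.π p)
  have m3 := inv_le_mg h.Δ (c.D.π p)
  set g := mg h.Δ (c.D.π p)
  have e1 : 2 * Hyp.nsq (c.D.π p) ≤ a * g ^ 2 := by
    have h3 : ∑ i, ‖c.D.π p i‖ ^ 2 ≤ Fintype.card ι * g ^ 2 :=
      (Finset.sum_le_card_nsmul _ _ (g ^ 2) fun i _ => pow_le_pow_left₀ (norm_nonneg _)
        (by linarith [norm_le_pi_norm (c.D.π p) i]) 2).trans (le_of_eq (by simp))
    have h4 : 1 ≤ g ^ 2 := one_le_pow₀ m1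
    unfold Hyp.nsq
    simp only [a]
    linarith
  have e2 : Real.exp (C.ψ p) ≤ a ^ C.A * g ^ (2 * C.A + 2) := by
    rw [C.exp_ψ, hΔ, div_eq_mul_inv, ← inv_pow, pow_add, pow_mul, ← mul_assoc, ← mul_pow]
    have := Hyp.nsq_pos (c.D.π p)
    gcongr
  have e3 : K * c.siz p + K ≤ K * L + K + n * C.ψ p := by
    have := mul_le_mul_of_nonneg_left (h1 p).1 hK
    have := mul_le_mul_of_nonneg_right (Nat.le_ceil (K * L)) (C.ψ_nonneg p)
    linarith
  refine (h2 p).trans ((Real.exp_le_exp.2 e3).trans ?_)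
  rw [Real.exp_add, Real.exp_nat_mul, mul_assoc, pow_mul, ← mul_pow]
  gcongr

end cht

variable {ν K M : Type} [Fintype ν] [DecidableEq ν]
  [Field K] [Algebra ℂ K] [Field M] [Algebra ℂ M] [Algebra K M]

namespace Dat

section gen

variable {δ : Type} [Fintype δ] [DecidableEq δ] (d : Dat δ K ν M)

theorem fl_p : (0 : ℝ) < 2 / d.m := by
  have : (3 : ℝ) ≤ d.m := by exact_mod_cast d.hm
  positivity

theorem fl_meas (b : Pt d.B.O) (i : Fin d.r) : Measurable fun p => d.f b p i :=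
  ((Pt.continuous_apply (d.τ i)).comp continuous_subtype_val).measurable

theorem fl_meas' (b : Pt d.B.O) (A : Matrix (Fin d.r) (Fin d.r) ℂ) (i : Fin d.r) :
    Measurable fun p => (d.f b p ᵥ* A) i := by
  simp only [vecMul, dotProduct]
  exact Finset.measurable_sum _ fun j _ => (d.fl_meas b j).mul_const (A j i)

theorem fl_ne_top (b : Pt d.B.O) (a : Fin d.r → ℂ) : N.nN (d.μ b) (d.f b) (2 / d.m) a ≠ ⊤ := by
  obtain ⟨u, -, h⟩ := d.up
  exact N.nN_ne_top d.fl_p.le (ne_top_of_le_ne_top ENNReal.ofReal_ne_top (h b)) a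

theorem fl_eq {b b' : Pt d.B.O} {a a' : Fin d.r → ℂ} (h : d.Nn b a = d.Nn b' a') :
    N.nN (d.μ b) (d.f b) (2 / d.m) a = N.nN (d.μ b') (d.f b') (2 / d.m) a' :=
  (ENNReal.toReal_eq_toReal_iff' (d.fl_ne_top _ _) (d.fl_ne_top _ _)).1 h

theorem fl_bounds : ∃ (c : ℝ) (L : ℕ), 0 ≤ c ∧ ∀ b a,
    ‖a‖ ^ (2 / d.m : ℝ) ≤ c * mg d.T.finB.Δ (d.B.D.π b) ^ L * d.Nn b a ∧
      d.Nn b a ≤ c * mg d.T.finB.Δ (d.B.D.π b) ^ L * ‖a‖ ^ (2 / d.m : ℝ) := by
  obtain ⟨u, h1, h2⟩ := d.up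
  obtain ⟨v, h3, h4⟩ := d.low
  obtain ⟨A, L, hA, h5⟩ := d.B.md_mg d.T.finB h1
  obtain ⟨A', L', hA', h6⟩ := d.B.md_mg d.T.finB h3
  have hp := d.fl_p
  set k : ℝ := (d.r : ℝ) ^ (2 / d.m : ℝ) with hk
  have k0 : 0 ≤ k := by positivity
  refine ⟨k * A + A', L + L', by positivity, fun b a => ?_⟩
  have m1 := one_le_mg d.T.finB.Δ (d.B.D.π b)
  set g := mg d.T.finB.Δ (d.B.D.π b)
  have g1 : g ^ L ≤ g ^ (L + L') := pow_le_pow_right₀ m1 (by omega)
  have g2 : g ^ L' ≤ g ^ (L + L') := pow_le_pow_right₀ m1 (by omega)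
  have n0 : 0 ≤ d.Nn b a := ENNReal.toReal_nonneg
  constructor
  · have h7 := ENNReal.toReal_mono (ENNReal.mul_ne_top ENNReal.ofReal_ne_top (d.fl_ne_top b a))
      ((h4 b a).trans (mul_le_mul_left (ENNReal.ofReal_le_ofReal (h6 b)) _))
    rw [← ENNReal.toReal_rpow, toReal_enorm, ENNReal.toReal_mul,
      ENNReal.toReal_ofReal (by positivity)] at h7
    refine h7.trans (mul_le_mul_of_nonneg_right ?_ n0)
    exact mul_le_mul (le_add_of_nonneg_left (by positivity)) g2 (by positivity) (by positivity)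
  · have h7 := ENNReal.toReal_mono (ENNReal.mul_ne_top (ENNReal.rpow_ne_top_of_nonneg hp.le
      (ENNReal.mul_ne_top (by simp) enorm_ne_top)) ENNReal.ofReal_ne_top)
      ((N.nN_le hp.le a).trans (mul_le_mul_right ((h2 b).trans
        (ENNReal.ofReal_le_ofReal (h5 b))) _))
    rw [ENNReal.toReal_mul, ← ENNReal.toReal_rpow, ENNReal.toReal_mul, toReal_enorm,
      ENNReal.toReal_ofReal (by positivity), ENNReal.toReal_natCast, Fintype.card_fin,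
      Real.mul_rpow (by positivity) (norm_nonneg _), ← hk] at h7
    refine h7.trans ?_
    calc _ = k * A * g ^ L * ‖a‖ ^ (2 / d.m : ℝ) := by ring
      _ ≤ _ := by gcongr; linarith

variable {κ : Type} [Fintype κ] [DecidableEq κ]

/-- an isometry of the quasi-norms that carries the tensor keeps the slotwise quasi-norm -/
theorem Nx_eq {b b' : Pt d.B.O} {A : Matrix (Fin d.r) (Fin d.r) ℂ}
    (h : ∀ a, d.Nn b' (A *ᵥ a) = d.Nn b a) {U : d.Ten κ}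
    (hU : (fun I => b' (U I)) = tp κ A *ᵥ fun I => b (U I)) : d.Nx U b' = d.Nx U b := by
  have := slot (d.μ b) (d.μ b') (s := fun i p => d.f b p i) (s' := fun i p => d.f b' p i)
    (d.fl_meas b) (d.fl_meas b') (F := fun z => ‖z‖ₑ ^ (2 / d.m : ℝ)) (by fun_prop) A
    (fun a => d.fl_eq (h a)) fun I => b (U I)
  rw [← hU] at this
  exact this

theorem nN_vecMul (b : Pt d.B.O) (A : Matrix (Fin d.r) (Fin d.r) ℂ) (a : Fin d.r → ℂ) :
    N.nN (d.μ b) (fun p => d.f b p ᵥ* A) (2 / d.m) a = N.nN (d.μ b) (d.f b) (2 / d.m) (A *ᵥ a) :=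
  lintegral_congr fun p => by rw [dotProduct_comm, ← dotProduct_mulVec, dotProduct_comm]

theorem lct_iso {b b' : Pt d.B.O} {A : Matrix (Fin d.r) (Fin d.r) ℂ}
    (h : ∀ a, d.Nn b' (A *ᵥ a) = d.Nn b a) {c : ℝ} (hc : 0 < c) (hc' : c ≤ 1 / 4) {C : ℝ≥0∞}
    (H : N.Lct (d.μ b) (d.f b) (2 / d.m) c C) :
    N.Lct (d.μ b') (fun p => d.f b' p ᵥ* A) (2 / d.m) c
      (Fintype.card (Fin d.r) * Z.kk (2 / d.m) c * C) ∧ Z.kk (2 / d.m) c ≠ ⊤ := by
  have h3 : (3 : ℝ) ≤ d.m := by exact_mod_cast d.hm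
  have h1 : (2 / d.m : ℝ) + c < 1 := by
    have : (2 / d.m : ℝ) ≤ 2 / 3 := by gcongr
    linarith
  refine ⟨Z.lct_transfer d.fl_p hc h1 (measurable_pi_iff.2 (d.fl_meas b))
    (measurable_pi_iff.2 fun i => ?_) (fun a => (d.nN_vecMul b' A a).trans (d.fl_eq (h a)))
    (d.fl_ne_top b) H, Z.kk_ne_top d.fl_p hc h1⟩
  exact d.fl_meas' b' A i

theorem tev_le_iso {b : Pt d.B.O} {A : Matrix (Fin d.r) (Fin d.r) ℂ} {U : d.Ten κ}
    {u : (κ → Fin d.r) → ℂ} (hU : (fun I => b (U I)) = tp κ A *ᵥ u) {C : ℝ≥0∞}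
    (hC : ∀ I, ‖u I‖ₑ ≤ C) (p : κ → d.T.Fib b) :
    ‖d.tev U b p‖ₑ ≤ Fintype.card (κ → Fin d.r) * C * ∏ i, ‖d.f b (p i) ᵥ* A‖ₑ := by
  have e : d.tev U b p = tv (fun i q => d.f b q i) (fun I => b (U I)) p := rfl
  rw [e, hU, tv_tp, tv]
  refine (enorm_sum_le _ _).trans ((Finset.sum_le_card_nsmul _ _
    (C * ∏ i, ‖d.f b (p i) ᵥ* A‖ₑ) fun I _ => ?_).trans (le_of_eq (by simp [mul_assoc])))
  rw [enorm_mul, ← ofReal_norm (∏ _, _), norm_prod,
    ENNReal.ofReal_prod_of_nonneg fun _ _ => norm_nonneg _]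
  refine mul_le_mul' (hC I) (Finset.prod_le_prod' fun k _ => ?_)
  rw [ofReal_norm]
  refine le_trans (le_of_eq ?_) (N.enorm_le_pi_enorm (d.f b (p k) ᵥ* A) (I k))
  simp [vecMul, dotProduct, mul_comm]

theorem dt_tv {Ω : Type} {r : ℕ} (τ : Ω → Fin r → ℂ) (x : Fin r → Ω) : N.dt τ x =
    tv (fun i p => τ p i) (fun I : Fin r → Fin r => (of fun k => Pi.single (I k) (1 : ℂ)).det) x := by
  have e : (of fun j => τ (x j)) = of fun j => ∑ i, τ (x j) i • (Pi.single i 1 : Fin r → ℂ) :=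
    congrArg _ (funext fun j => pi_eq_sum_univ' _)
  rw [N.dt, e]
  refine (detRowAlternating.toMultilinearMap.map_sum
    fun j i => τ (x j) i • (Pi.single i 1 : Fin r → ℂ)).trans ?_
  refine Finset.sum_congr rfl fun I _ => ?_
  rw [MultilinearMap.map_smul_univ, smul_eq_mul, mul_comm]
  rfl

/-- the determinant norm along an isometry -/
theorem Dd_iso {b b' : Pt d.B.O} {A : Matrix (Fin d.r) (Fin d.r) ℂ}
    (h : ∀ a, d.Nn b' (A *ᵥ a) = d.Nn b a) : ‖A.det‖ ^ (2 / d.m : ℝ) * d.Dd b' = d.Dd b := by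
  have h1 : N.nD (d.μ b') (fun p => d.f b' p ᵥ* A) (2 / d.m) = N.nD (d.μ b) (d.f b) (2 / d.m) := by
    simp only [N.nD, dt_tv]
    exact slot_fin (d.μ b) (d.μ b') (d.fl_meas b) (d.fl_meas' b' A)
      (F := fun z => ‖z‖ₑ ^ (2 / d.m : ℝ)) (by fun_prop)
      (fun a => (d.nN_vecMul b' A a).trans (d.fl_eq (h a))) _ _
  have h2 := N.nD_fr (ν := d.μ b') (τ := d.f b') d.fl_p.le Aᵀ
  rw [show N.fr Aᵀ (d.f b') = fun p => d.f b' p ᵥ* A from funext fun p => mulVec_transpose _ _,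
    h1, det_transpose] at h2
  rw [Dd, Dd, h2, ENNReal.toReal_mul, ← ENNReal.toReal_rpow, toReal_enorm]

theorem Dd_bounds {Q : Set (Pt d.B.O)} (hQ : IsCompact Q) :
    ∃ X : ℝ, 0 < X ∧ ∀ b ∈ Q, X⁻¹ ≤ d.Dd b ∧ d.Dd b ≤ X := by
  obtain ⟨c, L, -, h⟩ := d.fl_bounds
  obtain ⟨C, -, hΔ, -⟩ := d.B.cov d.T.finB
  obtain ⟨Y, hY⟩ := hQ.exists_bound_of_continuousOn
    (f := fun b => c * mg d.T.finB.Δ (d.B.D.π b) ^ L) (continuousOn_const.mul
      (ContinuousOn.pow (fun b _ => ((mg_contAt _ (hΔ ▸ C.Δ_ne b)).comp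
        d.B.D.cont_π.continuousAt).continuousWithinAt) L))
  have hp := d.fl_p
  set Z := max Y 1 with hZ
  have Z0 : 0 < Z := lt_max_of_lt_right one_pos
  set X1 : ℝ := (d.r.factorial : ℝ) ^ (2 / d.m : ℝ) * (d.r * Z) ^ d.r with hX1
  refine ⟨Z ^ d.r + X1, by positivity, fun b hb => ?_⟩
  have k : c * mg d.T.finB.Δ (d.B.D.π b) ^ L ≤ Z :=
    (le_abs_self _).trans ((hY b hb).trans (le_max_left _ _))
  have hm : Measurable (d.f b) := measurable_pi_iff.2 (d.fl_meas b)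
  have e : ∀ a, N.nN (d.μ b) (d.f b) (2 / d.m) a = ENNReal.ofReal (d.Nn b a) := fun a =>
    (ENNReal.ofReal_toReal (d.fl_ne_top b a)).symm
  have up : N.nD (d.μ b) (d.f b) (2 / d.m) ≤ ENNReal.ofReal X1 := by
    have h1 : N.nB (d.μ b) (d.f b) (2 / d.m) ≤ ENNReal.ofReal (d.r * Z) := by
      refine (N.nB_le_sum hm hp).trans ((Finset.sum_le_card_nsmul _ _ (ENNReal.ofReal Z)
        fun i _ => ?_).trans (le_of_eq (by simp [ENNReal.ofReal_mul])))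
      rw [e]
      refine ENNReal.ofReal_le_ofReal ((h b _).2.trans ?_)
      simpa [Pi.norm_single] using k
    refine (N.nD_le hm hp.le).trans ?_
    rw [hX1, ENNReal.ofReal_mul (by positivity), ENNReal.ofReal_pow (by positivity),
      ← ENNReal.ofReal_rpow_of_nonneg (by positivity) hp.le, ENNReal.ofReal_natCast]
    gcongr
  have lo := N.le_nD (ν := d.μ b) hm hp.le (C := ENNReal.ofReal Z⁻¹) fun a => by
    rw [e, ← ofReal_norm, ENNReal.ofReal_rpow_of_nonneg (norm_nonneg _) hp.le,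
      ← ENNReal.ofReal_mul (by positivity)]
    refine ENNReal.ofReal_le_ofReal ((inv_mul_le_iff₀ Z0).2 ((h b a).1.trans ?_))
    exact mul_le_mul_of_nonneg_right k ENNReal.toReal_nonneg
  rw [← ENNReal.ofReal_pow (by positivity), ENNReal.ofReal_le_iff_le_toReal
    (ne_top_of_le_ne_top ENNReal.ofReal_ne_top up)] at lo
  refine ⟨le_trans ?_ lo, (ENNReal.toReal_le_of_le_ofReal (by positivity) up).trans
    (le_add_of_nonneg_left (by positivity))⟩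
  rw [inv_pow]
  exact inv_anti₀ (by positivity) (le_add_of_nonneg_right (by positivity))

end gen

variable {ε γ : Type} [Fintype ε] [DecidableEq ε] [Fintype γ] [DecidableEq γ]
  (d : Dat (ε ⊕ γ) K ν M)

theorem ParData.par {d : Dat (ε ⊕ γ) K ν M} {g : d.B.O} {a1 : ℕ} (H : d.ParData g a1)
    (hg : IsUnit g) (ha : 0 < a1) : ∃ P : Par d.B.D d.T.finB.Δ (Fin d.r), ∀ y y' T,
      T ∈ P.Iso y y' ↔ (∀ a, d.Nn y' (T *ᵥ a) = d.Nn y a) ∧ T.det ^ a1 * y g = y' g := by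
  obtain ⟨c, L, hc, h⟩ := d.fl_bounds
  refine Par.exists_of d.Nn (fun y => y g) a1 d.fl_p hc L (fun y _ => (hg.map y).ne_zero)
    (fun y _ a => (h y a).1) (fun y _ a => (h y a).2) (fun y _ => H.iso y a1 ha.ne') fun y _ => ?_
  obtain ⟨U, A, h1, h2, h3, h4⟩ := H.fr y
  have e : ∀ᶠ z in 𝓝 (d.B.D.π y), d.B.D.sec y z ∈ U ∧ z ∈ (d.B.D.ch y).target :=
    ((d.B.D.tendsto_sec y).eventually (h1.mem_nhds h2)).and (RD.tgt_nhds (d.B.D.mem_tgt y))
  refine ⟨fun z => A (d.B.D.sec y z), fun i j => e.mono fun z hz => ?_, ?_, ?_⟩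
  · have := (h3 _ hz.1).2 i j
    rw [RD.π_sec hz.2] at this
    exact this.congr_of_eventuallyEq (RD.germ_f (fun q => A q i j) hz.2)
  · simp only [d.B.D.sec_self]
    exact (h3 y h2).1
  · filter_upwards [e, e.eventually_nhds] with z hz hz'
    filter_upwards [hz'] with z' h' hw
    refine h4 _ h'.1 _ hz.1 ?_
    funext i
    simp only [w, RD.π_sec hz.2, RD.π_sec h'.2]
    exact congrFun hw i

/-- horizontal tensors with regular coefficients, and the transport from a slice -/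
theorem ParData.core {d : Dat (ε ⊕ γ) K ν M} {g : d.B.O} {a1 : ℕ} (H : d.ParData g a1)
    (hg : IsUnit g) (ha : 0 < a1) : ∃ (n s : ℕ) (S : Fin s → d.Ten (Fin n)), 0 < n ∧
      (∀ j, d.Hor (d.Nx (S j))) ∧
      (∃ b, ∀ ξ : Fin d.r → ℂ, (∀ j, d.tq (S j) b ξ = 0) → ξ = 0) ∧
      ∀ b (x0 : γ → ℂ), MvPolynomial.eval (Sum.elim (d.w b) x0) d.T.finB.Δ ≠ 0 →
        ∃ b1, d.B.D.π b1 = Sum.elim (d.w b) x0 ∧ ∃ A : Matrix (Fin d.r) (Fin d.r) ℂ,
          (∀ a, d.Nn b (A *ᵥ a) = d.Nn b1 a) ∧ A.det ^ a1 * b1 g = b g ∧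
          ∀ j, (fun I => b (S j I)) = tp (Fin n) A *ᵥ fun I => b1 (S j I) := by
  obtain ⟨P, hP⟩ := H.par hg ha
  obtain ⟨C, -, hΔ, -⟩ := d.B.cov d.T.finB
  have h0 : ∀ b, MvPolynomial.eval (d.B.D.π b) d.T.finB.Δ ≠ 0 := fun b => hΔ ▸ C.Δ_ne b
  obtain ⟨n, s, S, hn, h2, h3⟩ := P.flat_ring d.B d.T.finB h0
  refine ⟨n, s, S, hn, fun j b => ?_, h3, fun b x0 hx => ?_⟩
  · filter_upwards [h2 j b (h0 b), P.tr_iso (h0 b)] with b' k1 k2 hw
    exact d.Nx_eq ((hP _ _ _).1 (k2 hw)).1 (k1 hw)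
  · obtain ⟨b1, k1, T, k2, k3⟩ := P.reach C h2 (h0 b) (x0 := x0) (by
      rw [hΔ, map_mul]; exact mul_ne_zero hx hx)
    exact ⟨b1, k1, T, ((hP _ _ _).1 k2).1, ((hP _ _ _).1 k2).2, k3⟩

theorem slice_cpt {Q : Set (ε → ℂ)} (hQ : IsCompact Q) {x0 : γ → ℂ}
    (h : ∀ w ∈ Q, MvPolynomial.eval (Sum.elim w x0) d.T.finB.Δ ≠ 0) :
    IsCompact (d.B.D.π ⁻¹' ((fun w => Sum.elim w x0) '' Q)) := by
  obtain ⟨C, -, hΔ, -⟩ := d.B.cov d.T.finB
  refine C.cpt (hQ.image (continuous_pi fun i => ?_)) ?_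
  · rcases i with i | i
    · exact continuous_apply i
    · exact continuous_const
  · rintro _ ⟨w, hw, rfl⟩
    exact hΔ ▸ h w hw

theorem eval_slice (x0 : γ → ℂ) (g : MvPolynomial (ε ⊕ γ) ℂ) (w : ε → ℂ) :
    MvPolynomial.eval w (MvPolynomial.aeval (Sum.elim MvPolynomial.X fun i => MvPolynomial.C (x0 i))
      g : MvPolynomial ε ℂ) = MvPolynomial.eval (Sum.elim w x0) g := by
  induction g using MvPolynomial.induction_on with
  | C c => simp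
  | add a b ha hb => simp only [map_add, ha, hb]
  | mul_X a i ha => rcases i with i | i <;> simp only [map_mul, ha] <;> simp

/-- (6c), (6d) -/
theorem ParData.flat' {d : Dat (ε ⊕ γ) K ν M} {g : d.B.O} {a1 : ℕ} (H : d.ParData g a1)
    (hg : IsUnit g) (ha : 0 < a1) : Nonempty (d.FlatOut g a1) := by
  obtain ⟨n, s, S, hn, -, ⟨b0, h0⟩, h3⟩ := H.core hg ha
  obtain ⟨c0, hc0, hl⟩ := d.lct
  let x0 : γ → ℂ := fun i => d.B.D.π b0 (Sum.inr i)
  refine ⟨⟨n, hn, s, S, b0, h0, MvPolynomial.aeval (Sum.elim MvPolynomial.X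
    fun i => MvPolynomial.C (x0 i)) d.T.finB.Δ, ?_, min c0 (1 / 4), by positivity,
    fun c hc hc' Q hQ hb => ?_⟩⟩
  · obtain ⟨C, -, hΔ, -⟩ := d.B.cov d.T.finB
    have : Sum.elim (d.w b0) x0 = d.B.D.π b0 := funext fun i => by rcases i with i | i <;> rfl
    rw [eval_slice, this, ← hΔ]
    exact C.Δ_ne b0
  simp only [eval_slice] at hb
  have cQ := d.slice_cpt hQ hb
  obtain ⟨C1, t1, k1⟩ := hl c hc (hc'.trans (min_le_left _ _)) _ cQ
  obtain ⟨C2, k2⟩ := cQ.exists_bound_of_continuousOn (f := fun b => ((b g)⁻¹, b g))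
    (((Pt.continuous_apply g).continuousOn.inv₀ fun b _ => (hg.map b).ne_zero).prodMk
      (Pt.continuous_apply g).continuousOn)
  obtain ⟨C3, k3⟩ := cQ.exists_bound_of_continuousOn (f := fun b j I => b (S j I))
    (continuous_pi fun j => continuous_pi fun I => Pt.continuous_apply _).continuousOn
  obtain ⟨X, hX, k4⟩ := d.Dd_bounds cQ
  have kk := (d.lct_iso (b := b0) (b' := b0) (A := 1) (by simp) hc (hc'.trans (min_le_right _ _))
    (C := ⊤) fun a ha => by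
      rw [ENNReal.top_mul (by simp [ha])]; exact le_top).2
  have t2 : Fintype.card (Fin d.r) * Z.kk (2 / d.m) c * C1 ≠ ⊤ := by
    simp [ENNReal.mul_ne_top, kk, t1]
  have t3 : Fintype.card (Fin n → Fin d.r) * ENNReal.ofReal C3 ≠ ⊤ := by
    simp [ENNReal.mul_ne_top]
  obtain ⟨C, c1, c2, c3, c4⟩ : ∃ C : NNReal, Fintype.card (Fin d.r) * Z.kk (2 / d.m) c * C1 ≤ C ∧
      C2 ≤ C ∧ Fintype.card (Fin n → Fin d.r) * ENNReal.ofReal C3 ≤ C ∧
      C2 ^ 2 * X ^ (d.m * a1) ≤ C := by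
    rw [← ENNReal.coe_toNNReal t2, ← ENNReal.coe_toNNReal t3]
    generalize ENNReal.toNNReal (Fintype.card (Fin d.r) * _ * _) = u
    generalize ENNReal.toNNReal (Fintype.card (Fin n → Fin d.r) * _) = v
    refine ⟨max (max u v) (max C2 (C2 ^ 2 * X ^ (d.m * a1))).toNNReal, ?_, ?_, ?_, ?_⟩
    · exact ENNReal.coe_le_coe.2 ((le_max_left _ _).trans (le_max_left _ _))
    · exact ((le_max_left _ _).trans (Real.le_coe_toNNReal _)).trans
        (NNReal.coe_le_coe.2 (le_max_right _ _))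
    · exact ENNReal.coe_le_coe.2 ((le_max_right _ _).trans (le_max_left _ _))
    · exact ((le_max_right _ _).trans (Real.le_coe_toNNReal _)).trans
        (NNReal.coe_le_coe.2 (le_max_right _ _))
  refine ⟨C, fun b hw => ?_⟩
  obtain ⟨b1, e1, A, e2, e3, e4⟩ := h3 b x0 (hb _ hw)
  have m1 : b1 ∈ d.B.D.π ⁻¹' ((fun w => Sum.elim w x0) '' Q) := ⟨_, hw, e1.symm⟩
  have g1 : b1 g ≠ 0 := (hg.map b1).ne_zero
  have g2 : ‖b1 g‖⁻¹ ≤ C2 := (norm_inv _).symm.trans_le ((norm_fst_le ((b1 g)⁻¹, b1 g)).trans (k2 b1 m1))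
  have g3 : ‖b1 g‖ ≤ C2 := (norm_snd_le ((b1 g)⁻¹, b1 g)).trans (k2 b1 m1)
  have g0 : 0 < ‖b1 g‖ := norm_pos_iff.2 g1
  have D0 : 0 < d.Dd b1 := (inv_pos.2 hX).trans_le (k4 b1 m1).1
  have E : ‖b g‖ ^ 2 * d.Dd b ^ (d.m * a1) = ‖b1 g‖ ^ 2 * d.Dd b1 ^ (d.m * a1) := by
    have m0 : (d.m : ℝ) ≠ 0 := by have := d.hm; positivity
    have : (‖A.det‖ ^ (2 / d.m : ℝ)) ^ d.m = ‖A.det‖ ^ 2 := by
      rw [← Real.rpow_mul_natCast (norm_nonneg _), div_mul_cancel₀ _ m0, Real.rpow_two]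
    rw [← e3, ← d.Dd_iso e2, mul_pow, pow_mul (_ ^ (_ : ℝ)), this, norm_mul, norm_pow]
    ring
  rw [E]
  refine ⟨le_trans ?_ c4, le_trans ?_ (mul_le_mul_of_nonneg_right c4 (by positivity)), A,
    fun h => ?_, ?_, fun a ha => ?_, fun j p => ?_⟩
  · gcongr
    exact (k4 b1 m1).2
  · have h1 : 1 ≤ C2 * ‖b1 g‖ := by rwa [← inv_le_iff_one_le_mul₀ g0]
    have h2 : 1 ≤ X * d.Dd b1 := by rw [← inv_le_iff_one_le_mul₀' hX]; exact (k4 b1 m1).1
    calc (1 : ℝ) ≤ (C2 * ‖b1 g‖) ^ 2 * (X * d.Dd b1) ^ (d.m * a1) :=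
          one_le_mul_of_one_le_of_one_le (one_le_pow₀ h1) (one_le_pow₀ h2)
      _ = _ := by rw [mul_pow, mul_pow]; ring
  · rw [h, zero_pow ha.ne', zero_mul] at e3
    exact (hg.map b).ne_zero e3.symm
  · rw [← norm_pow, (eq_mul_inv_iff_mul_eq₀ g1).2 e3, norm_mul, mul_comm, norm_inv]
    exact mul_le_mul_of_nonneg_right (g2.trans c2) (norm_nonneg _)
  · refine ((d.lct_iso e2 hc (hc'.trans (min_le_right _ _)) (k1 b1 m1)).1 a ha).trans ?_
    gcongr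
  · have := (d.tev_le_iso (e4 j) (C := ENNReal.ofReal C3) (fun I => by
      rw [← ofReal_norm]
      exact ENNReal.ofReal_le_ofReal (((norm_le_pi_norm _ I).trans
        (norm_le_pi_norm (fun j I => b1 (S j I)) j)).trans (k3 b1 m1))) p).trans
      (mul_le_mul_left c3 _)
    have h5 := ENNReal.toReal_mono (ENNReal.mul_ne_top ENNReal.coe_ne_top
      (ENNReal.prod_ne_top fun _ _ => enorm_ne_top)) this
    simpa [ENNReal.toReal_prod] using h5

theorem ParData.flat {g : d.B.O} (hg : IsUnit g) {a1 : ℕ} (ha : 0 < a1)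
    (_hf : d.Hor fun b => ‖b g‖ ^ 2 * d.Dd b ^ (d.m * a1)) (h : d.ParData g a1) :
    Nonempty (d.FlatOut g a1) := h.flat' hg ha

end Dat

end

end Pool.Agent.Lib.MP_5c318e_ag
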