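import Pool.Agent.Lib.MP_5c318e_ag.Z.DDefs
import Pool.Agent.Lib.MP_5c318e_ag.D.EndA
import Pool.Agent.Lib.MP_5c318e_ag.S.AFrm
import Pool.Agent.Lib.MP_5c318e_ag.RD.RMeas

/-! Reduction to finitely many vertical prime divisors, orders below and above. -/

set_option autoImplicit false

namespace Pool.Agent.Lib.MP_5c318e_ag

open MeasureTheory Set Filter Topology Metric

variable {δ ν K M : Type} [Fintype δ] [DecidableEq δ] [Fintype ν] [DecidableEq ν]
  [Field K] [Algebra ℂ K] [Field M] [Algebra ℂ M] [Algebra K M] [IsScalarTower ℂ K M] {B : Cht δ K}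

omit [IsScalarTower ℂ K M] in
theorem Rel.dualX (T : Rel B ν M) :
    Dual ℂ (Sum.elim (fun i => algebraMap K M (B.z i)) T.x) T.X.der := by
  convert T.X.dual using 1
  ext (i | i)
  exacts [(T.zy_coe i).symm, rfl]

/-- only finitely many vertical prime divisors have to be looked at -/
theorem Rel.plu_of_vert (T : Rel B ν M) (hX : SmoothModel ℂ M) :
    ∃ V : Finset (ValuationSubring K), (∀ v ∈ V, IsDivisorial ℂ K v) ∧
      ∀ (q : ℕ) (Φ : M) (g : K), Φ ∈ T.X.O → g ∈ B.O → Plu T.dx q Φ →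
        (∀ O, IsDivisorial ℂ M O → (¬ ∀ c : K, algebraMap K M c ∈ O) →
          O.comap (algebraMap K M) ∈ V → RegI T.X.der q (Φ * algebraMap K M g) O) →
        Plu T.X.der q (Φ * algebraMap K M g) := by
  obtain ⟨Pr, h1, h2, h3⟩ := hX.primes T.X.dual
  obtain ⟨s, hs⟩ := (Subalgebra.fg_iff_finiteType T.X.O).2 T.X.ft
  have hf : ((fun O : ValuationSubring M => O.comap (algebraMap K M)) ''
      {O | (O ∈ ⋃ g ∈ s, {O ∈ Pr | g ∉ O}) ∧ ¬ ∀ c : K, algebraMap K M c ∈ O}).Finite :=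
    ((s.finite_toSet.biUnion fun g _ => h3 g).subset fun O hO => hO.1).image _
  refine ⟨hf.toFinset, fun v hv => ?_, fun q Φ g hΦ hg hp H => h2 _ _ fun O hO => ?_⟩
  · obtain ⟨O, ⟨a, b⟩, rfl⟩ := hf.mem_toFinset.1 hv
    obtain ⟨_, _, a⟩ := mem_iUnion₂.1 a
    exact (divisorial_vertical B.basis T.basis (h1 O a.1) b).1
  by_cases hv : ∀ c : K, algebraMap K M c ∈ O
  · exact relReg_horizontal B.dual T.dual T.dualX hp (h1 O hO) hv g
  by_cases hb : ∀ a ∈ s, a ∈ O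
  · have hle : ∀ a ∈ T.X.O, a ∈ O := fun a ha => by
      rw [← hs] at ha
      exact Algebra.adjoin_induction hb (h1 O hO).const (fun _ _ _ _ => add_mem)
        (fun _ _ _ _ => mul_mem) ha
    refine ⟨_, fun j => hle _ (T.X.z j).2, _, hle _ (mul_mem hΦ ?_), by
      rw [T.X.dual.jac_one, one_pow, mul_one]⟩
    exact T.inc_eq ⟨g, hg⟩ ▸ (T.inc ⟨g, hg⟩).2
  · push Not at hb
    obtain ⟨a, ha, hb⟩ := hb
    exact H O (h1 O hO) hv (hf.mem_toFinset.2 ⟨O, ⟨mem_iUnion₂.2 ⟨a, ha, hO, hb⟩, hv⟩, rfl⟩)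

variable {O : ValuationSubring M} {C : Cht δ K} {i0 : δ}

omit [IsScalarTower ℂ K M] in
/-- orders below and above -/
theorem OCh.val_le {T : Rel B ν M} {τ : Tr C.O B.O} {c0 : Pt C.O} (Ω : OCh T O C i0 τ c0) {g : K}
    {a : ℤ} : (O.comap (algebraMap K M)).valuation g ≤
      (O.comap (algebraMap K M)).valuation (C.z i0 : K) ^ a ↔
      O.valuation (algebraMap K M g) ≤ O.valuation Ω.ξ ^ (Ω.μ * a : ℤ) := by
  rw [← map_zpow₀, (comap_isEquiv O).le_iff_le, Valuation.comap_apply, Valuation.comap_apply,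
    map_zpow₀, map_zpow₀, Ω.val, zpow_mul, zpow_natCast]

namespace Dat

variable (d : Dat δ K ν M)

omit [IsScalarTower ℂ K M] in
/-- the neighbourhood form implies the form on discs -/
theorem Ov.disc {σ : Tr C.O d.B.O} (hσ : σ.h = C.z i0) {g : K} {t n : ℝ} (H : d.Ov C i0 σ g t n) :
    ∃ e : C.O, ¬ C.z i0 ∣ e ∧ ∀ c : Pt C.O, c (C.z i0) = 0 → c e ≠ 0 → ∀ ε : ℝ, 0 < ε → ∃ A : ℝ,
      ∀ᶠ s in 𝓝[≠] (0 : ℂ), ‖(C.D.sec c (C.D.π c + Pi.single i0 s)).ev g‖ ^ 2 *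
        d.Dd (σ.map (C.D.sec c (C.D.π c + Pi.single i0 s))) ^ t ≤ A * ‖s‖ ^ (2 * n - ε) := by
  obtain ⟨e, he, H⟩ := H
  refine ⟨e, he, fun c h0 h1 ε hε => (H c h0 h1 ε hε).imp fun A hA => ?_⟩
  have l1 : Tendsto (fun u : ℂ => C.D.π c + Pi.single i0 u) (𝓝[≠] 0) (𝓝 (C.D.π c)) :=
    ((continuous_const.add (continuous_single (A := fun _ : δ => ℂ) i0)).tendsto' 0 _
      (show C.D.π c + Pi.single i0 0 = _ by rw [Pi.single_zero, add_zero])).mono_left
      nhdsWithin_le_nhds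
  filter_upwards [((C.D.tendsto_sec c).comp l1).eventually hA, l1.eventually (C.D.π_sec_ev c),
    self_mem_nhdsWithin] with s s1 s2 s3
  have e1 : C.D.sec c (C.D.π c + Pi.single i0 s) (C.z i0) = s := by
    rw [← C.π_eq, s2, Pi.add_apply, C.π_eq, h0, Pi.single_eq_same, zero_add]
  rw [Function.comp_apply, e1] at s1
  rw [((σ.same _ (by rw [hσ, e1]; exact s3)).1 g).2]
  exact s1 s3

omit [IsScalarTower ℂ K M] in
theorem N_one (h1 : d.r = 1) (b : Pt d.B.O) {x : ℝ}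
    (h : ENNReal.ofReal x ≤ d.T.N d.m (d.τ ⟨0, d.hr⟩) b) : x ≤ d.Dd b := by
  let _ : Unique (Fin d.r) := ⟨⟨⟨0, d.hr⟩⟩, fun j => Fin.ext (by have := j.2; omega)⟩
  have hp : (0 : ℝ) ≤ 2 / d.m := by positivity
  have hm : Measurable (d.f b) := measurable_pi_lambda _ fun i =>
    ((Pt.continuous_apply _).comp continuous_subtype_val).measurable
  obtain ⟨u, -, hu⟩ := d.up
  refine (ENNReal.ofReal_le_iff_le_toReal ((N.nD_le hm hp).trans_lt (ENNReal.mul_lt_top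
    (ENNReal.rpow_lt_top_of_nonneg hp (ENNReal.natCast_ne_top _))
    (ENNReal.pow_lt_top ((hu b).trans_lt ENNReal.ofReal_lt_top)))).ne).1 (h.trans_eq ?_)
  have := N.lintegral_pi_prod (ν := d.μ b)
    (fun (_ : Fin d.r) y => ‖d.f b y default‖ₑ ^ (2 / d.m : ℝ))
    fun _ => ((measurable_pi_apply _).comp hm).enorm.pow_const _
  simp only [Fintype.prod_unique] at this
  simp only [N.nD, N.dt, Matrix.det_unique, Matrix.of_apply, this, Rel.N, Pt.ev_coe]
  refine lintegral_congr fun p => ?_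
  rw [← ofReal_norm, ENNReal.ofReal_rpow_of_nonneg (norm_nonneg _) hp]
  rfl

end Dat

end Pool.Agent.Lib.MP_5c318e_ag
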