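import Pool.Agent.Lib.MP_5c318e_ag.S.OCh
import Pool.Agent.Lib.MP_5c318e_ag.S.OInt
import Pool.Agent.Lib.MP_5c318e_ag.D.Vrt

/-! The end of the proof in rank one. -/

set_option autoImplicit false

namespace Pool.Agent.Lib.MP_5c318e_ag

open MeasureTheory Set Filter Topology Metric

variable {δ ν K M : Type} [Fintype δ] [DecidableEq δ] [Fintype ν] [DecidableEq ν]
  [Field K] [Algebra ℂ K] [Field M] [Algebra ℂ M] [Algebra K M] [IsScalarTower ℂ K M]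
  {O : ValuationSubring M} {C : Cht δ K} {i0 : δ}

namespace Dat

variable (d : Dat δ K ν M)

theorem one_vert (h1 : d.r = 1) (hO : IsDivisorial ℂ M O) (hv : ¬ ∀ c : K, algebraMap K M c ∈ O)
    (hC : C.At (O.comap (algebraMap K M)) i0) {σ : Tr C.O d.B.O} (hσ : σ.h = C.z i0) {p : K}
    (hp : p ≠ 0) {b : ℕ} {n : ℝ} (H : d.Ov C i0 σ p (d.m * b : ℕ) n) {g : K} {j : ℕ}
    (hg : (O.comap (algebraMap K M)).valuation (g / (Jac d.B.der fun i => (C.z i : K)) ^ (d.m * b)) ≤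
      (O.comap (algebraMap K M)).valuation (C.z i0 : K) ^ (j : ℤ)) (hj : 0 ≤ j + n) :
    RegI d.T.X.der (d.m * b) ((d.τ ⟨0, d.hr⟩ : M) ^ b * algebraMap K M (p * g)) O := by
  have hm : 0 < d.m := by have := d.hm; omega
  obtain ⟨_, _, _, e, he, h2⟩ := exists_och d.T.toRel hO hv hC σ hσ
  obtain ⟨c0, h0, h3⟩ := hC.exists_pt he
  obtain ⟨Ω, -⟩ := h2 c0 h0 h3
  have hξ : 0 < O.valuation Ω.ξ := (Valuation.pos_iff _).2 Ω.ne
  have hJ : Jac d.T.dx Ω.w ≠ 0 := by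
    obtain ⟨j, -, h, -⟩ := Ω.jac
    exact (Valuation.ne_zero_iff _).1 (h ▸ zpow_ne_zero j hξ.ne')
  have hJ' : (Jac d.B.der fun i => (C.z i : K)) ≠ 0 := d.B.dual.isFr.jac_ne C.basis.1
  have ht := d.ind.ne_zero ⟨0, d.hr⟩
  obtain ⟨k, -, -, hk, -⟩ := Ω.ord _ (div_ne_zero ht (pow_ne_zero d.m hJ))
  obtain ⟨y1, y2, y3, c, hc, y4⟩ := Ω.N_lower hm ht hk
  obtain ⟨a, ha⟩ := hC.adp.grp p hp
  obtain ⟨e', he', H⟩ := H.disc d hσ
  have key := Ω.ord_le hC y2 y3 hc (y4.mono fun y hy h => d.N_one h1 _ (hy h)) ha he'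
    (Nat.cast_nonneg _) H
  have hμ : (0 : ℝ) ≤ Ω.μ := Nat.cast_nonneg _
  have k2 : (0 : ℤ) ≤ k * b + Ω.μ * a + Ω.μ * j := by
    have : (d.m : ℝ) ≠ 0 := Nat.cast_ne_zero.2 hm.ne'
    rw [show (2 * k / d.m * (d.m * b : ℕ) : ℝ) = 2 * (k * b) by push_cast; field_simp] at key
    have h4 := mul_nonneg hμ hj
    have h5 : (0 : ℝ) ≤ k * b + Ω.μ * a + Ω.μ * j := by linarith
    exact_mod_cast h5
  have v1 := Ω.val_le.1 ha.le
  have v2 := Ω.val_le.1 hg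
  rw [Ω.reg, ← map_pow, ← div_le_one₀ ((Valuation.pos_iff _).2
    (pow_ne_zero _ (mul_ne_zero ((map_ne_zero _).2 hJ') hJ))), ← map_div₀,
    show (d.τ ⟨0, d.hr⟩ : M) ^ b * algebraMap K M (p * g) * Ω.ξ ^ ((Ω.μ - 1) * (d.m * b)) /
      (algebraMap K M (Jac d.B.der fun i => (C.z i : K)) * Jac d.T.dx Ω.w) ^ (d.m * b) =
      ((d.τ ⟨0, d.hr⟩ : M) / Jac d.T.dx Ω.w ^ d.m) ^ b * algebraMap K M p * algebraMap K M
        (g / (Jac d.B.der fun i => (C.z i : K)) ^ (d.m * b)) * Ω.ξ ^ ((Ω.μ - 1) * (d.m * b)) by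
      rw [map_div₀, map_pow, map_mul, div_pow, ← pow_mul, mul_pow]; ring,
    map_mul, map_mul, map_mul, map_pow, map_pow, hk]
  refine mul_le_one' ((mul_le_mul' (mul_le_mul' le_rfl v1) v2).trans ?_) (pow_le_one' Ω.lt.le _)
  rw [← zpow_natCast, ← zpow_mul, ← zpow_add₀ hξ.ne', ← zpow_add₀ hξ.ne']
  exact zpow_le_one₀ hξ Ω.lt.le k2

/-- END, rank one -/
theorem end_one (d : Dat δ K ν M) (hX : SmoothModel ℂ M) (h1 : d.r = 1) (key : d.KeyOut) :
    EndOut d := by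
  have : CharZero K := charZero_of_injective_algebraMap (algebraMap ℂ K).injective
  have hm : 0 < d.m := by have := d.hm; omega
  obtain ⟨V, hV, H⟩ := d.T.plu_of_vert hX
  obtain ⟨C2, key⟩ := key V hV (d.m * d.k) (mul_pos hm d.hk)
  obtain ⟨_, p, hb, ⟨c, rfl⟩, hp, key⟩ := key (d.k * (⌈C2⌉₊ + 1))
  have hb' : ⌈C2⌉₊ + 1 ≤ d.m * c := Nat.le_of_mul_le_mul_left (hb.trans_eq (by ring)) d.hk
  obtain ⟨j, hj⟩ : ∃ j, d.m * c = j + 1 := ⟨d.m * c - 1, by omega⟩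
  have hq : d.m * (d.k * c) = d.k * (j + 1) := by rw [← hj]; ring
  have ht := d.ind.ne_zero ⟨0, d.hr⟩
  have hp' : (p : K) ≠ 0 := fun e => hp (Subtype.ext e)
  have hη : (d.η : K) ≠ 0 := fun e => d.unit.ne_zero (Subtype.ext e)
  refine ⟨d.m * (d.k * c), hq ▸ mul_pos d.hk j.succ_pos,
    {(d.τ ⟨0, d.hr⟩ : M) ^ (d.k * c) * algebraMap K M (p * d.η ^ j)}, singleton_nonempty _, ?_, ?_⟩
  · rintro _ rfl
    refine ⟨mul_ne_zero (pow_ne_zero _ ht) ((map_ne_zero _).2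
      (mul_ne_zero hp' (pow_ne_zero _ hη))), fun η1 h2 => ?_⟩
    rw [mul_assoc, ← map_mul, mul_assoc]
    refine H _ _ _ (pow_mem (d.τ _).2 _) (mul_mem p.2 (mul_mem (pow_mem d.η.2 _) (d.mem _ h2)))
      ((plu_iff d.T.dual.isFr).2 (((plu_iff d.T.dual.isFr).1
        ((d.span _).2 (Submodule.subset_span ⟨_, rfl⟩))).pow _)) fun O hO hv hm => ?_
    obtain ⟨C, i0, σ, hC, hσ, k1, k2⟩ := key _ hm
    rw [mul_assoc] at k1 k2
    have hJ : (Jac d.B.der fun i => (C.z i : K)) ≠ 0 := d.B.dual.isFr.jac_ne C.basis.1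
    have e1 := (ValuationSubring.valuation_le_one_iff _ _).2
      ((div_pow_mem_iff hJ).2 (d.plu.le_adp hC.adp))
    have e2 := (ValuationSubring.valuation_le_one_iff _ _).2
      ((div_pow_mem_iff hJ).2 (h2.le_adp hC.adp))
    have e3 : (d.η : K) ^ j * η1 / (Jac d.B.der fun i => (C.z i : K)) ^ (d.m * (d.k * c)) =
        ((d.η : K) / (Jac d.B.der fun i => (C.z i : K)) ^ d.k) ^ j *
          (η1 / (Jac d.B.der fun i => (C.z i : K)) ^ d.k) := by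
      rw [hq, div_pow, div_mul_div_comm, ← pow_mul, ← pow_add, mul_add, mul_one]
    rcases e1.eq_or_lt with e4 | e4
    · refine d.one_vert h1 hO hv hC hσ hp' (k2 e4) (j := 0) ?_ (by simp)
      rw [e3, map_mul, map_pow, e4, one_pow, one_mul]
      simpa using e2
    · refine d.one_vert h1 hO hv hC hσ hp' k1 (j := j) ?_ ?_
      · rw [e3, map_mul, map_pow, zpow_natCast]
        exact (mul_le_of_le_one_right' e2).trans (pow_le_pow_left' (hC.adp.le_unif e4) j)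
      · have h3 : ⌈C2⌉₊ ≤ j := by omega
        linarith [Nat.ceil_le.1 h3]
  · intro φ ψ hφ hψ
    have hs : ∀ φ, Plu d.T.dx d.m φ → ∃ a : K, φ = algebraMap K M a * d.τ ⟨0, d.hr⟩ := fun φ h => by
      have h2 := (d.span φ).1 h
      have : Nonempty (Fin d.r) := ⟨⟨0, d.hr⟩⟩
      rw [show (range fun i => (d.τ i : M)) = {(d.τ ⟨0, d.hr⟩ : M)} from
        range_eq_singleton fun i => by rw [show i = ⟨0, d.hr⟩ from Fin.ext (by have := i.2; omega)],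
        Submodule.mem_span_singleton] at h2
      exact h2.imp fun a e => by rw [← e, Algebra.smul_def]
    obtain ⟨a, rfl⟩ := hs φ hφ
    obtain ⟨b, rfl⟩ := hs ψ hψ
    rw [mul_div_mul_right _ _ ht, ← map_div₀]
    exact isAlgebraic_algebraMap (⟨_, IntermediateField.algebraMap_mem _ _⟩ :
      IntermediateField.adjoin K _)

end Dat

end Pool.Agent.Lib.MP_5c318e_ag
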