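import Pool.Agent.Lib.MP_5c318e_ag.D.ReD
import Pool.Agent.Lib.MP_5c318e_ag.S.CAt
import Pool.Agent.Lib.MP_5c318e_ag.S.OAt

/-! Transfer of the orders at prime divisors and of the output for the base to a smaller chart. -/

set_option autoImplicit false
set_option linter.unusedSectionVars false

namespace Pool.Agent.Lib.MP_5c318e_ag

open Set Filter Topology

variable {δ ν K M : Type} [Fintype δ] [DecidableEq δ] [Fintype ν] [DecidableEq ν]
  [Field K] [Algebra ℂ K] [Field M] [Algebra ℂ M] [Algebra K M]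

theorem Adapted.reidx {δ' : Type} [Fintype δ'] [DecidableEq δ'] {v : ValuationSubring K}
    {c : δ → K} {i0 : δ} (h : Adapted ℂ v c i0) (e : δ' ≃ δ) :
    Adapted ℂ v (fun i => c (e i)) (e.symm i0) := by
  refine ⟨by simpa using h.ne, by simpa using h.lt, by simpa using h.unif, fun p hp => ?_⟩
  let f : {i // i ≠ e.symm i0} → {i // i ≠ i0} := fun i =>
    ⟨e i, fun a => i.2 ((Equiv.eq_symm_apply e).2 a)⟩
  have hf : Function.Injective f := fun i j a => Subtype.ext (e.injective (congrArg Subtype.val a))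
  have := h.ind (MvPolynomial.rename f p) fun a =>
    hp (MvPolynomial.rename_injective f hf (a.trans (map_zero _).symm))
  rwa [MvPolynomial.aeval_rename] at this

/-- a chart at `v` glued to `B'` that contains a given chart at `v` -/
theorem Cht.At.exists_over {δ' : Type} [Fintype δ'] [DecidableEq δ'] {v : ValuationSubring K}
    {C : Cht δ K} {i0 : δ} (hC : C.At v i0) (B' : Cht δ' K) (e : δ' ≃ δ) :
    ∃ C' : Cht δ' K, C'.At v (e.symm i0) ∧ (∀ i, (C'.z i : K) = C.z (e i)) ∧ C.O ≤ C'.O ∧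
      ∃ τ : Tr C'.O B'.O, τ.h = C'.z (e.symm i0) := by
  obtain ⟨s, hs⟩ := (Subalgebra.fg_iff_finiteType C.O).2 C.ft
  obtain ⟨C', h1, h2, h3, h4⟩ := exists_cht_at B' hC.adp.divisorial (hC.ad.reidx e) s fun a ha =>
    hC.le a (hs ▸ Algebra.subset_adjoin ha)
  exact ⟨C', h1, h2, hs ▸ Algebra.adjoin_le h3, h4⟩

/-- two gluing maps agree on a larger ring -/
theorem Tr.res_map {A A' B B' : Subalgebra ℂ K} (hA : A ≤ A') (hB : B ≤ B') (σ : Tr A B)
    (σ' : Tr A' B') {p : Pt A'} (h' : p σ'.h ≠ 0) (h : p.res (Subalgebra.inclusion hA) σ.h ≠ 0) :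
    (σ'.map p).res (Subalgebra.inclusion hB) = σ.map (p.res (Subalgebra.inclusion hA)) := by
  refine DFunLike.ext _ _ fun a => ?_
  have s := (σ.same _ h).1 a
  have r := Pt.ev_res (M := K) (Subalgebra.inclusion hA) (fun _ => rfl) p
    (s.1.2 ((σ.map _).reg_of_mem a.2))
  rw [← (σ.map _).ev_coe a, ← s.2, ← r.2]
  exact ((σ'.map p).ev_coe (Subalgebra.inclusion hB a)).symm.trans ((σ'.same p h').1 a).2.symm

variable [IsScalarTower ℂ K M]

/-- transfer of `Ov` to a smaller base chart -/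
theorem Dat.Re.exV {δ' : Type} [Fintype δ'] [DecidableEq δ'] {d' : Dat δ' K ν M} {d : Dat δ K ν M}
    (h : d.Re d') {v : ValuationSubring K} {C : Cht δ K} {i0 : δ} {σ : Tr C.O d.B.O} (hC : C.At v i0)
    (hσ : σ.h = C.z i0) : d'.ExV v fun C' i0' σ' => (d'.E0 C' v ↔ d.E0 C v) ∧
      ∀ g T n, d.Ov C i0 σ g T n → d'.Ov C' i0' σ' g T n := by
  obtain ⟨e, he⟩ := h.η
  obtain ⟨C', h1, h2, h3, σ', h4⟩ := hC.exists_over d'.B e
  have hz : Subalgebra.inclusion h3 (C.z i0) = C'.z (e.symm i0) :=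
    Subtype.ext (by rw [h2, e.apply_symm_apply]; rfl)
  refine ⟨C', e.symm i0, σ', h1, h4, ?_, ?_⟩
  · have a := d'.B.dual.jac_chain (fun i => d.B.der (e i)) fun i => (C'.z i : K)
    have b := jac_equiv d.B.der (fun i => (d'.B.z (e.symm i) : K)) e
    have c := jac_equiv d.B.der (fun i => (C.z i : K)) e
    simp only [e.symm_apply_apply] at b
    simp only [← h2] at c
    rw [b, c] at a
    have n : Jac d.B.der (fun i => (d'.B.z (e.symm i) : K)) ^ d.k ≠ 0 := fun z =>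
      d.unit.ne_zero (Subtype.ext (by rw [he, z, mul_zero]; rfl))
    rw [Dat.E0, Dat.E0, a, he, h.k, mul_pow, mul_comm (d'.η : K), mul_div_mul_left _ _ n]
  rintro g T n ⟨e0, g1, g2⟩
  refine ⟨Subalgebra.inclusion h3 e0, h1.not_dvd_iff.2 (hC.not_dvd_iff.1 g1),
    fun c0 c1 c2 ε hε => ?_⟩
  obtain ⟨A, hA⟩ := g2 (c0.res (Subalgebra.inclusion h3)) (by rwa [← hz] at c1) c2 ε hε
  refine ⟨A, ((Pt.continuous_res _).continuousAt.eventually hA).mono fun c hc hne => ?_⟩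
  have hne' : c.res (Subalgebra.inclusion h3) (C.z i0) ≠ 0 := by rwa [← hz] at hne
  have r : h.ρ (σ'.map c) = σ.map (c.res (Subalgebra.inclusion h3)) :=
    Tr.res_map h3 h.sub.le σ σ' (h4 ▸ hne) (hσ ▸ hne')
  rw [(h.Dd _).1, (h.sub.same _ g).2, ← hz]
  change ‖(h.ρ (σ'.map c)).ev g‖ ^ 2 * _ ≤ _
  rw [r]
  exact hc hne'

variable {ε γ : Type} [Fintype ε] [DecidableEq ε] [Fintype γ] [DecidableEq γ]
  (d : Dat (ε ⊕ γ) K ν M)

theorem Dat.BaseOut.re {d' : Dat (ε ⊕ γ) K ν M} (h : d.Re d') (hz : ∀ i, (d'.B.z i : K) = d.B.z i)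
    (Bo : d.BaseOut) : ∃ Bo' : d'.BaseOut, (Bo'.g : K) = Bo.g ∧ Bo'.a1 = Bo.a1 := by
  have hw : ∀ b, d.w (h.ρ b) = d'.w b := fun b => funext fun i => by
    rw [Dat.w, Dat.w, d.B.π_eq, d'.B.π_eq]
    exact congrArg b (Subtype.ext (hz _).symm)
  refine ⟨⟨Subalgebra.inclusion h.sub.le Bo.g, Bo.unit.map _, Bo.a1, Bo.pos, fun b => ?_,
    fun V n hV => ?_⟩, rfl, rfl⟩
  · refine ((Pt.continuous_res _).continuousAt.eventually (Bo.flat (h.ρ b))).mono fun b' hb e => ?_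
    simp only [(h.Dd _).1, h.m]
    exact hb ((hw b').trans (e.trans (hw b).symm))
  obtain ⟨l, P, h1, h2, h3⟩ := Bo.pay V n hV
  refine ⟨l, Subalgebra.inclusion h.sub.le P, h1,
    fun e => h2 (Subtype.ext (congrArg Subtype.val e :)), fun v hv => ?_⟩
  obtain ⟨C, i0, σ, c1, c2, c3⟩ := h3 v hv
  obtain ⟨C', i0', σ', e1, e2, e3, e4⟩ := h.exV c1 c2
  refine ⟨C', i0', σ', e1, e2, fun e0 => ?_⟩
  rw [h.m]
  refine ⟨e4 _ _ _ (c3 (e3.1 e0)).1, fun t => e4 _ _ _ ((c3 (e3.1 e0)).2 fun t' => t ?_)⟩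
  simpa only [Dat.Triv, hz] using t'

end Pool.Agent.Lib.MP_5c318e_ag
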