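import Pool.Agent.Lib.MP_5c318e_ag.Z.Bdy
import Pool.Agent.Lib.MP_5c318e_ag.Z.KDefs
import Pool.Agent.Lib.MP_5c318e_ag.D.Tra

/-! From the profile, the descent and the key section to bounds for `|g|² D^T` at prime divisors. -/

set_option autoImplicit false
set_option linter.unusedSectionVars false

namespace Pool.Agent.Lib.MP_5c318e_ag

open Filter Topology

variable {δ ν K M : Type} [Fintype δ] [DecidableEq δ] [Fintype ν] [DecidableEq ν]
  [Field K] [Algebra ℂ K] [Field M] [Algebra ℂ M] [Algebra K M]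

section sec

variable {B : FCht δ K} {η : K} {k0 : ℕ} {Dn : Pt B.O → ℝ} {n : ℕ} {Γ : Type} [Group Γ]
  {c : G.Coc (Pt B.O) Γ} {F : Prof B η k0 Dn n c}

theorem Prof.Ord.pmono {P : PD K} {g : K} {a : ℕ} {i j : ℤ} (h : F.Ord P g a i) (hj : j ≤ i) :
    F.Ord P g a j := Bdy.Ge.mono h (by omega)

theorem Prof.Ord.pmul {P : PD K} {g g' : K} {a a' : ℕ} {i j : ℤ} (h : F.Ord P g a i)
    (h' : F.Ord P g' a' j) : F.Ord P (g * g') (a + a') (i + j) := by
  have := Bdy.Ge.mul h h'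
  refine this.mono (le_of_eq ?_)
  push_cast
  ring

theorem Prof.Ord.ppow {P : PD K} {g : K} {a : ℕ} {i : ℤ} (h : F.Ord P g a i) (l : ℕ) :
    F.Ord P (g ^ l) (a * l) (i * l) := by
  have := Bdy.Ge.pow h l
  refine this.mono (le_of_eq ?_)
  push_cast
  ring

theorem Prof.Sec.pmul {A A' a a' : ℕ} {g g' : K} (h : F.Sec A g a) (h' : F.Sec A' g' a') :
    F.Sec (A + A') (g * g') (a + a') :=
  ⟨B.O.mul_mem h.mem h'.mem, fun P h1 h2 => by simpa using (h.good P h1 h2).pmul (h'.good P h1 h2),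
    fun P => ((h.all P).pmul (h'.all P)).pmono (le_of_eq (by push_cast; ring))⟩

theorem Prof.Sec.ppow {A a : ℕ} {g : K} (h : F.Sec A g a) (l : ℕ) : F.Sec (A * l) (g ^ l) (a * l) :=
  ⟨B.O.pow_mem h.mem l, fun P h1 h2 => by simpa using (h.good P h1 h2).ppow l,
    fun P => ((h.all P).ppow l).pmono (le_of_eq (by push_cast; ring))⟩

theorem Prof.Sec.padd {A a : ℕ} {g g' : K} (h : F.Sec A g a) (h' : F.Sec A g' a) :
    F.Sec A (g + g') a :=
  ⟨B.O.add_mem h.mem h'.mem, fun P h1 h2 => Bdy.Ge.add (h.good P h1 h2) (h'.good P h1 h2),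
    fun P => Bdy.Ge.add (h.all P) (h'.all P)⟩

theorem Prof.sec_const (F : Prof B η k0 Dn n c) (x : ℂ) : F.Sec 0 (algebraMap ℂ K x) 0 := by
  have h : ∀ P, F.Ord P (algebraMap ℂ K x) 0 0 := fun P => by
    simpa [Prof.Ord] using
      (F.bd P).ge_zero_iff.2 ((F.bd P).cen.le _ ((F.bd P).C.O.algebraMap_mem x))
  exact ⟨B.O.algebraMap_mem x, fun P _ _ => h P, fun P => by simpa using h P⟩

/-- homogeneous polynomials in the sections `g_i` -/
theorem Desc.sec_poly (R : Desc F) (q : MvPolynomial (Fin R.nw) ℂ) : ∃ N : ℕ, F.Sec (R.A * N)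
    (R.g0 ^ N * MvPolynomial.aeval (fun i => (R.S.z (Sum.inl i) : K)) q) (R.a0 * N) := by
  induction q using MvPolynomial.induction_on with
  | C x => exact ⟨0, by simpa using F.sec_const x⟩
  | add p q hp hq =>
    obtain ⟨N, h⟩ := hp
    obtain ⟨N', h'⟩ := hq
    refine ⟨N + N', ?_⟩
    have h1 := h.pmul (R.sec0.ppow N')
    have h2 := (R.sec0.ppow N).pmul h'
    rw [mul_add R.A, mul_add R.a0, map_add]
    convert h1.padd h2 using 1
    ring
  | mul_X p i hp =>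
    obtain ⟨N, h⟩ := hp
    refine ⟨N + 1, ?_⟩
    rw [mul_add R.A, mul_add R.a0, mul_one, mul_one, map_mul, MvPolynomial.aeval_X]
    convert h.pmul (R.sec i) using 1
    ring

theorem Desc.pay_g0 (R : Desc F) : R.g0 ≠ 0 := by
  obtain ⟨p, -⟩ := Pt.exists_zero (O := R.S.O) (I := ⊥) bot_ne_top
  exact fun h => R.unit p (by rw [h, p.ev_zero])

theorem Desc.aeval_ne (R : Desc F) {q : MvPolynomial (Fin R.nw) ℂ} (hq : q ≠ 0) :
    MvPolynomial.aeval (fun i => (R.S.z (Sum.inl i) : K)) q ≠ 0 := fun h =>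
  hq ((R.S.basis.1.comp Sum.inl Sum.inl_injective).eq_zero_of_aeval_eq_zero q h)

/-- a section that vanishes at a good divisor which is not trivial on `ℂ(w)` -/
theorem Desc.exists_van (R : Desc F) {P : PD K} (hg : F.Good P) (he : F.e P = 0)
    (h : ∃ q : MvPolynomial (Fin R.nw) ℂ, q ≠ 0 ∧
      P.1.valuation (MvPolynomial.aeval (fun i => (R.S.z (Sum.inl i) : K)) q) ≠ 1) :
    ∃ (N : ℕ) (f : K), f ≠ 0 ∧ F.Sec (R.A * N) f (R.a0 * N) ∧ F.Ord P f (R.a0 * N) 1 := by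
  have one : ∀ g : K, P.1.valuation g < 1 → (F.bd P).Ge g 1 := fun g hg => by
    simpa [Bdy.Ge, Bdy.z] using (F.bd P).cen.ad.unif g hg
  by_cases hw : ∀ i, (R.S.z (Sum.inl i) : K) ∈ P.1
  · obtain ⟨q, q0, hq⟩ := h
    obtain ⟨N, hN⟩ := R.sec_poly q
    refine ⟨N, _, mul_ne_zero (pow_ne_zero _ R.pay_g0) (R.aeval_ne q0), hN, ?_⟩
    have hm : MvPolynomial.aeval (fun i => (R.S.z (Sum.inl i) : K)) q ∈ P.1 := by
      clear hq hN q0
      induction q using MvPolynomial.induction_on with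
      | C x =>
        rw [MvPolynomial.aeval_C]
        exact (F.bd P).cen.le _ ((F.bd P).C.O.algebraMap_mem x)
      | add p q hp hq => rw [map_add]; exact P.1.add_mem _ _ hp hq
      | mul_X p i hp => rw [map_mul, MvPolynomial.aeval_X]; exact P.1.mul_mem _ _ hp (hw i)
    have h1 := one _ (lt_of_le_of_ne ((P.1.valuation_le_one_iff _).2 hm) hq)
    have h2 := (R.sec0.good P hg he).ppow N
    refine (Bdy.Ge.mul h2 h1).mono (le_of_eq ?_)
    push_cast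
    ring
  · obtain ⟨i, hi⟩ := not_forall.1 hw
    have z0 : (R.S.z (Sum.inl i) : K) ≠ 0 := fun e => hi (e ▸ P.1.zero_mem)
    have h1 := one (R.S.z (Sum.inl i) : K)⁻¹ (by
      rw [map_inv₀]
      exact inv_lt_one_of_one_lt₀ (not_le.1 fun e => hi ((P.1.valuation_le_one_iff _).1 e)))
    have h2 := Bdy.Ge.mul ((R.sec i).good P hg he) h1
    rw [mul_inv_cancel_right₀ z0] at h2
    refine ⟨1, R.g0, R.pay_g0, by simpa using R.sec0, h2.mono (le_of_eq ?_)⟩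
    push_cast
    ring

/-- the paying section -/
theorem Desc.pay (R : Desc F) (hk : Key R) (V : Finset (PD K)) (j s : ℕ) (hs : 0 < s) :
    ∃ (l : ℕ) (p : K), 0 < l ∧ p ≠ 0 ∧ p ∈ B.O ∧ ∀ P ∈ V, F.e P = 0 → F.Ord P p (s * (R.a0 * l)) 0 ∧
      ((∃ q : MvPolynomial (Fin R.nw) ℂ, q ≠ 0 ∧
        P.1.valuation (MvPolynomial.aeval (fun i => (R.S.z (Sum.inl i) : K)) q) ≠ 1) →
        F.Ord P p (s * (R.a0 * l)) j) := by
  classical
  have key : ∀ W : Finset (PD K), ∃ (N : ℕ) (f : K), f ≠ 0 ∧ F.Sec (R.A * N) f (R.a0 * N) ∧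
      ∀ P ∈ W, F.Good P → F.e P = 0 → (∃ q : MvPolynomial (Fin R.nw) ℂ, q ≠ 0 ∧
        P.1.valuation (MvPolynomial.aeval (fun i => (R.S.z (Sum.inl i) : K)) q) ≠ 1) →
        F.Ord P f (R.a0 * N) 1 := fun W => by
    induction W using Finset.induction_on with
    | empty => exact ⟨0, 1, one_ne_zero, by simpa using F.sec_const 1, by simp⟩
    | insert Q W _ ih =>
      obtain ⟨N, f, f0, h1, h2⟩ := ih
      by_cases hQ : F.Good Q ∧ F.e Q = 0 ∧ ∃ q : MvPolynomial (Fin R.nw) ℂ, q ≠ 0 ∧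
        Q.1.valuation (MvPolynomial.aeval (fun i => (R.S.z (Sum.inl i) : K)) q) ≠ 1
      · obtain ⟨N', f', f0', h1', h2'⟩ := R.exists_van hQ.1 hQ.2.1 hQ.2.2
        refine ⟨N + N', f * f', mul_ne_zero f0 f0', by
          rw [mul_add, mul_add]; exact h1.pmul h1', fun P hP g1 g2 g3 => ?_⟩
        rw [mul_add]
        rcases Finset.mem_insert.1 hP with rfl | hP
        · simpa using (h1.good P g1 g2).pmul h2'
        · simpa using (h2 P hP g1 g2 g3).pmul (h1'.good P g1 g2)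
      · refine ⟨N, f, f0, h1, fun P hP g1 g2 g3 => ?_⟩
        rcases Finset.mem_insert.1 hP with rfl | hP
        · exact absurd ⟨g1, g2, g3⟩ hQ
        · exact h2 P hP g1 g2 g3
  obtain ⟨N, f, f0, h1, h2⟩ := key V
  obtain ⟨A, hA⟩ := hk
  obtain ⟨b, p, hb, ⟨b1, rfl⟩, p0, h3, h4⟩ := hA V 1
  have hb1 : 0 < b1 := Nat.pos_of_ne_zero (by rintro rfl; simp at hb)
  set l' := R.A * N * j + j + 1 with hl
  have e : s * (R.a0 * (N * j + b1 * l')) = (R.a0 * N * j + R.a0 * b1 * l') * s := by ring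
  have hs' : (1 : ℤ) ≤ s := by exact_mod_cast hs
  refine ⟨N * j + b1 * l', (f ^ j * p ^ l') ^ s, by positivity,
    pow_ne_zero _ (mul_ne_zero (pow_ne_zero _ f0) (pow_ne_zero _ p0)),
    B.O.pow_mem (B.O.mul_mem (B.O.pow_mem h1.mem _) (B.O.pow_mem h3.mem _)) _, fun P hP he => ?_⟩
  rw [e]
  have j0 : (0 : ℤ) ≤ j := Int.natCast_nonneg j
  by_cases hg : F.Good P
  · refine ⟨by simpa using (((h1.good P hg he).ppow j).pmul ((h3.good P hg he).ppow l')).ppow s,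
      fun hq => ((((h2 P hP hg he hq).ppow j).pmul ((h3.good P hg he).ppow l')).ppow s).pmono ?_⟩
    nlinarith
  · have := (((h1.all P).ppow j).pmul ((h4 P hP hg).ppow l')).ppow s
    have h5 : (j : ℤ) ≤ (-((R.A * N * (1 + F.e P) : ℕ) : ℤ) * j + 1 * l') * s := by
      rw [he, hl]
      push_cast
      nlinarith
    exact ⟨this.pmono (j0.trans h5), fun _ => this.pmono h5⟩

end sec

theorem Dat.Ov.pmono {d : Dat δ K ν M} {C : Cht δ K} {i0 : δ} {σ : Tr C.O d.B.O} {g : K}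
    {T x y : ℝ} (h : d.Ov C i0 σ g T x) (hy : y ≤ x) : d.Ov C i0 σ g T y := by
  obtain ⟨e, he, h⟩ := h
  refine ⟨e, he, fun c0 h0 h1 ε hε => ?_⟩
  obtain ⟨A, hA⟩ := h c0 h0 h1 ε hε
  have h2 : ∀ᶠ c in 𝓝 c0, ‖c (C.z i0)‖ < 1 :=
    (Pt.continuous_apply (C.z i0)).continuousAt.norm.eventually (gt_mem_nhds (by simp [h0]))
  refine ⟨|A|, ?_⟩
  filter_upwards [hA, h2] with c h3 h4 h5
  refine (h3 h5).trans ((mul_le_mul_of_nonneg_right (le_abs_self A) (by positivity)).trans ?_)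
  exact mul_le_mul_of_nonneg_left
    (Real.rpow_le_rpow_of_exponent_ge (norm_pos_iff.2 h5) h4.le (by linarith)) (abs_nonneg A)

variable [IsScalarTower ℂ K M] {d : Dat δ K ν M} {M0 n : ℕ} {Γ : Type} [Group Γ]
  {c : G.Coc (Pt d.B.O) Γ} {F : Prof d.fc d.η d.k (d.Dn M0) n c}

theorem Prof.Ord.ov {P : PD K} {g : K} {a : ℕ} {j : ℤ} (h : F.Ord P g a j) :
    d.Ov (F.bd P).C (F.bd P).i0 (F.bd P).τ g (M0 * a : ℕ) j := by
  obtain ⟨e, he, H⟩ := (F.bd P).mem_gen.1 ((Bdy.Ge.bound h).and (F.hi P))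
  refine ⟨e, ((F.bd P).val_iff e).1 he, fun c0 h0 h1 ε hε => ?_⟩
  obtain ⟨⟨κ, κ0, h2⟩, h3⟩ := H c0 h0 h1
  have h4 : ∀ᶠ c in 𝓝 c0, ‖c ((F.bd P).C.z (F.bd P).i0)‖ < 1 :=
    (Pt.continuous_apply _).continuousAt.norm.eventually (gt_mem_nhds (by simp [h0]))
  refine ⟨κ ^ 2, ?_⟩
  filter_upwards [(F.bd P).mem_near.1 (h2.and (h3 (ε / (a + 1)) (by positivity))), h4]
    with x h5 h6 h7
  obtain ⟨⟨-, h8⟩, h9⟩ := h5 h7
  rw [(F.bd P).ev_z h7] at h8 h9
  set t := ‖x ((F.bd P).C.z (F.bd P).i0)‖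
  have t0 : 0 < t := norm_pos_iff.2 h7
  have D0 : 0 ≤ d.Dd ((F.bd P).τ.map x) ^ M0 := pow_nonneg ENNReal.toReal_nonneg _
  rw [Real.rpow_natCast, pow_mul]
  calc _ ≤ (κ * t ^ (j - F.al P * a)) ^ 2 * (t ^ (2 * F.al P - ε / (a + 1) : ℝ)) ^ a := by gcongr
    _ = κ ^ 2 * t ^ (2 * j - ε / (a + 1) * a : ℝ) := by
      rw [mul_pow, mul_assoc, ← Real.rpow_intCast, ← Real.rpow_mul_natCast t0.le,
        ← Real.rpow_mul_natCast t0.le, ← Real.rpow_add t0]
      congr 2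
      push_cast
      ring
    _ ≤ _ := by
      refine mul_le_mul_of_nonneg_left (Real.rpow_le_rpow_of_exponent_ge t0 h6.le ?_) (by positivity)
      have : ε / (a + 1) * a ≤ ε := by
        rw [div_mul_eq_mul_div, div_le_iff₀ (by positivity)]
        nlinarith
      linarith

theorem Prof.e_eq_zero (F : Prof d.fc d.η d.k (d.Dn M0) n c) {P : PD K}
    (h : d.E0 (F.bd P).C P.1) : F.e P = 0 := by
  have h1 := F.he P
  rw [show P.1.valuation ((d.η : K) / (F.bd P).J ^ d.k) = 1 from h] at h1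
  by_contra h0
  exact (pow_lt_one₀ zero_le (F.bd P).val_lt h0).ne' h1

/-- the key section in the form used at the end -/
theorem key_out (h0 : 0 < M0) {R : Desc F} (H : Key R) : d.KeyOut := by
  classical
  intro V hV l hl
  obtain ⟨A, hA⟩ := H
  let W : Finset (PD K) := V.attach.image fun v => ⟨v.1, hV v.1 v.2⟩
  refine ⟨(A * l * (1 + W.sup F.e) : ℕ), fun b0 => ?_⟩
  obtain ⟨b, p, hb, -, p0, h3, h4⟩ := hA W b0
  refine ⟨M0 * (b * l), ⟨p ^ l, (h3.ppow l).mem⟩, by nlinarith [Nat.mul_le_mul hb hl, Nat.zero_le (b * l)],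
    ⟨M0 * b, by ring⟩, fun h => pow_ne_zero l p0 (congrArg Subtype.val h), fun v hv => ?_⟩
  let P : PD K := ⟨v, hV v hv⟩
  have hP : P ∈ W := Finset.mem_image.2 ⟨⟨v, hv⟩, Finset.mem_attach _ _, rfl⟩
  refine ⟨(F.bd P).C, (F.bd P).i0, (F.bd P).τ, (F.bd P).cen, (F.bd P).hτ,
    ((h3.ppow l).all P).ov.pmono ?_, fun h5 => ?_⟩
  · have : A * l * (1 + F.e P) ≤ A * l * (1 + W.sup F.e) := by
      gcongr
      exact Finset.le_sup hP
    rw [Int.cast_neg, Int.cast_natCast, neg_le_neg_iff]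
    exact_mod_cast this
  · by_cases hg : F.Good P
    · simpa using ((h3.ppow l).good P hg (F.e_eq_zero h5)).ov
    · exact ((h4 P hP hg).ppow l).ov.pmono (by push_cast; positivity)

/-- the base data in the form used at the end -/
theorem base_out (h0 : 0 < M0) {R : Desc F} (H : Key R) {d' : Dat (Fin R.nw ⊕ Fin R.ng) K ν M}
    (h : d.Re d') (hz : ∀ i, (d'.B.z i : K) = R.S.z i) (hle : R.S.O ≤ d'.B.O)
    (hg : R.g0⁻¹ ∈ d'.B.O) : Nonempty d'.BaseOut := by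
  classical
  have hm : 0 < d'.m := lt_of_lt_of_le (by norm_num) d'.hm
  let g : d'.B.O := ⟨R.g0, h.sub.le R.sec0.mem⟩
  have hu : IsUnit g := IsUnit.of_mul_eq_one ⟨_, hg⟩ (Subtype.ext (mul_inv_cancel₀ R.pay_g0))
  let j := Subalgebra.inclusion hle
  have e1 : ∀ b : Pt d'.B.O, (b.res j).res R.inc = h.ρ b := fun b => Pt.ext fun a =>
    congrArg b (Subtype.ext (R.inc_eq a))
  have e2 : ∀ b : Pt d'.B.O, (b.res j).ev R.g0 = b g := fun b => by
    have e := R.inc_eq ⟨R.g0, R.sec0.mem⟩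
    exact ((congrArg (b.res j).ev e).symm.trans (Pt.ev_coe _ _)).trans (congrArg b (Subtype.ext e))
  have e3 : ∀ (b : Pt d'.B.O) i, (b.res j) (R.S.z (Sum.inl i)) = d'.w b i := fun b i => by
    rw [Dat.w, d'.B.π_eq]
    exact congrArg b (Subtype.ext (hz _).symm)
  have e4 : ∀ b : Pt d'.B.O, ‖b (g ^ d'.m)‖ ^ 2 * d'.Dd b ^ (d'.m * (M0 * R.a0)) =
      (‖(b.res j).ev R.g0‖ ^ 2 * d.Dn M0 ((b.res j).res R.inc) ^ R.a0) ^ d'.m := fun b => by
    rw [e1, e2, (h.Dd b).1, map_pow, norm_pow, Dat.Dn]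
    ring
  refine ⟨⟨g ^ d'.m, hu.pow _, M0 * R.a0, Nat.mul_pos h0 R.pos, fun b => ?_, fun V s hV => ?_⟩⟩
  · filter_upwards [(Pt.continuous_res j).continuousAt.eventually (R.const (b.res j))] with b' h1 h2
    rw [e4, e4, h1 fun i => by rw [e3, e3, h2]]
  · let W : Finset (PD K) := V.attach.image fun v => ⟨v.1, hV v.1 v.2⟩
    obtain ⟨l, p, l0, p0, pm, hp⟩ := R.pay H W s d'.m hm
    refine ⟨l, ⟨p, h.sub.le pm⟩, l0, fun e => p0 (congrArg Subtype.val e), fun v hv => ?_⟩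
    let P : PD K := ⟨v, hV v hv⟩
    have hP : P ∈ W := Finset.mem_image.2 ⟨⟨v, hv⟩, Finset.mem_attach _ _, rfl⟩
    obtain ⟨C', i', σ', h1, h2, h3, h4⟩ := h.exV (F.bd P).cen (F.bd P).hτ
    refine ⟨C', i', σ', h1, h2, fun h5 => ?_⟩
    obtain ⟨h6, h7⟩ := hp P hP (F.e_eq_zero (h3.1 h5))
    rw [show d'.m * (M0 * R.a0) * l = M0 * (d'.m * (R.a0 * l)) by ring]
    refine ⟨h4 _ _ _ (by simpa using h6.ov), fun h8 => h4 _ _ _ ?_⟩
    have := (h7 (by simpa [Dat.Triv, hz] using h8)).ov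
    rwa [Int.cast_natCast] at this

end Pool.Agent.Lib.MP_5c318e_ag
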