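import Pool.Agent.Lib.MP_5c318e_ag.D.Ten
import Pool.Agent.Lib.MP_5c318e_ag.N.T2
import Pool.Agent.Lib.MP_5c318e_ag.S.Low

/-! The first tube integral. -/

set_option autoImplicit false

namespace Pool.Agent.Lib.MP_5c318e_ag

open MeasureTheory Set Filter Topology Matrix
open scoped ENNReal

noncomputable section

namespace Q0

variable {Ω : Type} [MeasurableSpace Ω] {μ : Measure Ω} {r : ℕ} {τ : Ω → Fin r → ℂ} {p c : ℝ}
  {C : ℝ≥0∞}

theorem nB_le (hr : 0 < r) (hp : 0 < p) (hc : 0 ≤ c) (h : N.Lct μ τ p c C) : N.nB μ τ p ≤ C := by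
  have h1 := h (Pi.single ⟨0, hr⟩ 1) (by simp)
  have h2 : ‖(Pi.single ⟨0, hr⟩ 1 : Fin r → ℂ)‖ₑ = 1 := by
    rw [← ofReal_norm, Pi.norm_single]
    simp
  rw [h2, ENNReal.one_rpow, mul_one] at h1
  refine le_trans (lintegral_mono fun x => ?_) h1
  rw [single_one_dotProduct]
  refine le_trans ?_ (mul_le_mul_right (N.rpow_neg_anti hc (N.enorm_le_pi_enorm (τ x) _)) _)
  by_cases h0 : ‖τ x‖ₑ = 0
  · rw [h0, ENNReal.zero_rpow_of_pos hp]
    exact zero_le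
  · rw [← ENNReal.rpow_add _ _ h0 enorm_ne_top, add_neg_cancel_right]

theorem blocks [SigmaFinite μ] (hτ : Measurable τ) (hc : 0 < c) (hC : C ≠ 0) (h : N.Lct μ τ p c C)
    {β κ : Type} [Fintype β] [Fintype κ] (e : β × Fin r ≃ κ) :
    ∫⁻ x : κ → Ω, (∏ k, ‖τ (x k)‖ₑ ^ (p + c)) * ∏ l, ‖N.dt τ fun i => x (e (l, i))‖ₑ ^ (-c)
      ∂(Measure.pi fun _ => μ) ≤ (C ^ r) ^ Fintype.card β := by
  let G : (Fin r → Ω) → ℝ≥0∞ := fun z => (∏ j, ‖τ (z j)‖ₑ ^ (p + c)) * ‖N.dt τ z‖ₑ ^ (-c)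
  have hG : Measurable G :=
    (N.measurable_prod_apply (g := fun _ y => ‖τ y‖ₑ ^ (p + c))
      fun _ => hτ.enorm.pow_const _).mul ((N.measurable_dt hτ).enorm.pow_const _)
  have e1 : ∀ x : κ → Ω, (∏ k, ‖τ (x k)‖ₑ ^ (p + c)) *
      ∏ l, ‖N.dt τ fun i => x (e (l, i))‖ₑ ^ (-c) = ∏ l, G fun i => x (e (l, i)) := fun x => by
    rw [← e.prod_comp, Fintype.prod_prod_type, Finset.prod_mul_distrib]
  have hm : Measurable fun x : β × Fin r → Ω => ∏ l, G fun i => x (l, i) :=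
    Finset.measurable_prod _ fun l _ =>
      hG.comp (measurable_pi_iff.2 fun i => measurable_pi_apply _)
  have hm' : Measurable fun x : κ → Ω => ∏ l, G fun i => x (e (l, i)) :=
    Finset.measurable_prod _ fun l _ =>
      hG.comp (measurable_pi_iff.2 fun i => measurable_pi_apply _)
  simp only [e1]
  rw [N.lintegral_pi_equiv e hm']
  simp only [Equiv.symm_apply_apply]
  rw [N.lintegral_pi_curry hm, N.lintegral_pi_prod (fun _ : β => G) fun _ => hG, Finset.prod_const]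
  exact pow_le_pow_left' (h.det hτ hc hC) _

omit [MeasurableSpace Ω] in
theorem dt_vecMul (A : Matrix (Fin r) (Fin r) ℂ) (x : Fin r → Ω) :
    N.dt (fun y => τ y ᵥ* A) x = N.dt τ x * A.det := by
  rw [N.dt, N.dt, ← det_mul]
  rfl

theorem measurable_vecMul (hτ : Measurable τ) (A : Matrix (Fin r) (Fin r) ℂ) :
    Measurable fun y => τ y ᵥ* A :=
  measurable_pi_iff.2 fun i => by
    show Measurable fun y => ∑ j, τ y j * A j i
    exact Finset.measurable_sum _ fun j _ => ((measurable_pi_apply j).comp hτ).mul_const _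

theorem enorm_le {n : Type} [Fintype n] {z : ℂ} {C : NNReal} {v : n → Fin r → ℂ}
    (h : ‖z‖ ≤ C * ∏ i, ‖v i‖) : ‖z‖ₑ ≤ C * ∏ i, ‖v i‖ₑ := by
  rw [← ofReal_norm]
  refine (ENNReal.ofReal_le_ofReal h).trans (le_of_eq ?_)
  rw [ENNReal.ofReal_mul C.coe_nonneg, ENNReal.ofReal_prod_of_nonneg fun _ _ => norm_nonneg _]
  simp

theorem enorm_prod' {n : Type} [Fintype n] (z : n → ℂ) : ‖∏ i, z i‖ₑ = ∏ i, ‖z i‖ₑ := by
  rw [← ofReal_norm, norm_prod, ENNReal.ofReal_prod_of_nonneg fun _ _ => norm_nonneg _]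
  simp

/-- the fibre integral in a normalised frame -/
theorem fibre [SigmaFinite μ] (hτ : Measurable τ) (hp : 0 ≤ p) (hc : 0 < c) {C : NNReal}
    (hC : C ≠ 0) {A : Matrix (Fin r) (Fin r) ℂ} (hA : A.det ≠ 0)
    (h : N.Lct μ (fun y => τ y ᵥ* A) p c C) {β β' n κ : Type} [Fintype β] [Fintype β'] [Fintype n]
    [Fintype κ] (e : β × n ≃ κ) (e' : β' × Fin r ≃ κ) {S : (n → Ω) → ℂ}
    (hS : ∀ x, ‖S x‖ ≤ C * ∏ i, ‖τ (x i) ᵥ* A‖) :
    ∫⁻ x : κ → Ω, ‖∏ l, S fun j => x (e (l, j))‖ₑ ^ (p + c) *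
      ‖∏ l, N.dt τ fun i => x (e' (l, i))‖ₑ ^ (-c) ∂(Measure.pi fun _ => μ) ≤
      ((C : ℝ≥0∞) ^ Fintype.card β) ^ (p + c) * (‖A.det‖ₑ ^ c) ^ Fintype.card β' *
        ((C : ℝ≥0∞) ^ r) ^ Fintype.card β' := by
  have hpc : 0 ≤ p + c := add_nonneg hp hc.le
  have h0 : ‖A.det‖ₑ ≠ 0 := by simpa using hA
  refine le_trans ?_ (mul_le_mul_right
    (blocks (measurable_vecMul hτ A) hc (ENNReal.coe_ne_zero.2 hC) h e') _)
  rw [← lintegral_const_mul' _ _ (ENNReal.mul_ne_top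
    (ENNReal.rpow_ne_top_of_nonneg hpc (ENNReal.pow_ne_top ENNReal.coe_ne_top))
    (ENNReal.pow_ne_top (ENNReal.rpow_ne_top_of_nonneg hc.le enorm_ne_top)))]
  refine lintegral_mono fun x => ?_
  rw [mul_mul_mul_comm]
  refine mul_le_mul' ?_ (le_of_eq ?_)
  · rw [ENNReal.prod_rpow_of_nonneg hpc, ← ENNReal.mul_rpow_of_nonneg _ _ hpc]
    refine ENNReal.rpow_le_rpow ?_ hpc
    rw [enorm_prod', ← e.prod_comp, Fintype.prod_prod_type, ← Finset.card_univ,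
      ← Finset.prod_const, ← Finset.prod_mul_distrib]
    exact Finset.prod_le_prod' fun l _ => enorm_le (hS _)
  · rw [enorm_prod', ← ENNReal.prod_rpow_of_ne_top fun _ _ => enorm_ne_top, ← Finset.card_univ,
      ← Finset.prod_const, ← Finset.prod_mul_distrib]
    refine Finset.prod_congr rfl fun l _ => ?_
    rw [dt_vecMul, enorm_mul, ENNReal.mul_rpow_of_ne_top enorm_ne_top enorm_ne_top, mul_left_comm,
      ← ENNReal.rpow_add _ _ h0 enorm_ne_top, add_neg_cancel, ENNReal.rpow_zero, mul_one]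

end Q0

variable {ν K M : Type} [Fintype ν] [DecidableEq ν]
  [Field K] [Algebra ℂ K] [Field M] [Algebra ℂ M] [Algebra K M] [IsScalarTower ℂ K M]
  {ε γ κ : Type} [Fintype ε] [DecidableEq ε] [Fintype γ] [DecidableEq γ] [Fintype κ]
  [DecidableEq κ] (d : Dat (ε ⊕ γ) K ν M)

theorem Dat.FlatOut.start {g : d.B.O} (hg : IsUnit g) {a1 : ℕ} (ha : 0 < a1) (Fl : d.FlatOut g a1) :
    ∃ ρ : ℝ, 0 < ρ ∧ ∀ (β β' : Type) [Fintype β] [DecidableEq β] [Fintype β'] [DecidableEq β']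
      (e : β × Fin Fl.n ≃ κ) (e' : β' × Fin d.r ≃ κ) (t c : ℝ), 0 < c → 2 * c ≤ Fl.c0 →
      t + c = 1 - 1 / d.m → ∀ j, ∫⁻ y in {y | ‖d.w y - d.w Fl.b0‖ < ρ},
        d.wt g (c * Fintype.card β' / a1) y *
          d.I3 (d.blk (Fl.S j) e) (d.blk (Fl.S j) e) (d.blk d.sg e') (2 - 2 * t) 0 (2 * c) y
        ∂d.B.D.μ < ⊤ := by
  obtain ⟨ρ, hρ, hq⟩ := Metric.nhds_basis_closedBall.eventually_iff.1
    ((MvPolynomial.continuous_eval Fl.q).continuousAt.eventually_ne Fl.q0)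
  refine ⟨ρ, hρ, fun β β' _ _ _ _ e e' t c hc hc0 ht j => ?_⟩
  have hc2 : 0 < 2 * c := by positivity
  obtain ⟨C, hC⟩ := Fl.tube (2 * c) hc2 hc0 _ (isCompact_closedBall _ ρ) fun a h => hq h
  have hp : (0 : ℝ) ≤ 2 / d.m := by positivity
  have ht' : 2 - 2 * t = 2 / d.m + 2 * c := by
    rw [eq_sub_of_add_eq ht]
    ring
  have hθ : 0 ≤ 2 * (c * Fintype.card β' / a1) := by positivity
  let E : ℝ≥0∞ := ((C : ℝ≥0∞) ^ Fintype.card β) ^ (2 / d.m + 2 * c) *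
    (C : ℝ≥0∞) ^ (2 * (c * Fintype.card β' / a1)) * ((C : ℝ≥0∞) ^ d.r) ^ Fintype.card β'
  have hE : E ≠ ⊤ := ENNReal.mul_ne_top (ENNReal.mul_ne_top
    (ENNReal.rpow_ne_top_of_nonneg (by positivity) (ENNReal.pow_ne_top ENNReal.coe_ne_top))
    (ENNReal.rpow_ne_top_of_nonneg hθ ENNReal.coe_ne_top))
    (ENNReal.pow_ne_top (ENNReal.pow_ne_top ENNReal.coe_ne_top))
  have hm : Measurable fun y : Pt d.B.O => E * ‖y d.η‖ₑ ^ (2 / d.k : ℝ) :=
    ((Pt.continuous_apply d.η).measurable.enorm.pow_const _).const_mul _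
  refine lt_of_le_of_lt ((setLIntegral_mono hm fun y hy => ?_).trans
    (setLIntegral_le_lintegral _ _)) ?_
  · obtain ⟨-, h1, A, hA, h2, h3, h4⟩ := hC y (mem_closedBall_iff_norm.2 (le_of_lt hy))
    have hC0 : C ≠ 0 := fun h => by
      rw [h, NNReal.coe_zero, zero_mul] at h1
      exact absurd h1 (by norm_num)
    have := d.T.sigmaFinite_fib y
    have h5 := Q0.fibre (d.T.measurable_fr d.τ y) hp hc2 hC0 hA h3 e e' (h4 j)
    have h6 : d.I3 (d.blk (Fl.S j) e) (d.blk (Fl.S j) e) (d.blk d.sg e') (2 - 2 * t) 0 (2 * c) y ≤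
        _ := le_trans (le_of_eq (lintegral_congr fun x => by
          simp only [d.tev_blk, d.tev_sg, ht', neg_zero, ENNReal.rpow_zero, mul_one]
          rfl)) h5
    have h7 : (‖A.det‖ₑ ^ (2 * c)) ^ Fintype.card β' ≤
        (C : ℝ≥0∞) ^ (2 * (c * Fintype.card β' / a1)) * ‖y g‖ₑ ^ (2 * (c * Fintype.card β' / a1)) := by
      have e1 : 2 * c * Fintype.card β' = a1 * (2 * (c * Fintype.card β' / a1)) := by
        have : (a1 : ℝ) ≠ 0 := Nat.cast_ne_zero.2 ha.ne'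
        field_simp
      rw [← ENNReal.rpow_mul_natCast, e1, ENNReal.rpow_natCast_mul,
        ← ENNReal.mul_rpow_of_nonneg _ _ hθ]
      refine ENNReal.rpow_le_rpow ?_ hθ
      rw [← ofReal_norm, ← ofReal_norm, ← ENNReal.ofReal_pow (norm_nonneg _),
        ← ENNReal.ofReal_coe_nnreal, ← ENNReal.ofReal_mul C.coe_nonneg]
      exact ENNReal.ofReal_le_ofReal h2
    have h0 : ‖y g‖ₑ ≠ 0 := by simpa using (hg.map y).ne_zero
    have h8 : ‖y g‖ₑ ^ (-(2 * (c * Fintype.card β' / a1))) *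
        ‖y g‖ₑ ^ (2 * (c * Fintype.card β' / a1)) = 1 := by
      rw [← ENNReal.rpow_add _ _ h0 enorm_ne_top, neg_add_cancel, ENNReal.rpow_zero]
    refine (mul_le_mul_right (h6.trans (mul_le_mul_left (mul_le_mul_right h7 _) _)) _).trans
      (le_of_eq ?_)
    rw [Dat.wt, ← mul_one (E * _), ← h8]
    ring
  · rw [lintegral_const_mul' _ _ hE]
    exact ENNReal.mul_lt_top hE.lt_top d.fin

theorem Dat.FlatOut.Nx_le {g : d.B.O} {a1 : ℕ} (Fl : d.FlatOut g a1) {Q : Set (ε → ℂ)}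
    (hQ : IsCompact Q) (hq : ∀ a ∈ Q, MvPolynomial.eval a Fl.q ≠ 0) :
    ∃ C : ℝ, ∀ b, d.w b ∈ Q → ∀ j, d.Nx (Fl.S j) b ≤ ENNReal.ofReal C := by
  obtain ⟨C, hC⟩ := Fl.tube Fl.c0 Fl.c0pos le_rfl Q hQ hq
  have hp : (0 : ℝ) < 2 / d.m := div_pos two_pos (Nat.cast_pos.2 (by have := d.hm; omega))
  have hE : (C : ℝ≥0∞) ^ (2 / d.m : ℝ) * (C : ℝ≥0∞) ^ Fl.n ≠ ⊤ := ENNReal.mul_ne_top
    (ENNReal.rpow_ne_top_of_nonneg hp.le ENNReal.coe_ne_top) (ENNReal.pow_ne_top ENNReal.coe_ne_top)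
  refine ⟨_, fun b hb j => le_trans ?_ (ENNReal.ofReal_toReal hE).ge⟩
  obtain ⟨-, -, A, -, -, h3, h4⟩ := hC b hb
  have := d.T.sigmaFinite_fib b
  have hm : Measurable fun y => ‖d.f b y ᵥ* A‖ₑ ^ (2 / d.m : ℝ) :=
    (Q0.measurable_vecMul (d.T.measurable_fr d.τ b) A).enorm.pow_const _
  calc d.Nx (Fl.S j) b ≤ ∫⁻ p : Fin Fl.n → d.T.Fib b, (C : ℝ≥0∞) ^ (2 / d.m : ℝ) *
        ∏ i, ‖d.f b (p i) ᵥ* A‖ₑ ^ (2 / d.m : ℝ) ∂(Measure.pi fun _ => d.μ b) := by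
        refine lintegral_mono fun p => ?_
        rw [ENNReal.prod_rpow_of_nonneg hp.le, ← ENNReal.mul_rpow_of_nonneg _ _ hp.le]
        exact ENNReal.rpow_le_rpow (Q0.enorm_le (h4 j p)) hp.le
    _ ≤ _ := by
        rw [lintegral_const_mul' _ _ (ENNReal.rpow_ne_top_of_nonneg hp.le ENNReal.coe_ne_top),
          N.lintegral_pi_prod (fun _ y => ‖d.f b y ᵥ* A‖ₑ ^ (2 / d.m : ℝ)) fun _ => hm,
          Finset.prod_const, Finset.card_fin]
        exact mul_le_mul_right (pow_le_pow_left' (Q0.nB_le d.hr hp Fl.c0pos.le h3) _) _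

end

end Pool.Agent.Lib.MP_5c318e_ag
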