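import Pool.Agent.Lib.MP_5c318e_ag.Z.DDefs
import Pool.Agent.Lib.MP_5c318e_ag.P.Diag

/-! Ratios of the diagonals of tensors. -/

set_option autoImplicit false

namespace Pool.Agent.Lib.MP_5c318e_ag

open Set

variable {δ ν K M : Type} [Fintype δ] [DecidableEq δ] [Fintype ν] [DecidableEq ν]
  [Field K] [Algebra ℂ K] [Field M] [Algebra ℂ M] [Algebra K M] [IsScalarTower ℂ K M]

set_option linter.unusedSectionVars false in
theorem Dat.ratio (d : Dat δ K ν M) {κ : Type} [Fintype κ] [DecidableEq κ] [Nonempty κ] {s : ℕ}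
    (U : Fin s → d.Ten κ) (b0 : Pt d.B.O)
    (h : ∀ ξ : Fin d.r → ℂ, (∀ j, d.tq (U j) b0 ξ = 0) → ξ = 0) {P : M} (hP : P ≠ 0) :
    (∃ j, d.diag (U j) ≠ 0) ∧ ∀ φ ψ, Plu d.T.dx d.m φ → Plu d.T.dx d.m ψ →
      IsAlgebraic (IntermediateField.adjoin K
        {g | ∃ s ∈ {s | s ≠ 0 ∧ ∃ j, s = d.diag (U j) * P}, ∃ t ∈ {s | s ≠ 0 ∧ ∃ j, s = d.diag (U j) * P},
          g = s / t}) (φ / ψ) := by
  have e : ∀ j, MvPolynomial.aeval (fun i => (d.τ i : M)) (Fl.dg fun I => (U j I : K)) =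
      d.diag (U j) := fun j => by simp [Fl.dg, Dat.diag]
  obtain ⟨h1, h2⟩ := Fl.alg_of_diag b0 (fun j I => (U j I : K)) (fun j I => b0.reg_coe _)
    (fun ξ hξ => h ξ fun j => by simpa [Fl.dg, Dat.tq] using hξ j) (fun i => (d.τ i : M))
    ⟨⟨0, d.hr⟩, d.ind.ne_zero _⟩
  simp only [e] at h1 h2
  exact ⟨h1, fun φ ψ hφ hψ => h2 P {s | s ≠ 0 ∧ ∃ j, s = d.diag (U j) * P} hP
    (fun j hj => ⟨mul_ne_zero hP hj, j, mul_comm _ _⟩) φ ((d.span φ).1 hφ) ψ ((d.span ψ).1 hψ)⟩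

end Pool.Agent.Lib.MP_5c318e_ag
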