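import Pool.Agent.Lib.MP_5c318e_ag.Z.DDefs
import Pool.Agent.Lib.MP_5c318e_ag.Fp.Coef
import Pool.Agent.Lib.MP_5c318e_ag.Fp.CoefB
import Pool.Agent.Lib.MP_5c318e_ag.S.SatPi
import Pool.Agent.Lib.MP_5c318e_ag.S.Sat
import Pool.Agent.Lib.MP_5c318e_ag.S.Conn
import Pool.Agent.Lib.MP_5c318e_ag.C.Siz

/-! Holomorphic functions on a fibre power with finite norm are tensors. -/

set_option autoImplicit false
set_option linter.unusedSectionVars false

namespace Pool.Agent.Lib.MP_5c318e_ag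

open MeasureTheory Set Filter Topology Matrix
open scoped ENNReal

variable {δ ν K M : Type} [Fintype δ] [DecidableEq δ] [Fintype ν] [DecidableEq ν]
  [Field K] [Algebra ℂ K] [Field M] [Algebra ℂ M] [Algebra K M] [IsScalarTower ℂ K M]
  (d : Dat δ K ν M) {κ : Type} [Fintype κ] [DecidableEq κ]

theorem Dat.cont_f (b : Pt d.B.O) : Continuous (d.f b) :=
  continuous_pi fun i => (Pt.continuous_apply (d.τ i)).comp continuous_subtype_val

/-- saturation in the sup norm of the frame -/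
theorem Dat.sat_f : ∀ᵐ b ∂d.B.D.μ, ∀ u : d.T.Fib b → ℂ, (d.T.fib b).Hol u →
    ∫⁻ p, ENNReal.ofReal (‖u p‖ ^ 2) * ‖d.f b p‖ₑ ^ (-(2 * (d.m - 1) / d.m) : ℝ) ∂d.μ b < ⊤ →
    ∃ a : Fin d.r → ℂ, ∀ p, u p = ∑ i, a i * p.1 (d.τ i) := by
  have m1 : (3 : ℝ) ≤ d.m := by exact_mod_cast d.hm
  filter_upwards [d.T.sat (by have := d.hm; omega) d.span] with b hb u hu hi
  obtain ⟨a, ha⟩ := hb 1 u one_ne_zero (fun p _ => hu p) (lt_of_le_of_lt (lintegral_mono fun p =>
    mul_le_mul' le_rfl (by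
      have h1 : ‖d.f b p‖ₑ ^ (2 : ℝ) ≤ ENNReal.ofReal (∑ i, ‖p.1 (d.τ i)‖ ^ 2) := by
        rw [ENNReal.rpow_two, ← ofReal_norm, ← ENNReal.ofReal_pow (norm_nonneg _)]
        refine ENNReal.ofReal_le_ofReal ((Real.le_sqrt (norm_nonneg _) (by positivity)).1
          ((pi_norm_le_iff_of_nonneg (Real.sqrt_nonneg _)).2 fun i => Real.le_sqrt_of_sq_le ?_))
        exact Finset.single_le_sum (f := fun i => ‖p.1 (d.τ i)‖ ^ 2) (fun _ _ => by positivity)
          (Finset.mem_univ i)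
      rw [ENNReal.rpow_neg, ENNReal.rpow_neg, mul_div_assoc, ENNReal.rpow_mul]
      exact ENNReal.inv_le_inv.2 (ENNReal.rpow_le_rpow h1 (div_nonneg (by linarith) (by linarith)))))
    hi)
  exact ⟨a, fun p => ha p (by simp)⟩

theorem Dat.sat_pow (D : RD (δ ⊕ κ × ν) (d.T.Pow κ))
    (hb : ∀ q i, D.π q (Sum.inl i) = d.B.D.π q.1.1 i)
    (hp : ∀ q k i, D.π q (Sum.inr (k, i)) = q.1.2 k (d.T.X.z (Sum.inr i)))
    {F : Pt d.B.O × (κ → Pt d.T.X.O) → ℂ} (hF : D.Hol fun q => F q.1) (n : ℕ)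
    (h : ∫⁻ b, ENNReal.ofReal (Real.exp (-(n * d.B.siz b))) * ∫⁻ p : κ → d.T.Fib b,
      ‖F (b, fun j => (p j).1)‖ₑ ^ 2 * ∏ j, ‖d.f b (p j)‖ₑ ^ (-(2 * (d.m - 1) / d.m) : ℝ)
        ∂(Measure.pi fun _ => d.μ b) ∂d.B.D.μ < ⊤) :
    ∃ U : d.Ten κ, ∀ b (p : κ → d.T.Fib b), F (b, fun j => (p j).1) = d.tev U b p := by
  have m0 : 0 < d.m := by have := d.hm; omega
  have hπ : D.π = (d.T.pow κ).π := funext fun q => funext fun i => by
    rcases i with i | ⟨k, i⟩
    · rw [hb, d.T.pow_inl]; rfl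
    · rw [hp, d.T.pow_inr]; rfl
  have hU : (d.T.pow κ).Hol fun q => F q.1 := fun q => by
    have := RSub.sec_map D (d.T.pow κ) (j := id) (p := q) continuousAt_id
      (.of_forall fun q => congrFun hπ q)
    refine DifferentiableAt.congr_of_eventuallyEq ?_ (this.mono fun z e => congrArg (fun q => F q.1) e)
    rw [← hπ]
    exact hF q
  obtain ⟨u, ⟨L1, l1, hu⟩, hup⟩ := d.up
  obtain ⟨v, ⟨L2, l2, hv⟩, hlo⟩ := d.low
  let E : Pt d.B.O → ℝ := fun b => Real.exp ((L1 + L2) * d.B.siz b + (L1 + L2))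
  have E1 : ∀ b, 1 ≤ E b := fun b => Real.one_le_exp (by have := d.B.siz_nonneg b; positivity)
  have hup' : ∀ b, N.nB (d.μ b) (d.f b) (2 / d.m) ≤ ENNReal.ofReal (E b) := fun b =>
    (hup b).trans (ENNReal.ofReal_le_ofReal ((hu b).trans (Real.exp_le_exp.2 (by
      have := d.B.siz_nonneg b; nlinarith))))
  have hlo' : ∀ b a, ‖a‖ₑ ^ (2 / d.m : ℝ) ≤
      ENNReal.ofReal (E b) * N.nN (d.μ b) (d.f b) (2 / d.m) a := fun b a =>
    (hlo b a).trans (mul_le_mul' (ENNReal.ofReal_le_ofReal ((hv b).trans (Real.exp_le_exp.2 (by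
      have := d.B.siz_nonneg b; nlinarith)))) le_rfl)
  have m1 : Measurable fun q : d.T.Pow κ => ‖F q.1‖ₑ ^ 2 := hU.cont.measurable.enorm.pow_const 2
  have m2 : ∀ j, Measurable fun q : d.T.Pow κ =>
      ‖fun i => q.p j (d.τ i)‖ₑ ^ (-(2 * (d.m - 1) / d.m) : ℝ) := fun j => by
    have : Continuous fun (q : d.T.Pow κ) i => q.p j (d.τ i) :=
      continuous_pi fun i => (Pt.continuous_apply (d.τ i)).comp (Rel.Pow.cont_p j)
    exact this.measurable.enorm.pow_const _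
  have mJ := (d.T.pow_fubini (m1.fun_mul (Finset.measurable_prod Finset.univ fun j _ => m2 j))).1
  have mE : Measurable fun b => ENNReal.ofReal (Real.exp (-(n * d.B.siz b))) :=
    ((d.B.exh.1.1.cont.measurable.const_mul _).neg.exp).ennreal_ofReal
  obtain ⟨a, h1, h2⟩ := d.T.coef_hol (τ := d.τ) hU (fun b a ha => by
    have := hlo' b a
    rw [N.nN, lintegral_congr (g := fun _ => 0) fun p => by
      rw [show a ⬝ᵥ d.f b p = 0 from ha p]; simp [m0], lintegral_zero, mul_zero] at this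
    simpa [m0, m0.le, not_lt.2 (show (0 : ℝ) ≤ 2 / d.m by positivity)] using this) (by
    filter_upwards [ae_lt_top (mE.mul mJ) h.ne, d.sat_f] with b h1 h2
    refine (d.T.fib b).sat_pi (fun i => d.T.fib_hol b (d.τ i))
      ((d.cont_f b).measurable.enorm.pow_const _) (.of_forall fun p => by
        have m1 : (1 : ℝ) ≤ d.m := by exact_mod_cast m0
        simpa using fun _ => div_nonneg (by linarith) (by linarith)) h2
      (hU.cont.comp (Rel.Pow.cont_mk b)) (fun k p => d.T.slice hU b p k) ?_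
    simp only [ENNReal.ofReal_pow (norm_nonneg _), ofReal_norm]
    exact ENNReal.lt_top_of_mul_ne_top_right h1.ne (by simp [Real.exp_pos]))
  have h3 : ∀ I, ∃ ψ : d.B.O, ∀ b, a b I = b ψ := fun I => by
    refine d.B.rat_wt d.T.finB (h1 I) two_pos
      (om := fun b => E b ^ (2 * Fintype.card κ * d.m) * Real.exp (d.B.siz b) ^ n)
      (fun b => by have := E1 b; positivity)
      ((Md.pow d.B.siz_nonneg ⟨L1 + L2, by positivity, fun _ => le_rfl⟩
        (fun b => by have := E1 b; positivity) _).mul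
        (Md.exp.pow d.B.siz_nonneg (fun _ => by positivity) n) fun _ => by positivity)
      (lt_of_le_of_lt (lintegral_mono fun b => ?_) h)
    have e0 : 0 < E b ^ (2 * Fintype.card κ * d.m) := by have := E1 b; positivity
    have h4 := Fp.coef_le (d.μ b) (d.cont_f b).measurable m0 (ENNReal.one_le_ofReal.2 (E1 b))
      ENNReal.ofReal_ne_top (hup' b) (hlo' b) (a b) I
    have h5 : ∀ p : κ → d.T.Fib b, F (b, fun j => (p j).1) =
      ∑ I, a b I * ∏ k, d.f b (p k) (I k) := h2 b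
    simp only [h5]
    rw [← div_div, ← Real.exp_nat_mul (d.B.siz b), div_eq_inv_mul, ← Real.exp_neg,
      ENNReal.ofReal_mul (Real.exp_pos _).le, ENNReal.ofReal_div_of_pos e0, Real.rpow_two,
      ENNReal.ofReal_pow (norm_nonneg _), ofReal_norm, ENNReal.ofReal_pow (by linarith [E1 b])]
    refine mul_le_mul' le_rfl (ENNReal.div_le_of_le_mul' h4)
  choose U hU' using h3
  exact ⟨U, fun b p => (h2 b p).trans (Finset.sum_congr rfl fun I _ => by rw [hU']; rfl)⟩

end Pool.Agent.Lib.MP_5c318e_ag
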