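import Pool.Agent.Lib.MP_5c318e_ag.D.Ten
import Pool.Agent.Lib.MP_5c318e_ag.D.SatZ
import Pool.Agent.Lib.MP_5c318e_ag.Fp.Pw
import Pool.Agent.Lib.MP_5c318e_ag.C.Siz
import Pool.Agent.Lib.MP_5c318e_ag.W.HL
import Pool.Agent.Lib.MP_5c318e_ag.W.Step

/-! One extension step for tensors on a fibre power. -/

set_option autoImplicit false
set_option linter.unusedSectionVars false

namespace Pool.Agent.Lib.MP_5c318e_ag

open MeasureTheory Set Filter Topology Matrix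
open scoped ENNReal

noncomputable section

namespace StpD

theorem md_rpow {S : Type} {ψ u : S → ℝ} (h : Md ψ u) (u0 : ∀ p, 0 ≤ u p) {s : ℝ} (hs : 0 ≤ s) :
    Md ψ fun p => u p ^ s := by
  obtain ⟨L, L0, hL⟩ := h
  refine ⟨L * s, by positivity, fun p => (Real.rpow_le_rpow (u0 p) (hL p) hs).trans_eq ?_⟩
  rw [← Real.exp_mul]; ring_nf

theorem md_nat {S : Type} {ψ u : S → ℝ} (h : Md ψ u) (h0 : ∀ p, 0 ≤ ψ p) :
    ∃ n : ℕ, ∀ p, u p ≤ Real.exp n * Real.exp (n * ψ p) := by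
  obtain ⟨L, L0, hL⟩ := h
  obtain ⟨n, hn⟩ := exists_nat_ge L
  refine ⟨n, fun p => (hL p).trans ?_⟩
  rw [← Real.exp_add]
  exact Real.exp_le_exp.2 (by nlinarith [h0 p])

theorem unit_pow {O : Type} [CommRing O] [Algebra ℂ O] {a : O} (ha : IsUnit a) (s : ℝ) :
    ∃ (a' : O) (s' : ℝ), 0 ≤ s' ∧ ∀ y : Pt O,
      (ENNReal.ofReal ((‖y a'‖ ^ 2) ^ s'))⁻¹ = ‖y a‖ₑ ^ (-(2 * s)) := by
  rcases le_total 0 s with hs | hs
  · exact ⟨a, s, hs, fun y => by rw [RD.WP.ofReal_sq_rpow _ hs, ENNReal.rpow_neg]⟩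
  · obtain ⟨v, hv⟩ := ha.exists_left_inv
    refine ⟨v, -s, by linarith, fun y => ?_⟩
    have e : y v * y a = 1 := by rw [← map_mul, hv, map_one]
    rw [RD.WP.ofReal_sq_rpow _ (by linarith), eq_inv_of_mul_eq_one_left e,
      enorm_inv (right_ne_zero_of_mul_eq_one e), ENNReal.inv_rpow, inv_inv, mul_neg]

theorem key {a b : ℂ} {P E1 E2 u Φ t c : ℝ} (ht : 0 ≤ t) (hc : 0 ≤ c) (hP : 0 ≤ P)
    (ha : ‖a‖ ≤ E1 * P) (hb : ‖b‖ ≤ E2 * P) (hu : 0 ≤ u) (h0 : 0 < Φ)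
    (hΦ : (E1 ^ 2) ^ t * (E2 ^ 2) ^ c * u ≤ Φ) :
    ENNReal.ofReal P ^ (-(2 * (t + c))) ≤ ENNReal.ofReal Φ *
      (‖a‖ₑ ^ (-(2 * t)) * (‖b‖ₑ ^ (-(2 * c)) * (ENNReal.ofReal u)⁻¹)) := by
  have h1 : ∀ {x : ℂ} {E s : ℝ}, 0 ≤ s → ‖x‖ ≤ E * P → (‖x‖ ^ 2) ^ s ≤ (E ^ 2) ^ s * (P ^ 2) ^ s :=
    fun {x E s} hs h => by
      rw [← Real.mul_rpow (sq_nonneg _) (sq_nonneg _), ← mul_pow]
      exact Real.rpow_le_rpow (sq_nonneg _) (pow_le_pow_left₀ (norm_nonneg _) h 2) hs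
  have h2 : (‖a‖ ^ 2) ^ t * (‖b‖ ^ 2) ^ c * u ≤ Φ * (P ^ 2) ^ (t + c) := by
    rw [Real.rpow_add_of_nonneg (sq_nonneg _) ht hc]
    calc _ ≤ (E1 ^ 2) ^ t * (P ^ 2) ^ t * ((E2 ^ 2) ^ c * (P ^ 2) ^ c) * u :=
          mul_le_mul_of_nonneg_right (mul_le_mul (h1 ht ha) (h1 hc hb) (by positivity)
            (by positivity)) hu
      _ = (E1 ^ 2) ^ t * (E2 ^ 2) ^ c * u * ((P ^ 2) ^ t * (P ^ 2) ^ c) := by ring
      _ ≤ _ := mul_le_mul_of_nonneg_right hΦ (by positivity)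
  have h3 : ENNReal.ofReal ((P ^ 2) ^ (t + c)) = ENNReal.ofReal P ^ (2 * (t + c)) := by
    rw [← Real.rpow_natCast, ← Real.rpow_mul hP,
      ENNReal.ofReal_rpow_of_nonneg hP (by positivity)]
    norm_num
  rw [← mul_assoc (‖a‖ₑ ^ _), ← RD.WP.inv_wt _ _ ht hc]
  refine le_trans (le_of_eq ?_)
    (mul_le_mul_right (ENNReal.inv_le_inv.2 (ENNReal.ofReal_le_ofReal h2)) _)
  rw [ENNReal.ofReal_mul h0.le, ENNReal.mul_inv (Or.inr ENNReal.ofReal_ne_top)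
    (Or.inl ENNReal.ofReal_ne_top), ← mul_assoc, ENNReal.mul_inv_cancel
      (ENNReal.ofReal_pos.2 h0).ne' ENNReal.ofReal_ne_top, one_mul, h3, ENNReal.rpow_neg]

theorem sos_le {ε : Type} [Fintype ε] (w w0 : ε → ℂ) :
    ∑ k, ‖w k - w0 k‖ ^ 2 ≤ Fintype.card ε * ‖w - w0‖ ^ 2 := by
  have : ∑ k, ‖w k - w0 k‖ ^ 2 ≤ ∑ _k : ε, ‖w - w0‖ ^ 2 := Finset.sum_le_sum fun k _ =>
    pow_le_pow_left₀ (norm_nonneg _) (norm_le_pi_norm (w - w0) k) 2
  rwa [Finset.sum_const, Finset.card_univ, nsmul_eq_mul] at this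

theorem lt_of_sos {ε : Type} [Fintype ε] {w w0 : ε → ℂ} {ρ : ℝ} (hρ : 0 < ρ)
    (h : ∑ k, ‖w k - w0 k‖ ^ 2 < ρ ^ 2) : ‖w - w0‖ < ρ :=
  (pi_norm_lt_iff hρ).2 fun k => lt_of_pow_lt_pow_left₀ 2 hρ.le
    ((Finset.single_le_sum (f := fun k => ‖w k - w0 k‖ ^ 2) (fun _ _ => sq_nonneg _)
      (Finset.mem_univ k)).trans_lt h)

theorem pole_le {ε : Type} [Fintype ε] (w0 : ε → ℂ) (N : ℕ) : ∃ A : ℝ, ∀ w : ε → ℂ,
    ENNReal.ofReal ((1 + ‖w‖) ^ (-(2 * (N + 1)) : ℝ)) ≤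
      ENNReal.ofReal A * (ENNReal.ofReal ((∑ k, ‖w k - w0 k‖ ^ 2 + 1) ^ (N + 1)))⁻¹ := by
  refine ⟨(Fintype.card ε * (1 + ‖w0‖) ^ 2 + 1) ^ (N + 1), fun w => ?_⟩
  have p : 0 < (∑ k, ‖w k - w0 k‖ ^ 2 + 1) ^ (N + 1) := by positivity
  rw [← ENNReal.ofReal_inv_of_pos p, ← ENNReal.ofReal_mul (by positivity)]
  refine ENNReal.ofReal_le_ofReal ?_
  have e : (1 + ‖w‖) ^ (-(2 * (N + 1)) : ℝ) = (((1 + ‖w‖) ^ 2) ^ (N + 1))⁻¹ := by
    rw [Real.rpow_neg (by positivity), ← pow_mul, ← Real.rpow_natCast]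
    push_cast; rfl
  rw [e, ← div_eq_mul_inv, inv_eq_one_div, div_le_div_iff₀ (by positivity) p, one_mul, ← mul_pow]
  refine pow_le_pow_left₀ (by positivity) ?_ _
  have h1 : ‖w - w0‖ ≤ (1 + ‖w0‖) * (1 + ‖w‖) := (norm_sub_le _ _).trans (by
    nlinarith [norm_nonneg w, norm_nonneg w0, mul_nonneg (norm_nonneg w) (norm_nonneg w0)])
  have h2 := pow_le_pow_left₀ (norm_nonneg _) h1 2
  have h3 := mul_le_mul_of_nonneg_left h2 (Nat.cast_nonneg (α := ℝ) (Fintype.card ε))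
  have h4 : (1 : ℝ) ≤ (1 + ‖w‖) ^ 2 := one_le_pow₀ (by linarith [norm_nonneg w])
  have h5 := sos_le w w0
  rw [mul_pow] at h3
  nlinarith

end StpD

variable {δ ν K M : Type} [Fintype δ] [DecidableEq δ] [Fintype ν] [DecidableEq ν]
  [Field K] [Algebra ℂ K] [Field M] [Algebra ℂ M] [Algebra K M] [IsScalarTower ℂ K M]
  {κ : Type} [Fintype κ] [DecidableEq κ]

/-- Fubini over a part of the base, with a weight from the base -/
theorem Rel.pow_fub_set {B : Cht δ K} (T : Rel B ν M) {Q : Set (Pt B.O)} (hQ : MeasurableSet Q)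
    {om : Pt B.O → ℝ≥0∞} (hom : Measurable om) {G : T.Pow κ → ℝ≥0∞} (hG : Measurable G) :
    ∫⁻ b in Q, om b * ∫⁻ x, G (Rel.Pow.mk b x) ∂(Measure.pi fun _ : κ => (T.fib b).μ) ∂B.D.μ =
      ∫⁻ q in Rel.Pow.b ⁻¹' Q, om q.b * G q ∂(T.pow κ).μ := by
  have mb : Measurable (Rel.Pow.b : T.Pow κ → Pt B.O) := Rel.Pow.cont_b.measurable
  have mG : Measurable fun q : T.Pow κ => om q.b * G q := (hom.comp mb).mul hG
  rw [← lintegral_indicator (mb hQ), ← lintegral_indicator hQ,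
    (T.pow_fubini (mG.indicator (mb hQ))).2]
  refine lintegral_congr fun b => ?_
  by_cases h : b ∈ Q
  · rw [indicator_of_mem h]
    exact (lintegral_const_mul _ (hG.comp (Rel.Pow.cont_mk b).measurable)).symm.trans
      (lintegral_congr fun x => (indicator_of_mem (s := Rel.Pow.b ⁻¹' Q) (a := Rel.Pow.mk b x) h
        fun q => om q.b * G q).symm)
  · rw [indicator_of_notMem h]
    exact (lintegral_zero.symm.trans (lintegral_congr fun x =>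
      (indicator_of_notMem (s := Rel.Pow.b ⁻¹' Q) h _).symm))

namespace Dat

section gen

variable (d : Dat δ K ν M)

/-- a tensor as a function on the fibre power -/
def tw (U : d.Ten κ) (q : d.T.Pow κ) : ℂ := d.tev U q.b q.f

theorem hol_tw (U : d.Ten κ) : (d.T.pow κ).Hol (d.tw U) := fun q =>
  DifferentiableAt.fun_sum fun I _ => (d.T.pow_hol_b (d.B.hol (U I)) q).mul
    (Finset.analyticAt_fun_prod _ fun j _ =>
      RD.WP.ana (d.T.pow_hol_p (d.T.X.hol (d.τ (I j))) j) q).differentiableAt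

theorem I3_fub (U' U V : d.Ten κ) (a b c : ℝ) {Q : Set (Pt d.B.O)} (hQ : MeasurableSet Q)
    {om : Pt d.B.O → ℝ≥0∞} (hom : Measurable om) :
    ∫⁻ y in Q, om y * d.I3 U' U V a b c y ∂d.B.D.μ = ∫⁻ q in Rel.Pow.b ⁻¹' Q,
      om q.b * (‖d.tw U' q‖ₑ ^ a * ‖d.tw U q‖ₑ ^ (-b) * ‖d.tw V q‖ₑ ^ (-c)) ∂(d.T.pow κ).μ :=
  d.T.pow_fub_set hQ hom (G := fun q => ‖d.tw U' q‖ₑ ^ a * ‖d.tw U q‖ₑ ^ (-b) * ‖d.tw V q‖ₑ ^ (-c))
    ((((d.hol_tw U').cont.measurable.enorm.pow_const _).mul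
      ((d.hol_tw U).cont.measurable.enorm.pow_const _)).mul
        ((d.hol_tw V).cont.measurable.enorm.pow_const _))

theorem measurable_wt (g : d.B.O) (θ : ℝ) : Measurable (d.wt g θ) :=
  ((Pt.continuous_apply _).measurable.enorm.pow_const _).mul
    ((Pt.continuous_apply _).measurable.enorm.pow_const _)

theorem exists_wt {g : d.B.O} (hg : IsUnit g) (θ : ℝ) : ∃ u : Pt d.B.O → ℝ,
    (d.T.pow κ).LP (fun q => u q.b) ∧ Md d.B.siz u ∧ (∀ y, 0 ≤ u y) ∧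
      ∀ y, (ENNReal.ofReal (u y))⁻¹ = d.wt g θ y := by
  obtain ⟨a, s, hs, ha⟩ := StpD.unit_pow d.unit (-(1 / d.k))
  obtain ⟨a', s', hs', ha'⟩ := StpD.unit_pow hg θ
  have md : ∀ (x : d.B.O) {s : ℝ}, 0 ≤ s → Md d.B.siz fun y => (‖y x‖ ^ 2) ^ s := fun x s hs =>
    StpD.md_rpow ((d.B.md x).pow d.B.siz_nonneg (fun _ => norm_nonneg _) 2) (fun _ => sq_nonneg _) hs
  refine ⟨fun y => (‖y a‖ ^ 2) ^ s * (‖y a'‖ ^ 2) ^ s',
    ((RD.lp_normSq (d.T.pow_hol_b (d.B.hol a))).rpow hs).mul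
      ((RD.lp_normSq (d.T.pow_hol_b (d.B.hol a'))).rpow hs'),
    (md a hs).mul (md a' hs') fun _ => by positivity, fun _ => by positivity, fun y => ?_⟩
  rw [ENNReal.ofReal_mul (by positivity), ENNReal.mul_inv (Or.inr ENNReal.ofReal_ne_top)
    (Or.inl ENNReal.ofReal_ne_top), ha, ha', wt]
  congr 2
  ring

/-- a holomorphic function on the fibre power with finite norm for a weight of the step -/
theorem ten_of_wt {F : d.T.Pow κ → ℂ} (hF : (d.T.pow κ).Hol F) (U V : d.Ten κ) {t c : ℝ}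
    (ht : 0 ≤ t) (hc : 0 ≤ c) (hs : t + c = 1 - 1 / d.m) {u : Pt d.B.O → ℝ} (hu : Md d.B.siz u)
    (u0 : ∀ y, 0 ≤ u y) (h : ∫⁻ q, ‖F q‖ₑ ^ (2 : ℝ) * ‖d.tw U q‖ₑ ^ (-(2 * t)) *
      (‖d.tw V q‖ₑ ^ (-(2 * c)) * (ENNReal.ofReal (u q.b))⁻¹) ∂(d.T.pow κ).μ ≠ ⊤) :
    ∃ U' : d.Ten κ, F = d.tw U' := by
  classical
  obtain ⟨u1, ⟨L1, l1, m1⟩, h1⟩ := d.tev_le U
  obtain ⟨u2, ⟨L2, l2, m2⟩, h2⟩ := d.tev_le V
  have z := d.B.siz_nonneg
  have md : ∀ {L s : ℝ}, 0 ≤ L → 0 ≤ s →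
      Md d.B.siz fun y => (Real.exp (L * d.B.siz y + L) ^ 2) ^ s := fun {L s} hL hs =>
    StpD.md_rpow (Md.pow z ⟨L, hL, fun _ => le_rfl⟩ (fun _ => (Real.exp_pos _).le) 2)
      (fun _ => sq_nonneg _) hs
  obtain ⟨n, hn⟩ := StpD.md_nat (((md l1 ht).mul (md l2 hc) fun _ => by positivity).mul hu u0) z
  have m0 : (0 : ℝ) < d.m := by have := d.hm; positivity
  have es : (-(2 * (d.m - 1) / d.m) : ℝ) = -(2 * (t + c)) := by rw [hs]; field_simp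
  have eF : ∀ q : d.T.Pow κ, Function.extend Subtype.val F 0 q.1 = F q := fun q =>
    Subtype.val_injective.extend_apply F 0 q
  have mf : ∀ j, Measurable fun q : d.T.Pow κ => ‖d.f q.b (q.f j)‖ₑ := fun j =>
    (continuous_pi fun i => (Pt.continuous_apply (d.τ i)).comp (Rel.Pow.cont_p j)).measurable.enorm
  obtain ⟨U', hU'⟩ := d.sat_pow (d.T.pow κ) d.T.pow_inl d.T.pow_inr
    (F := Function.extend Subtype.val F 0) (by simpa only [eF] using hF) n (by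
      have := d.T.pow_fub_set MeasurableSet.univ
        (om := fun b => ENNReal.ofReal (Real.exp (-(n * d.B.siz b))))
        (Real.continuous_exp.comp (continuous_const.mul d.B.psh.1.cont).neg).measurable.ennreal_ofReal
        (G := fun q : d.T.Pow κ => ‖F q‖ₑ ^ 2 *
          ∏ j, ‖d.f q.b (q.f j)‖ₑ ^ (-(2 * (d.m - 1) / d.m) : ℝ))
        ((hF.cont.measurable.enorm.pow_const (2 : ℕ)).mul (Finset.measurable_prod Finset.univ
          fun j _ => (mf j).pow_const (-(2 * (d.m - 1) / d.m) : ℝ)))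
      rw [preimage_univ, Measure.restrict_univ, Measure.restrict_univ] at this
      refine lt_of_eq_of_lt (Eq.trans (lintegral_congr fun b => congrArg _ (lintegral_congr
        fun p => ?_)) this) ?_
      · exact congrArg (fun x : ℂ => ‖x‖ₑ ^ 2 * _) (eF (Rel.Pow.mk b p))
      refine lt_of_le_of_lt (lintegral_mono fun q => ?_)
        ((lintegral_const_mul' (ENNReal.ofReal (Real.exp n)) _ ENNReal.ofReal_ne_top).trans_lt
          (ENNReal.mul_lt_top ENNReal.ofReal_lt_top h.lt_top))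
      have P0 : 0 ≤ ∏ j, ‖d.f q.b (q.f j)‖ := by positivity
      have k := StpD.key (a := d.tw U q) (b := d.tw V q) ht hc P0
        ((h1 _ _).trans (mul_le_mul_of_nonneg_right (m1 _) P0))
        ((h2 _ _).trans (mul_le_mul_of_nonneg_right (m2 _) P0)) (u0 _) (by positivity) (hn q.b)
      rw [ENNReal.ofReal_prod_of_nonneg fun _ _ => norm_nonneg _] at k
      simp only [ofReal_norm] at k
      rw [ENNReal.prod_rpow_of_ne_top fun _ _ => enorm_ne_top, es, mul_left_comm, mul_assoc,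
        mul_left_comm (ENNReal.ofReal _), ENNReal.rpow_two]
      refine mul_le_mul_right ((mul_le_mul_right k _).trans_eq ?_) _
      rw [← mul_assoc, ← ENNReal.ofReal_mul (Real.exp_pos _).le, ← Real.exp_add, ← Real.exp_add,
        neg_add_cancel_comm_assoc])
  exact ⟨U', funext fun q => (eF q).symm.trans (hU' q.b q.f)⟩

end gen

variable {ε γ : Type} [Fintype ε] [DecidableEq ε] [Fintype γ] [DecidableEq γ]
  (d : Dat (ε ⊕ γ) K ν M)

theorem cont_w : Continuous d.w :=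
  continuous_pi fun i => (continuous_apply (Sum.inl i)).comp d.B.D.cont_π

/-- one extension step -/
theorem step {g : d.B.O} (hg : IsUnit g) (θ : ℝ) (w0 : ε → ℂ) {ρ : ℝ} (hρ : 0 < ρ) {t c : ℝ}
    (ht : 0 ≤ t) (hc : 0 ≤ c) (hs : t + c = 1 - 1 / d.m) (U V : d.Ten κ)
    (h : ∫⁻ y in {y | ‖d.w y - w0‖ < ρ}, d.wt g θ y * d.I3 U U V (2 - 2 * t) 0 (2 * c) y ∂d.B.D.μ < ⊤) :
    ∃ U' : d.Ten κ, (∀ y, d.w y = w0 → ∀ I, y (U' I) = y (U I)) ∧
      ∫⁻ y, d.wt g θ y * ENNReal.ofReal ((1 + ‖d.w y‖) ^ (-(2 * (Fintype.card ε + 1)) : ℝ)) *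
        d.I3 U' U V 2 (2 * t) (2 * c) y ∂d.B.D.μ < ⊤ ∧
      ∫⁻ y in {y | ‖d.w y - w0‖ < ρ}, d.wt g θ y * d.I3 U' U' V (2 - 2 * t) 0 (2 * c) y ∂d.B.D.μ < ⊤ := by
  obtain ⟨u, u1, u2, u0, u3⟩ := d.exists_wt (κ := κ) hg θ
  have m0 : (0 : ℝ) < 1 / d.m := by have := d.hm; positivity
  have hQ : MeasurableSet {y | ‖d.w y - w0‖ < ρ} :=
    (isOpen_lt (d.cont_w.sub continuous_const).norm continuous_const).measurableSet
  have tube : ∀ X : d.Ten κ, ∫⁻ y in {y | ‖d.w y - w0‖ < ρ},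
      d.wt g θ y * d.I3 X X V (2 - 2 * t) 0 (2 * c) y ∂d.B.D.μ =
      ∫⁻ q in Rel.Pow.b ⁻¹' {y | ‖d.w y - w0‖ < ρ}, ‖d.tw X q‖ₑ ^ (2 - 2 * t) *
        (‖d.tw V q‖ₑ ^ (-(2 * c)) * (ENNReal.ofReal (u q.b))⁻¹) ∂(d.T.pow κ).μ := fun X => by
    rw [d.I3_fub _ _ _ _ _ _ hQ (d.measurable_wt g θ)]
    refine lintegral_congr fun q => ?_
    rw [neg_zero, ENNReal.rpow_zero, mul_one, u3, mul_comm, mul_assoc]
  let e : ε ↪ (ε ⊕ γ) ⊕ κ × ν :=
    ⟨fun i => Sum.inl (Sum.inl i), Sum.inl_injective.comp Sum.inl_injective⟩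
  have he : ∀ q i, (d.T.pow κ).π q (e i) = d.w q.b i := fun q i => d.T.pow_inl q _
  obtain ⟨F, F1, F2, F3, F4⟩ := RD.WP.step (RD.hl (d.T.pow_exh d.B.exh d.T.X.exh)) u1 e w0
    (r := ρ ^ 2) (R := Fintype.card ε * ρ ^ 2) (by positivity) (d.hol_tw U) (d.hol_tw V) ht
    (by linarith) hc (T := Rel.Pow.b ⁻¹' {y | ‖d.w y - w0‖ < ρ})
    (fun q hq => StpD.lt_of_sos hρ (by simpa only [he] using hq))
    (Rel.Pow.cont_b.measurable hQ) (fun q hq => by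
      simp only [he]
      exact (StpD.sos_le _ _).trans (mul_le_mul_of_nonneg_left
        (pow_le_pow_left₀ (norm_nonneg _) (le_of_lt hq) 2) (Nat.cast_nonneg _)))
    (tube U ▸ h.ne)
  simp only [he] at F2 F3
  have z := d.B.siz_nonneg
  have md : Md d.B.siz fun y => (∑ k, ‖d.w y k - w0 k‖ ^ 2 + 1) ^ (Fintype.card ε + 1) := by
    refine (Md.add z (Md.sum z _ fun k _ => Md.pow z ?_ (fun _ => norm_nonneg _) 2)
      (Md.const z 1)).pow z (fun _ => by positivity) _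
    refine (Md.add z (d.B.md (d.B.z (Sum.inl k))) (Md.const z ‖w0 k‖)).mono fun y => ?_
    rw [← d.B.π_eq]
    exact norm_sub_le _ _
  obtain ⟨U', rfl⟩ := d.ten_of_wt F1 U V ht hc hs (u2.mul md fun _ => by positivity)
    (fun y => mul_nonneg (u0 y) (by positivity)) F3
  refine ⟨U', fun y hy => d.tev_inj fun p => F2 (Rel.Pow.mk y p) fun k => congrFun hy k, ?_,
    tube U' ▸ F4.lt_top⟩
  obtain ⟨A, hA⟩ := StpD.pole_le w0 (Fintype.card ε)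
  have := d.I3_fub U' U V 2 (2 * t) (2 * c) MeasurableSet.univ
    (om := fun y => d.wt g θ y *
      ENNReal.ofReal ((1 + ‖d.w y‖) ^ (-(2 * (Fintype.card ε + 1)) : ℝ)))
    ((d.measurable_wt g θ).mul
      ((continuous_const.add d.cont_w.norm).measurable.pow_const _).ennreal_ofReal)
  rw [preimage_univ, Measure.restrict_univ, Measure.restrict_univ] at this
  rw [this]
  refine lt_of_le_of_lt (lintegral_mono fun q => ?_)
    ((lintegral_const_mul' (ENNReal.ofReal A) _ ENNReal.ofReal_ne_top).trans_lt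
      (ENNReal.mul_lt_top ENNReal.ofReal_lt_top F3.lt_top))
  rw [ENNReal.ofReal_mul (u0 _), ENNReal.mul_inv (Or.inr ENNReal.ofReal_ne_top)
    (Or.inl ENNReal.ofReal_ne_top), u3]
  refine (mul_le_mul_left (mul_le_mul_right (hA _) _) _).trans_eq ?_
  ring

end Dat

end

end Pool.Agent.Lib.MP_5c318e_ag
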