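import Pool.Agent.Lib.MP_5c318e_ag.Z.DDefs
import Pool.Agent.Lib.MP_5c318e_ag.Fp.Pw
import Pool.Agent.Lib.MP_5c318e_ag.C.Siz
import Pool.Agent.Lib.MP_5c318e_ag.S.APlu
/-! Tensors on fibre powers: values, blocks, measurability, injectivity, bounds, diagonals. -/
set_option autoImplicit false
set_option linter.unusedSectionVars false
namespace Pool.Agent.Lib.MP_5c318e_ag
open MeasureTheory Set Filter Topology Matrix
open scoped ENNReal
noncomputable section

namespace TenA

variable {κ β ι ρ : Type} [Fintype κ] [DecidableEq κ] [Fintype β] [DecidableEq β] [Fintype ι]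
  [DecidableEq ι] [Fintype ρ] [DecidableEq ρ]

theorem blk_core (e : β × κ ≃ ι) (c : (κ → ρ) → ℂ) (x : ι → ρ → ℂ) :
    ∑ I : ι → ρ, (∏ l, c fun k => I (e (l, k))) * ∏ j, x j (I j) =
      ∏ l, ∑ J : κ → ρ, c J * ∏ k, x (e (l, k)) (J k) := by
  rw [Fintype.prod_sum]
  refine Fintype.sum_equiv ((e.symm.arrowCongr (Equiv.refl ρ)).trans (Equiv.curry β κ ρ)) _ _
    fun I => ?_
  rw [Finset.prod_mul_distrib, ← e.prod_comp, Fintype.prod_prod_type]
  rfl

theorem det_expand (x : ρ → ρ → ℂ) :
    ∑ I : ρ → ρ, (Matrix.of fun j i => if I j = i then (1 : ℂ) else 0).det * ∏ j, x j (I j) =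
      (Matrix.of x).det := by
  have h1 : x = fun j => ∑ i, x j i • (fun i' => if i = i' then (1 : ℂ) else 0) := by
    funext j i'
    simp [Finset.sum_apply]
  have h2 := (Matrix.detRowAlternating (n := ρ) (R := ℂ)).toMultilinearMap.map_sum
    (fun j i => x j i • (fun i' => if i = i' then (1 : ℂ) else 0))
  rw [← h1] at h2
  refine Eq.trans ?_ h2.symm
  refine Finset.sum_congr rfl fun I _ => ?_
  rw [MultilinearMap.map_smul_univ, smul_eq_mul, mul_comm]
  rfl

/-- a multilinear form that vanishes on tuples from a spanning family is zero -/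
theorem ten_zero {Ω : Type} {f : Ω → ρ → ℂ} (hf : ∀ a : ρ → ℂ, (∀ p, a ⬝ᵥ f p = 0) → a = 0)
    {c : (κ → ρ) → ℂ} (h : ∀ p : κ → Ω, ∑ I, c I * ∏ j, f (p j) (I j) = 0) (I : κ → ρ) :
    c I = 0 := by
  have key : ∀ s : Finset κ, ∀ x : κ → ρ → ℂ, (∀ j, j ∉ s → x j ∈ range f) →
      ∑ I, c I * ∏ j, x j (I j) = 0 := by
    intro s
    induction s using Finset.induction_on with
    | empty =>
      intro x hx
      choose p hp using fun j => hx j (Finset.notMem_empty j)
      simpa only [hp] using h p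
    | insert j0 s hj ih =>
      intro x hx
      have lin : ∀ v : ρ → ℂ, ∑ I, c I * ∏ j, Function.update x j0 v j (I j) =
          (fun i => ∑ I : κ → ρ, if I j0 = i then c I * ∏ j ∈ Finset.univ.erase j0, x j (I j)
            else 0) ⬝ᵥ v := by
        intro v
        simp only [dotProduct, Finset.sum_mul]
        rw [Finset.sum_comm]
        refine Finset.sum_congr rfl fun I _ => ?_
        rw [← Finset.mul_prod_erase _ _ (Finset.mem_univ j0), Function.update_self,
          Finset.prod_congr rfl fun j hj => by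
            rw [Function.update_of_ne (Finset.ne_of_mem_erase hj)]]
        simp only [ite_mul, zero_mul, Finset.sum_ite_eq, Finset.mem_univ, if_true]
        ring
      have h0 := hf _ fun p => (lin (f p)).symm.trans (ih _ fun j hjs => by
        by_cases e : j = j0
        · subst e
          rw [Function.update_self]
          exact ⟨p, rfl⟩
        · rw [Function.update_of_ne e]
          exact hx j (by simp [e, hjs]))
      have := lin (x j0)
      rwa [h0, Function.update_eq_self, zero_dotProduct] at this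
  have := key Finset.univ (fun j i => if I j = i then 1 else 0) fun j hj =>
    absurd (Finset.mem_univ j) hj
  rwa [Finset.sum_eq_single I (fun J _ hJ => by
    obtain ⟨j, hj⟩ := Function.ne_iff.1 hJ
    rw [Finset.prod_eq_zero (Finset.mem_univ j) (if_neg fun e => hj e.symm), mul_zero])
    (fun h => absurd (Finset.mem_univ I) h), Finset.prod_eq_one fun j _ => if_pos rfl,
    mul_one] at this

end TenA

variable {δ ν K M : Type} [Fintype δ] [DecidableEq δ] [Fintype ν] [DecidableEq ν]
  [Field K] [Algebra ℂ K] [Field M] [Algebra ℂ M] [Algebra K M] [IsScalarTower ℂ K M]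
  (d : Dat δ K ν M) {κ β ι : Type} [Fintype κ] [DecidableEq κ] [Fintype β] [DecidableEq β]
  [Fintype ι] [DecidableEq ι]

theorem Dat.tev_sg (b : Pt d.B.O) (p : Fin d.r → d.T.Fib b) :
    d.tev d.sg b p = N.dt (d.f b) p := by
  refine Eq.trans ?_ (TenA.det_expand fun j => d.f b (p j))
  refine Finset.sum_congr rfl fun I _ => ?_
  congr 1
  have := RingHom.map_det (b.hom : d.B.O →+* ℂ)
    (Matrix.of fun j i => if I j = i then (1 : d.B.O) else 0)
  refine Eq.trans this ?_
  congr 1
  ext j i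
  simp only [RingHom.mapMatrix_apply, Matrix.map_apply, Matrix.of_apply]
  split_ifs <;> simp

theorem Dat.tev_blk (U : d.Ten κ) (e : β × κ ≃ ι) (b : Pt d.B.O) (p : ι → d.T.Fib b) :
    d.tev (d.blk U e) b p = ∏ l, d.tev U b fun j => p (e (l, j)) := by
  refine Eq.trans ?_ (TenA.blk_core e (fun J => b (U J)) fun j => d.f b (p j))
  simp only [Dat.tev, Dat.blk, map_prod]

theorem Dat.tq_blk (U : d.Ten κ) (e : β × κ ≃ ι) (b : Pt d.B.O) (ξ : Fin d.r → ℂ) :
    d.tq (d.blk U e) b ξ = d.tq U b ξ ^ Fintype.card β := by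
  have := TenA.blk_core e (fun J => b (U J)) fun _ => ξ
  rw [Finset.prod_const, Finset.card_univ] at this
  refine Eq.trans ?_ this
  simp only [Dat.tq, Dat.blk, map_prod]

theorem Dat.continuous_f (b : Pt d.B.O) : Continuous (d.f b) :=
  continuous_pi fun i => (Pt.continuous_apply (d.τ i)).comp continuous_subtype_val

theorem Dat.measurable_f (b : Pt d.B.O) : Measurable (d.f b) :=
  measurable_pi_lambda _ fun i =>
    (Pt.continuous_apply (d.τ i)).measurable.comp measurable_subtype_coe

theorem Dat.measurable_tev (U : d.Ten κ) (b : Pt d.B.O) : Measurable (d.tev U b) :=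
  Finset.measurable_fun_sum _ fun I _ => (Finset.measurable_fun_prod _ fun j _ =>
    ((measurable_pi_apply (I j)).comp (d.measurable_f b)).comp (measurable_pi_apply j)).const_mul _

/-- the value of a tensor as a function of the base point and the points in the slots -/
def Dat.tv (U : d.Ten κ) (q : Pt d.B.O × (κ → Pt d.T.X.O)) : ℂ :=
  ∑ I, q.1 (U I) * ∏ j, q.2 j (d.τ (I j))

theorem Dat.tv_mk (U : d.Ten κ) (b : Pt d.B.O) (p : κ → d.T.Fib b) :
    d.tv U (b, fun j => (p j).1) = d.tev U b p := rfl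

theorem Dat.measurable_tv (U : d.Ten κ) : Measurable (d.tv U) :=
  Finset.measurable_fun_sum _ fun I _ =>
    ((Pt.continuous_apply (U I)).measurable.comp measurable_fst).mul
      (Finset.measurable_fun_prod _ fun j _ =>
        (Pt.continuous_apply (d.τ (I j))).measurable.comp
          ((measurable_pi_apply j).comp measurable_snd))

theorem Dat.measurable_I3 (U' U V : d.Ten κ) (a b c : ℝ) : Measurable (d.I3 U' U V a b c) := by
  have m : ∀ (W : d.Ten κ) (s : ℝ), Measurable fun q : d.T.toRel.Pow κ => ‖d.tv W q.1‖ₑ ^ s :=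
    fun W s => (((d.measurable_tv W).comp measurable_subtype_coe).enorm).pow_const s
  exact (d.T.toRel.pow_fubini (κ := κ)
    (G := fun q => ‖d.tv U' q.1‖ₑ ^ a * ‖d.tv U q.1‖ₑ ^ (-b) * ‖d.tv V q.1‖ₑ ^ (-c))
    (((m U' a).mul (m U (-b))).mul (m V (-c)))).1

theorem Dat.measurable_Nx (U : d.Ten κ) : Measurable (d.Nx U) :=
  (d.T.toRel.pow_fubini (κ := κ) (G := fun q => ‖d.tv U q.1‖ₑ ^ (2 / d.m : ℝ))
    ((((d.measurable_tv U).comp measurable_subtype_coe).enorm).pow_const _)).1

/-- the values of the frame on a fibre span -/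
theorem Dat.ind_fib (b : Pt d.B.O) (a : Fin d.r → ℂ) (h : ∀ p, a ⬝ᵥ d.f b p = 0) : a = 0 := by
  obtain ⟨u, -, hu⟩ := d.low
  have hm : (0 : ℝ) < 2 / d.m := by
    have : (3 : ℝ) ≤ d.m := by exact_mod_cast d.hm
    positivity
  have h1 := hu b a
  have h2 : N.nN (d.T.fib b).μ (d.T.fr d.τ b) (2 / d.m) a = 0 := by
    unfold N.nN
    have : ∀ p, a ⬝ᵥ d.T.fr d.τ b p = 0 := h
    simp only [this, enorm_zero, ENNReal.zero_rpow_of_pos hm, lintegral_zero]
  rw [h2, mul_zero, nonpos_iff_eq_zero, ENNReal.rpow_eq_zero_iff_of_pos hm] at h1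
  simpa using h1

theorem Dat.tev_inj {U U' : d.Ten κ} {b : Pt d.B.O} (h : ∀ p, d.tev U b p = d.tev U' b p) (I) :
    b (U I) = b (U' I) := by
  refine sub_eq_zero.1 (TenA.ten_zero (d.ind_fib b) (c := fun J => b (U J) - b (U' J))
    (fun p => ?_) I)
  simp only [sub_mul, Finset.sum_sub_distrib]
  exact sub_eq_zero.2 (h p)

theorem Dat.tev_le (U : d.Ten κ) : ∃ u : Pt d.B.O → ℝ, Md d.B.siz u ∧
    ∀ b p, ‖d.tev U b p‖ ≤ u b * ∏ j, ‖d.f b (p j)‖ := by
  refine ⟨fun b => ∑ I, ‖b (U I)‖, Md.sum d.B.siz_nonneg _ fun I _ => d.B.md _, fun b p => ?_⟩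
  rw [Finset.sum_mul]
  refine (norm_sum_le _ _).trans (Finset.sum_le_sum fun I _ => ?_)
  rw [norm_mul, norm_prod]
  exact mul_le_mul_of_nonneg_left
    (Finset.prod_le_prod (fun _ _ => norm_nonneg _) fun j _ => norm_le_pi_norm _ _) (norm_nonneg _)

theorem Dat.diag_mem (U : d.Ten κ) : d.diag U ∈ d.T.X.O :=
  sum_mem fun I _ => mul_mem (d.T.inc_eq (U I) ▸ (d.T.inc (U I)).2)
    (prod_mem fun j _ => (d.τ (I j)).2)

theorem Dat.plu_τ (i : Fin d.r) : Plu d.T.dx d.m (d.τ i : M) :=
  (d.span _).2 (Submodule.subset_span ⟨i, rfl⟩)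

theorem Dat.diag_plu [Nonempty κ] (U : d.Ten κ) :
    Plu d.T.dx (d.m * Fintype.card κ) (d.diag U) := by
  have : CharZero K := charZero_of_injective_algebraMap (algebraMap ℂ K).injective
  intro O hO
  have h1 : ∀ (I : κ → Fin d.r) (s : Finset κ),
      RegI d.T.dx (d.m * s.card) (∏ j ∈ s, (d.τ (I j) : M)) O := by
    intro I s
    induction s using Finset.induction_on with
    | empty => exact ⟨fun _ => 0, fun _ => O.zero_mem, 1, O.one_mem, by simp⟩
    | insert j s hj ih =>
      rw [Finset.prod_insert hj, Finset.card_insert_of_notMem hj, mul_add, mul_one, add_comm]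
      exact (d.plu_τ (I j) O hO).mul ih
  unfold Dat.diag
  refine Finset.sum_induction _ (fun φ => RegI d.T.dx (d.m * Fintype.card κ) φ O)
    (fun _ _ => RegI.add) (RegI.zero _ _) fun I _ => (h1 I Finset.univ).mem_mul (hO.const _)

end
end Pool.Agent.Lib.MP_5c318e_ag
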