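import Pool.Agent.Lib.MP_5c318e_ag.D.EndA

/-! Sizes of functions near a general point of a prime divisor. -/

set_option autoImplicit false

namespace Pool.Agent.Lib.MP_5c318e_ag

open Set Filter Topology

variable {δ K : Type} [Fintype δ] [DecidableEq δ] [Field K] [Algebra ℂ K]

theorem Cht.At.exists_val {C : Cht δ K} {v : ValuationSubring K} {i0 : δ} (h : C.At v i0) {φ : K}
    (h0 : φ ≠ 0) : ∃ j : ℤ, v.valuation φ = v.valuation (C.z i0 : K) ^ j := h.adp.grp φ h0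

/-- elements of `v` are regular off a hypersurface of the divisor, units are not zero -/
theorem Cht.At.exists_reg {C : Cht δ K} {v : ValuationSubring K} {i0 : δ} (h : C.At v i0) {φ : K}
    (hφ : φ ∈ v) : ∃ e : C.O, ¬ C.z i0 ∣ e ∧ ∀ c0 : Pt C.O, c0 e ≠ 0 → c0.Reg φ ∧
      (v.valuation φ = 1 → c0.ev φ ≠ 0) := by
  obtain ⟨a, b, hb, e⟩ := h.loc φ hφ
  by_cases h1 : v.valuation φ = 1
  · have ha : v.valuation (a : K) = 1 := by rw [← e, map_mul, h1, hb, one_mul]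
    refine ⟨a * b, h.not_dvd_mul (h.not_dvd_iff.2 ha) (h.not_dvd_iff.2 hb), fun c hc => ?_⟩
    rw [map_mul] at hc
    refine ⟨⟨a, b, right_ne_zero_of_mul hc, e⟩, fun _ => ?_⟩
    rw [c.ev_eq (right_ne_zero_of_mul hc) e]
    exact div_ne_zero (left_ne_zero_of_mul hc) (right_ne_zero_of_mul hc)
  · exact ⟨b, h.not_dvd_iff.2 hb, fun c hc => ⟨⟨a, b, hc, e⟩, fun h' => absurd h' h1⟩⟩

theorem Cht.At.two_sided {B C : Cht δ K} {v : ValuationSubring K} {i0 : δ} (h : C.At v i0)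
    (σ : Tr C.O B.O) (hσ : σ.h = C.z i0) {φ : K} {j : ℤ}
    (hj : v.valuation φ = v.valuation (C.z i0 : K) ^ j) :
    ∃ e : C.O, ¬ C.z i0 ∣ e ∧ ∀ c0 : Pt C.O, c0 (C.z i0) = 0 → c0 e ≠ 0 → ∃ A : ℝ, 0 < A ∧
      ∀ᶠ c in 𝓝 c0, c (C.z i0) ≠ 0 → (σ.map c).Reg φ ∧ ‖(σ.map c).ev φ‖ ≤ A * ‖c (C.z i0)‖ ^ j ∧
        ‖c (C.z i0)‖ ^ j ≤ A * ‖(σ.map c).ev φ‖ := by
  have h0 : (C.z i0 : K) ^ j ≠ 0 := zpow_ne_zero j h.ad.ne
  have h1 : v.valuation (φ / (C.z i0 : K) ^ j) = 1 := by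
    rw [map_div₀, map_zpow₀, hj, div_self (zpow_ne_zero j ((Valuation.ne_zero_iff _).2 h.ad.ne))]
  obtain ⟨e, he, H⟩ := h.exists_reg ((v.valuation_le_one_iff _).1 h1.le)
  refine ⟨e, he, fun c0 _ hc => ?_⟩
  obtain ⟨h2, h3⟩ := H c0 hc
  have hc := h2.continuousAt.norm
  obtain ⟨A, hA, h4, h5⟩ : ∃ A : ℝ, 0 < A ∧ ‖c0.ev (φ / (C.z i0 : K) ^ j)‖ < A ∧
      ‖c0.ev (φ / (C.z i0 : K) ^ j)‖⁻¹ < A :=
    ⟨‖c0.ev (φ / (C.z i0 : K) ^ j)‖ + ‖c0.ev (φ / (C.z i0 : K) ^ j)‖⁻¹ + 1, by positivity,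
      by linarith [inv_nonneg.2 (norm_nonneg (c0.ev (φ / (C.z i0 : K) ^ j)))],
      by linarith [norm_nonneg (c0.ev (φ / (C.z i0 : K) ^ j))]⟩
  refine ⟨A, hA, ?_⟩
  filter_upwards [h2.eventually, hc.eventually_lt_const h4,
    (hc.inv₀ (norm_ne_zero_iff.2 (h3 h1))).eventually_lt_const h5,
    h2.continuousAt.eventually_ne (h3 h1)] with c c1 c2 c3 c4 hz
  have hs := (σ.same c (hσ ▸ hz)).1 φ
  have e1 := c.ev_zpow (c.reg_coe (C.z i0)) (by rwa [Pt.ev_coe]) j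
  have e2 := c.ev_mul c1 e1.1
  rw [div_mul_cancel₀ _ h0, e1.2, Pt.ev_coe] at e2
  rw [← hs.2, e2.2, norm_mul, norm_zpow]
  have hp : 0 ≤ ‖c (C.z i0)‖ ^ j := by positivity
  refine ⟨hs.1.1 e2.1, mul_le_mul_of_nonneg_right c2.le hp, ?_⟩
  rw [← mul_assoc]
  exact le_mul_of_one_le_left hp ((inv_le_iff_one_le_mul₀ (norm_pos_iff.2 c4)).1 c3.le)

/-- units of `v` have a nonzero limit -/
theorem Cht.At.tendsto {B C : Cht δ K} {v : ValuationSubring K} {i0 : δ} (h : C.At v i0)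
    (σ : Tr C.O B.O) (hσ : σ.h = C.z i0) {φ : K} (hφ : φ ∈ v) :
    ∃ e : C.O, ¬ C.z i0 ∣ e ∧ ∀ c0 : Pt C.O, c0 (C.z i0) = 0 → c0 e ≠ 0 → c0.Reg φ ∧
      (v.valuation φ = 1 → c0.ev φ ≠ 0) ∧
      Tendsto (fun c => (σ.map c).ev φ) (𝓝[{c | c (C.z i0) ≠ 0}] c0) (𝓝 (c0.ev φ)) := by
  obtain ⟨e, he, H⟩ := h.exists_reg hφ
  refine ⟨e, he, fun c0 _ hc => ⟨(H c0 hc).1, (H c0 hc).2, ?_⟩⟩
  refine ((H c0 hc).1.continuousAt.tendsto.mono_left nhdsWithin_le_nhds).congr' ?_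
  filter_upwards [self_mem_nhdsWithin] with c hz using ((σ.same c (hσ ▸ hz)).1 φ).2

/-- the disc through a point in the direction of one coordinate -/
theorem Cht.ev_disc (C : Cht δ K) (i0 : δ) {c0 : Pt C.O} (h0 : c0 (C.z i0) = 0) {P : Pt C.O → Prop}
    (h : ∀ᶠ c in 𝓝 c0, P c) : ∀ᶠ s in 𝓝 (0 : ℂ), ∃ c, P c ∧ c (C.z i0) = s := by
  have h1 : Tendsto (fun s : ℂ => C.D.π c0 + Pi.single i0 s) (𝓝 0) (𝓝 (C.D.π c0)) := by
    have : Continuous fun s : ℂ => C.D.π c0 + Pi.single i0 s :=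
      continuous_const.add (continuous_single (A := fun _ : δ => ℂ) i0)
    simpa using this.tendsto 0
  filter_upwards [h1.eventually ((C.D.tendsto_sec c0).eventually h),
    h1.eventually (C.D.π_sec_ev c0)] with s h2 h3
  refine ⟨_, h2, ?_⟩
  rw [← C.π_eq, h3, Pi.add_apply, C.π_eq, h0, zero_add, Pi.single_eq_same]

/-- growth bounds give orders -/
theorem Cht.At.val_le {B C : Cht δ K} {v : ValuationSubring K} {i0 : δ} (h : C.At v i0)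
    (σ : Tr C.O B.O) (hσ : σ.h = C.z i0) {φ : K} {x : ℝ} {e : C.O} (he : ¬ C.z i0 ∣ e)
    (H : ∀ c0 : Pt C.O, c0 (C.z i0) = 0 → c0 e ≠ 0 → ∀ ε : ℝ, 0 < ε → ∃ A : ℝ, ∀ᶠ c in 𝓝 c0,
      c (C.z i0) ≠ 0 → ‖(σ.map c).ev φ‖ ≤ A * ‖c (C.z i0)‖ ^ (x - ε)) {j : ℤ} (hj : (j : ℝ) - 1 < x) :
    v.valuation φ ≤ v.valuation (C.z i0 : K) ^ j := by
  rcases eq_or_ne φ 0 with rfl | h0
  · simp
  obtain ⟨i, hi⟩ := h.exists_val h0
  obtain ⟨e', he', H'⟩ := h.two_sided σ hσ hi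
  obtain ⟨c0, c1, c2⟩ := h.exists_pt (h.not_dvd_mul he he')
  rw [map_mul] at c2
  obtain ⟨A', hA', h1⟩ := H' c0 c1 (right_ne_zero_of_mul c2)
  have hx : x ≤ i := le_of_forall_pos_le_add fun ε hε => by
    obtain ⟨A, h2⟩ := H c0 c1 (left_ne_zero_of_mul c2) ε hε
    refine sub_le_iff_le_add.1 (exp_le_of_ev (A := A' * A) one_pos ?_)
    filter_upwards [(C.ev_disc i0 c1 (h1.and h2)).filter_mono nhdsWithin_le_nhds,
      self_mem_nhdsWithin] with s ⟨c, ⟨h3, h4⟩, h5⟩ hs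
    subst h5
    rw [one_mul, Real.rpow_intCast, mul_assoc]
    exact (h3 hs).2.2.trans (mul_le_mul_of_nonneg_left (h4 hs) hA'.le)
  have hji : j ≤ i := by
    have : j - 1 < i := by exact_mod_cast hj.trans_le hx
    omega
  rw [hi]
  exact zpow_le_zpow_right_of_le_one₀ ((Valuation.pos_iff _).2 h.ad.ne) h.ad.lt.le hji

end Pool.Agent.Lib.MP_5c318e_ag
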